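import Pool.Agent.N181.P8.Desc

/-!
The average over a subgroup of finite index.
-/

set_option autoImplicit false
set_option linter.all false

open Polynomial IsDedekindDomain WeierstrassCurve WeierstrassCurve.Affine
open scoped Classical

namespace Pool.Agent.K9h16.BT

open Pool.Agent.N181.T3 Pool.Agent.N181.P3
open Pool.Agent.TH115.GD (Pt act incl rs ak act_zero act_some act_inj act_act IsCoc LocTriv
  fixed_point exists_restrict rs_act_incl Preserves exists_conj IsTower LocallyTrivial Sep Comp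
  CompInf wFin lt_subT cob_isCoc sepKΩ preserves)

section avg

variable {K F : Type} [Field K] [Field F] [Algebra K F]
  {W : WeierstrassCurve K} {l : ℕ}

set_option maxHeartbeats 4000000 in
/-- **Descent from a subgroup of finite index.** -/
theorem avg [IsGalois K (Sep F)] (hpres : Preserves K F (Sep F))
    (H : Subgroup (Sep F ≃ₐ[K] Sep F)) (hfin : Finite ((Sep F ≃ₐ[K] Sep F) ⧸ H)) (hl0 : l ≠ 0)
    {c : ℕ → (Sep F ≃ₐ[F] Sep F) → Pt W (Sep F)} (hc : IsTCL W l c) (hi : IsInvL W l c)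
    (h : ∀ n, ∃ (X R : Pt W (Sep F)), l ^ n • R = X ∧ (∀ τ ∈ H, act W (ak τ) X = X) ∧
      ∀ σ, c n σ = act W (rs K σ) R - R) :
    ∃ N : ℕ, 0 < N ∧ ∀ n, ∃ (P : Pt W K) (R : Pt W (Sep F)),
      l ^ n • R = act W (incl K K (Sep F)) P ∧ ∀ σ, N • c n σ = act W (rs K σ) R - R := by
  letI := Fintype.ofFinite ((Sep F ≃ₐ[K] Sep F) ⧸ H)
  choose m Q hQ hm using hi
  choose cj hcj using exists_conj hpres
  set M := ∑ q : (Sep F ≃ₐ[K] Sep F) ⧸ H, m q.out with hM
  have hmM : ∀ q : (Sep F ≃ₐ[K] Sep F) ⧸ H, m q.out ≤ M := fun q =>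
    Finset.single_le_sum (f := fun q : (Sep F ≃ₐ[K] Sep F) ⧸ H => m q.out)
      (fun _ _ => Nat.zero_le _) (Finset.mem_univ q)
  have hQpow : ∀ (τ : Sep F ≃ₐ[K] Sep F) (n : ℕ), l ^ n • Q τ n = 0 := by
    intro τ n
    induction n with
    | zero => rw [(hQ τ).zero, smul_zero]
    | succ n ih => rw [pow_succ, mul_smul, (hQ τ).mul, ih]
  refine ⟨Fintype.card ((Sep F ≃ₐ[K] Sep F) ⧸ H) * l ^ M,
    Nat.mul_pos Fintype.card_pos (pow_pos (Nat.pos_of_ne_zero hl0) M), fun n => ?_⟩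
  obtain ⟨X, R, hX, hXfix, hcR⟩ := h n
  have hXout : ∀ τ : Sep F ≃ₐ[K] Sep F,
      act W (ak (QuotientGroup.mk τ : (Sep F ≃ₐ[K] Sep F) ⧸ H).out) X =
        act W (ak τ) X := by
    intro τ
    have h1 : τ⁻¹ * (QuotientGroup.mk τ : (Sep F ≃ₐ[K] Sep F) ⧸ H).out ∈ H :=
      QuotientGroup.eq.1 (QuotientGroup.out_eq' _).symm
    have h2 := hXfix _ h1
    have h3 : (ak τ).comp (ak (τ⁻¹ * (QuotientGroup.mk τ :
        (Sep F ≃ₐ[K] Sep F) ⧸ H).out)) =
        ak (QuotientGroup.mk τ : (Sep F ≃ₐ[K] Sep F) ⧸ H).out :=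
      AlgHom.ext fun x => by
        show τ (τ.symm _) = _
        rw [AlgEquiv.apply_symm_apply]
        rfl
    rw [← h3, ← act_act, h2]
  set P' := ∑ q : (Sep F ≃ₐ[K] Sep F) ⧸ H, act W (ak q.out) X with hP'
  have hP'fix : ∀ g : Sep F ≃ₐ[K] Sep F, act W (ak g) P' = P' := by
    intro g
    rw [hP', map_sum]
    refine Fintype.sum_equiv (MulAction.toPerm g) _ _ fun q => ?_
    show act W (ak g) (act W (ak q.out) X) = act W (ak (g • q).out) X
    have h1 : g • q = QuotientGroup.mk (g * q.out) := by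
      conv_lhs => rw [← QuotientGroup.out_eq' q]
      rfl
    rw [h1, hXout, act_act]
    rfl
  set R' := ∑ q : (Sep F ≃ₐ[K] Sep F) ⧸ H, act W (ak q.out) R with hR'def
  have hRP : l ^ n • R' = P' := by
    rw [hR'def, hP', Finset.smul_sum]
    refine Finset.sum_congr rfl fun q _ => ?_
    rw [← hX, map_nsmul]
  set Q' := ∑ q : (Sep F ≃ₐ[K] Sep F) ⧸ H, l ^ (M - m q.out) • Q q.out n with hQ'
  have hQ'0 : l ^ n • Q' = 0 := by
    rw [hQ', Finset.smul_sum]
    refine Finset.sum_eq_zero fun q _ => ?_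
    rw [smul_smul, mul_comm, mul_smul, hQpow, smul_zero]
  obtain ⟨P, hP⟩ := fixed_point (K := K) (F := K) W (l ^ M • P') fun τ => by
    rw [map_nsmul]
    exact congrArg _ (hP'fix τ)
  refine ⟨P, l ^ M • R' - Q', ?_, fun σ => ?_⟩
  · rw [smul_sub, hQ'0, sub_zero, hP, smul_smul, mul_comm, mul_smul, hRP]
  · have h1 : ∀ q : (Sep F ≃ₐ[K] Sep F) ⧸ H,
        l ^ M • (act W (rs K σ) (act W (ak q.out) R) - act W (ak q.out) R) =
          l ^ M • c n σ + (act W (rs K σ) (l ^ (M - m q.out) • Q q.out n) -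
            l ^ (M - m q.out) • Q q.out n) := by
      intro q
      have h2 := hcj q.out σ
      have hcomp : act W (rs K σ) (act W (ak q.out) R) =
          act W (ak q.out) (act W (rs K (cj q.out σ)) R) := by
        have h5 : (ak q.out).comp (rs K (cj q.out σ)) = (rs K σ).comp (ak q.out) :=
          AlgHom.ext fun x => h2 x
        rw [act_act, act_act, h5]
      have h3 := hm q.out n σ (cj q.out σ) h2
      have h4 : l ^ M = l ^ (M - m q.out) * l ^ (m q.out) := by
        rw [← pow_add, Nat.sub_add_cancel (hmM q)]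
      rw [hcomp, ← map_sub, ← hcR (cj q.out σ), map_nsmul, ← smul_sub, ← h3, smul_smul, ← h4,
        smul_sub]
      abel
    have h2 := Finset.sum_congr (rfl : (Finset.univ : Finset ((Sep F ≃ₐ[K] Sep F) ⧸
      H)) = Finset.univ) fun q _ => h1 q
    rw [Finset.sum_add_distrib, Finset.sum_const, Finset.card_univ, Finset.sum_sub_distrib,
      ← map_sum, ← hQ', ← Finset.smul_sum, Finset.sum_sub_distrib, ← map_sum, ← hR'def] at h2
    rw [map_sub, map_nsmul, mul_smul]
    rw [smul_sub] at h2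
    rw [sub_sub_sub_comm, h2]
    abel

end avg

end Pool.Agent.K9h16.BT
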