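import Pool.Agent.K9h16.QT.Kth

/-!
The parity functions are constant on the blocks of the roots.
-/

set_option autoImplicit false
set_option linter.all false

open Polynomial IsDedekindDomain WeierstrassCurve WeierstrassCurve.Affine
open scoped Classical Pointwise

namespace Pool.Agent.K9h16.BT

open Pool.Agent.TH115.GD Pool.Agent.K9h16.PT Pool.Agent.K9h16.QT Pool.Agent.R939.EI

section grp

variable {k : Type} [Field k] (k' : Type) [Field k'] [Algebra k k']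

/-- Elements with a single minor in the blocks of the roots of `P1` and `Q1`. -/
def PureB (P Q P1 Q1 : k[X]) : Prop :=
  ∀ β β' e e' : k', aeval β P1 = 0 → aeval β' P1 = 0 → aeval e Q1 = 0 → aeval e' Q1 = 0 → β ≠ β' →
    e ≠ e' → ∃ w : k' ≃ₐ[k] k', (∀ θ : k', aeval θ P = 0 → w θ = θ) ∧
      (∀ θ : k', aeval θ Q = 0 → w θ = θ) ∧ (∀ c : k, c ≠ 0 → sg w (algebraMap k k' c) = 0) ∧
      ∀ θ η : k', aeval θ P = 0 → aeval η Q = 0 →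
        sg w (θ - η) = (ee β θ + ee β' θ) * (ee e η + ee e' η)

/-- The cycles of length three of the roots of `P1` which fix the other roots of `P`. -/
def Cyc (P P1 : k[X]) : Prop :=
  ∀ x y z : k', aeval x P1 = 0 → aeval y P1 = 0 → aeval z P1 = 0 → x ≠ y → x ≠ z → y ≠ z →
    ∃ s : k' ≃ₐ[k] k', s x = y ∧ s y = z ∧ s z = x ∧
      ∀ θ : k', aeval θ P = 0 → θ ≠ x → θ ≠ y → θ ≠ z → s θ = θ

variable {k'}

theorem PureB.symm [IsSepClosed k'] (h2 : (2 : k') ≠ 0) {P Q P1 Q1 : k[X]} (hco : IsCoprime P Q)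
    (h : PureB k' P Q P1 Q1) : PureB k' Q P Q1 P1 := by
  intro β β' e e' h1 h1' h3 h3' hn hn'
  obtain ⟨w, w1, w2, w3, w4⟩ := h e e' β β' h3 h3' h1 h1' hn' hn
  refine ⟨w, w2, w1, w3, fun θ η hθ hη => ?_⟩
  have h5 : η - θ ≠ 0 := by
    intro e
    rw [sub_eq_zero] at e
    subst e
    exact cop_ne hco hη hθ
  have h6 := sg_neg h2 w3 h5 (by rw [map_sub, w1 η hη, w2 θ hθ])
  rw [neg_sub] at h6
  rw [h6, w4 η θ hη hθ, mul_comm]

theorem PureB.congr {P Q P' Q' P1 Q1 P1' Q1' : k[X]} (hP : ∀ θ : k', aeval θ P' = 0 ↔ aeval θ P = 0)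
    (hQ : ∀ θ : k', aeval θ Q' = 0 ↔ aeval θ Q = 0)
    (hP1 : ∀ θ : k', aeval θ P1' = 0 ↔ aeval θ P1 = 0)
    (hQ1 : ∀ θ : k', aeval θ Q1' = 0 ↔ aeval θ Q1 = 0) (h : PureB k' P Q P1 Q1) :
    PureB k' P' Q' P1' Q1' := by
  intro β β' e e' h1 h1' h3 h3' hn hn'
  obtain ⟨w, w1, w2, w3, w4⟩ := h β β' e e' ((hP1 _).1 h1) ((hP1 _).1 h1') ((hQ1 _).1 h3)
    ((hQ1 _).1 h3') hn hn'
  exact ⟨w, fun θ hθ => w1 θ ((hP _).1 hθ), fun θ hθ => w2 θ ((hQ _).1 hθ), w3,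
    fun θ η hθ hη => w4 θ η ((hP _).1 hθ) ((hQ _).1 hη)⟩

theorem Cyc.congr {P P' P1 P1' : k[X]} (hP : ∀ θ : k', aeval θ P' = 0 ↔ aeval θ P = 0)
    (hP1 : ∀ θ : k', aeval θ P1' = 0 ↔ aeval θ P1 = 0) (h : Cyc k' P P1) : Cyc k' P' P1' := by
  intro x y z hx hy hz n1 n2 n3
  obtain ⟨s, s1, s2, s3, s4⟩ := h x y z ((hP1 _).1 hx) ((hP1 _).1 hy) ((hP1 _).1 hz) n1 n2 n3
  exact ⟨s, s1, s2, s3, fun θ hθ => s4 θ ((hP _).1 hθ)⟩

/-- The element for the argument. -/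
theorem exists_A [IsSepClosed k'] (h2 : (2 : k') ≠ 0) {P Q P1 Q1 : k[X]} (hco : IsCoprime P Q)
    (h : PureB k' P Q P1 Q1) {β1 β2 β3 β4 e1 e2 e3 : k'} (b1 : aeval β1 P1 = 0)
    (b2 : aeval β2 P1 = 0) (b3 : aeval β3 P1 = 0) (b4 : aeval β4 P1 = 0) (d1 : aeval e1 Q1 = 0)
    (d2 : aeval e2 Q1 = 0)
    (d3 : aeval e3 Q1 = 0) (n12 : β1 ≠ β2) (n34 : β3 ≠ β4) (m12 : e1 ≠ e2) (m23 : e2 ≠ e3) :
    ∃ w : k' ≃ₐ[k] k', (∀ θ : k', aeval θ P = 0 → w θ = θ) ∧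
      (∀ θ : k', aeval θ Q = 0 → w θ = θ) ∧
      (∀ θ η : k', aeval θ P = 0 → aeval η Q = 0 →
        sg w (θ - η) = (ee β1 θ + ee β2 θ) * (ee e1 η + ee e2 η) +
          (ee β3 θ + ee β4 θ) * (ee e2 η + ee e3 η)) ∧
      ∀ θ η : k', aeval θ P = 0 → aeval η Q = 0 → sg w (η - θ) = sg w (θ - η) := by
  obtain ⟨w, w1, w2, w3, w4⟩ := h β1 β2 e1 e2 b1 b2 d1 d2 n12 m12
  obtain ⟨v, v1, v2, v3, v4⟩ := h β3 β4 e2 e3 b3 b4 d2 d3 n34 m23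
  have hne : ∀ θ η : k', aeval θ P = 0 → aeval η Q = 0 → θ - η ≠ 0 := by
    intro θ η hθ hη e
    rw [sub_eq_zero] at e
    subst e
    exact cop_ne hco hθ hη
  have u1 : ∀ θ : k', aeval θ P = 0 → (w * v) θ = θ := fun θ hθ => by
    show w (v θ) = θ
    rw [v1 θ hθ, w1 θ hθ]
  have u2 : ∀ θ : k', aeval θ Q = 0 → (w * v) θ = θ := fun θ hθ => by
    show w (v θ) = θ
    rw [v2 θ hθ, w2 θ hθ]
  have u3 : ∀ c : k, c ≠ 0 → sg (w * v) (algebraMap k k' c) = 0 := fun c hc => by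
    rw [sg_mul_l h2 ((_root_.map_ne_zero _).2 hc) (w.commutes c) (v.commutes c), w3 c hc, v3 c hc,
      add_zero]
  refine ⟨w * v, u1, u2, fun θ η hθ hη => ?_, fun θ η hθ hη => ?_⟩
  · rw [sg_mul_l h2 (hne θ η hθ hη) (by rw [map_sub, w1 θ hθ, w2 η hη])
      (by rw [map_sub, v1 θ hθ, v2 η hη]), w4 θ η hθ hη, v4 θ η hθ hη]
  · have h6 := sg_neg h2 u3 (hne θ η hθ hη) (by rw [map_sub, u1 θ hθ, u2 η hη])
    rw [neg_sub] at h6
    exact h6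

end grp

section tow

variable {k k' K F : Type} [Field k] [Field k'] [Algebra k k'] [Field K] [Algebra k[X] K]
    [Field F] [Algebra k'[X] F] [IsFractionRing k'[X] F] [Algebra K F]
    (hT : IsTower k k' K F) {a b : k[X]} (hS : Sd a b)
  (hN : Preserves K F (Sep F)) {H : Subgroup (Sep F ≃ₐ[K] Sep F)} (hH : H.Normal)
  (hfin : H.FiniteIndex)

include hT hS hN hH hfin in
/-- **The parity functions are constant on the blocks.** -/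
theorem kthB {P1 Q1 : k[X]} (hP1 : ∀ θ : k', aeval θ P1 = 0 → aeval θ b = 0)
    (hQ1 : ∀ θ : k', aeval θ Q1 = 0 → aeval θ (a ^ 2 - 4 * b) = 0)
    (hcyc : Cyc k' b P1) (hpure : PureB k' b (a ^ 2 - 4 * b) P1 Q1) (h5 : Five k' P1)
    (h5' : Five k' Q1)
    {c : Cc (Wc K a b) F} (hc : PC k' (Wc K a b) H c) {f : k' → ZMod 2}
    (hf : PF (Wc K a b) (c 1) f) {x₀ y₀ : k'} (hx₀ : aeval x₀ P1 = 0) (hy₀ : aeval y₀ P1 = 0) :
    f x₀ = f y₀ := by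
  haveI := hT.sep
  haveI := hT.fracK
  haveI : IsSepClosed k' := IsSepClosure.sep_closed k
  have h2' : (2 : k') ≠ 0 := two_k' hS.h2
  haveI : NeZero (2 : K) := ⟨tt hS.h2⟩
  obtain ⟨α, γ, hR⟩ := exists_rts hT hS
  obtain ⟨α', γ', hR'⟩ := exists_rts hT hS.dual
  by_contra hne
  have hxy : x₀ ≠ y₀ := fun h => hne (by rw [h])
  have hsum0 : f x₀ + f y₀ = 1 := by
    have : ∀ x y : ZMod 2, x ≠ y → x + y = 1 := by decide
    exact this _ _ hne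
  -- the third root
  obtain ⟨z₀, -, -, hz₀, -, -, -, -, -, nz1, nz2, -, -, -, -⟩ := h5 x₀ y₀
  obtain ⟨s, s1, s2, s3, s4⟩ := hcyc x₀ y₀ z₀ hx₀ hy₀ hz₀ hxy nz1.symm nz2.symm
  obtain ⟨τ0, hτ0⟩ := exists_lift (K := K) (F := F) hT s
  obtain ⟨c1, hc1⟩ : ∃ c1, c1 = TA hN τ0 c - c := ⟨_, rfl⟩
  have hP1c : PC k' (Wc K a b) H c1 := by rw [hc1]; exact pc_diff hT hN hH hc τ0
  obtain ⟨f1, hf1⟩ : ∃ f1 : k' → ZMod 2, f1 = (fun θ => f (s.symm θ)) + f := ⟨_, rfl⟩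
  have hF1 : PF (Wc K a b) (c1 1) f1 := by
    rw [hc1, hf1]
    exact pf_sub hR (pf_TA hN hf hτ0) hf (two_tc (PC.TA hT hN hH hc τ0).tc) (two_tc hc.tc)
  have s1' : s.symm y₀ = x₀ := by rw [AlgEquiv.symm_apply_eq, s1]
  have s2' : s.symm z₀ = y₀ := by rw [AlgEquiv.symm_apply_eq, s2]
  have s3' : s.symm x₀ = z₀ := by rw [AlgEquiv.symm_apply_eq, s3]
  have w1' : f1 y₀ = 1 := by
    rw [hf1]
    show f (s.symm y₀) + f y₀ = 1
    rw [s1', hsum0]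
  have w2' : f1 z₀ = f y₀ + f z₀ := by
    rw [hf1]
    show f (s.symm z₀) + f z₀ = _
    rw [s2']
  have w3' : f1 x₀ = f z₀ + f x₀ := by
    rw [hf1]
    show f (s.symm x₀) + f x₀ = _
    rw [s3']
  have w4' : ∀ θ : k', aeval θ b = 0 → θ ≠ x₀ → θ ≠ y₀ → θ ≠ z₀ → f1 θ = 0 := by
    intro θ hθ n1 n2 n3
    rw [hf1]
    show f (s.symm θ) + f θ = 0
    have : s.symm θ = θ := by rw [AlgEquiv.symm_apply_eq, s4 θ hθ n1 n2 n3]
    rw [this]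
    exact zz _
  -- the two roots
  obtain ⟨β, β', hβ, hβ', hββ, v1, v3⟩ : ∃ β β' : k', aeval β P1 = 0 ∧ aeval β' P1 = 0 ∧ β ≠ β' ∧
      f1 β = 1 ∧ ∀ θ : k', aeval θ b = 0 → θ ≠ β → θ ≠ β' → f1 θ = 0 := by
    have hd : ∀ x y z : ZMod 2, x + y = 1 → (y + z = 0 ∧ z + x = 1) ∨ (y + z = 1 ∧ z + x = 0) := by
      decide
    rcases hd _ _ (f z₀) hsum0 with ⟨g1, g2⟩ | ⟨g1, g2⟩
    · refine ⟨y₀, x₀, hy₀, hx₀, hxy.symm, w1', fun θ hθ n1 n2 => ?_⟩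
      by_cases h : θ = z₀
      · rw [h, w2', g1]
      · exact w4' θ hθ n2 n1 h
    · refine ⟨y₀, z₀, hy₀, hz₀, nz2.symm, w1', fun θ hθ n1 n2 => ?_⟩
      by_cases h : θ = x₀
      · rw [h, w3', g2]
      · exact w4' θ hθ h n1 n2
  -- the roots
  obtain ⟨β1, β3, β4, r1, r3, r4, n13, n14, n34, n1, n1', n3, n3', n4, n4'⟩ := h5 β β'
  obtain ⟨e1, e2, e3, t1, t2, t3, m12, m13, m23, -, -, -, -, -, -⟩ := h5' β β
  obtain ⟨w, w1, w2, w3, w4⟩ := exists_A h2' hS.cop hpure (β1 := β1) (β2 := β) (β3 := β3)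
    (β4 := β4) (e1 := e1) (e2 := e2) (e3 := e3) r1 hβ r3 r4 t1 t2 t3 n1 n34 m12 m23
  have q1' := hP1 _ r1
  have q2' := hP1 _ hβ
  have q3' := hP1 _ r3
  have q4' := hP1 _ r4
  have u1' := hQ1 _ t1
  have u2' := hQ1 _ t2
  have u3' := hQ1 _ t3
  obtain ⟨τ, hτ, hτα, hτα'⟩ := lift_fix hT hS hR hR' w
  have key := fun (c : Cc (Wc K a b) F) (hc : PC k' (Wc K a b) H c) (f : k' → ZMod 2)
    (hf : PF (Wc K a b) (c 1) f) => zlm hT hS hR hR' hN hH hc hτ hτα hτα' w1 w2 hf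
  have hall : ∀ c : Cc (Wc K a b) F, PC k' (Wc K a b) H c →
      ∃ z, PC k' (Wc K a b) H z ∧ TA hN τ (TA hN τ c) - c = z + z := by
    intro c hc
    obtain ⟨f, hf⟩ := pf_exists hR k' (hc.tc.coc 1) (two_tc hc.tc)
    obtain ⟨z, hz, hz', -⟩ := key c hc f hf
    exact ⟨z, hz, hz'⟩
  obtain ⟨z, hz, hze, hzf⟩ := key c1 hP1c f1 hF1
  obtain ⟨g, hg⟩ := pf_exists hR k' (hz.tc.coc 1) (two_tc hz.tc)
  obtain ⟨z', hz', hze', hzf'⟩ := key z hz g hg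
  obtain ⟨g', hg'⟩ := pf_exists hR k' (hz'.tc.coc 1) (two_tc hz'.tc)
  obtain ⟨f', κ, κ', p1, p2⟩ := hzf g hg
  obtain ⟨f'', κ₂, κ₂', q1, q2⟩ := hzf' g' hg'
  have hnul := z_sum hT hN (noFour_Wc hT hS hR) hH hfin hall hP1c hz hz' hze hze'
  obtain ⟨κ₃, h3⟩ := pf_nul hT hS hR (hz.add hz').tc hnul
    (pf_add hR hg hg' (two_tc hz.tc) (two_tc hz'.tc))
  -- the formulas
  have mB : ∀ {θ : k'}, aeval θ b = 0 → θ ∈ RB k' b := fun h => (mem_RB hS.b0).2 h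
  have mD : ∀ {θ : k'}, aeval θ (a ^ 2 - 4 * b) = 0 → θ ∈ RB k' (a ^ 2 - 4 * b) :=
    fun h => (mem_RB hS.d0).2 h
  have formD : ∀ (φ : k' → ZMod 2) (e : k'), aeval e (a ^ 2 - 4 * b) = 0 →
      ∑ η ∈ (RB k' b).filter (fun η => φ η = 1), sg w (e - η) =
        (φ β1 + φ β) * (ee e1 e + ee e2 e) + (φ β3 + φ β4) * (ee e2 e + ee e3 e) := by
    intro φ e he
    rw [sum_filter_one, ← row_sum (mB q1') (mB q2') (mB q3') (mB q4') φ]
    refine Finset.sum_congr rfl fun η hη => ?_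
    rw [mem_RB hS.b0] at hη
    rw [w4 η e hη he, w3 η e hη he]
  have formB : ∀ (φ : k' → ZMod 2) (θ : k'), aeval θ b = 0 →
      ∑ η ∈ (RB k' (a ^ 2 - 4 * b)).filter (fun η => φ η = 1), sg w (θ - η) =
        (φ e1 + φ e2) * (ee β1 θ + ee β θ) + (φ e2 + φ e3) * (ee β3 θ + ee β4 θ) := by
    intro φ θ hθ
    rw [sum_filter_one, ← row_sum (mD u1') (mD u2') (mD u2') (mD u3') φ]
    refine Finset.sum_congr rfl fun η hη => ?_
    rw [mem_RB hS.d0] at hη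
    rw [w3 θ η hθ hη, mul_comm (ee β1 θ + ee β θ), mul_comm (ee β3 θ + ee β4 θ)]
  have x0 := v3 β1 q1' n1 n1'
  have x3 := v3 β3 q3' n3 n3'
  have x4 := v3 β4 q4' n4 n4'
  -- the first step
  have a1 : f' e1 = 1 + κ := by
    rw [p1 e1 u1', formD f1 e1 u1', x0, v1, x3, x4, ee_self, ee_ne m12, ee_ne m13]
    ring
  have a2 : f' e2 = 1 + κ := by
    rw [p1 e2 u2', formD f1 e2 u2', x0, v1, x3, x4, ee_self, ee_ne m12.symm, ee_ne m23]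
    ring
  have a3 : f' e3 = κ := by
    rw [p1 e3 u3', formD f1 e3 u3', x0, v1, x3, x4, ee_self, ee_ne m13.symm, ee_ne m23.symm]
    ring
  have c0 : f' e1 + f' e2 = 0 := by rw [a1, a2]; exact zz _
  have c2 : f' e2 + f' e3 = 1 := by
    rw [a2, a3, add_assoc, zz, add_zero]
  have g1 : g β1 = κ' := by
    rw [p2 β1 q1', formB f' β1 q1', c0, c2, ee_ne n13, ee_ne n14]
    ring
  have g2 : g β = κ' := by
    rw [p2 β q2', formB f' β q2', c0, c2, ee_ne n3.symm, ee_ne n4.symm]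
    ring
  have g3 : g β3 = 1 + κ' := by
    rw [p2 β3 q3', formB f' β3 q3', c0, c2, ee_self, ee_ne n34]
    ring
  have g4 : g β4 = 1 + κ' := by
    rw [p2 β4 q4', formB f' β4 q4', c0, c2, ee_self, ee_ne n34.symm]
    ring
  -- the second step
  have d1 : ∀ e : k', aeval e (a ^ 2 - 4 * b) = 0 → f'' e = κ₂ := by
    intro e he
    rw [q1 e he, formD g e he, g1, g2, g3, g4, zz, zz, zero_mul, zero_mul, zero_add, zero_add]
  have g5 : ∀ θ : k', aeval θ b = 0 → g' θ = κ₂' := by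
    intro θ hθ
    rw [q2 θ hθ, formB f'' θ hθ, d1 e1 u1', d1 e2 u2', d1 e3 u3', zz, zero_mul, zero_mul, zero_add,
      zero_add]
  have y1 := h3 β1 q1'
  have y3 := h3 β3 q3'
  rw [Pi.add_apply, g1, g5 β1 q1'] at y1
  rw [Pi.add_apply, g3, g5 β3 q3'] at y3
  rw [← y1] at y3
  have : ∀ x y : ZMod 2, 1 + x + y ≠ x + y := by decide
  exact this _ _ y3

end tow

end Pool.Agent.K9h16.BT
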