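import Pool.Agent.K9h16.BT.Two

/-!
All the classes and all the sections come from the base.
-/

set_option autoImplicit false
set_option linter.all false

open Polynomial IsDedekindDomain WeierstrassCurve WeierstrassCurve.Affine
open scoped Classical Pointwise

namespace Pool.Agent.K9h16.BT

open Pool.Agent.TH115.GD Pool.Agent.K9h16.PT Pool.Agent.K9h16.QT Pool.Agent.R939.EI
open Pool.Agent.X243.Gen (pb pb_sum pb_mul pb_C pb_one pb_pow pb_lin pb_map pb_frac pb_ne exists_psi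
  root_of_prime form_cop natDegree_pb_le pb_prod FF gen0I)
open Pool.Agent.N181.P3 (hb hb_map hb_sum hb_psi natDegree_hb_le)

section one

variable {k k' K F : Type} [Field k] [Field k'] [Algebra k k'] [Field K] [Algebra k[X] K]
    [Field F] [Algebra k'[X] F] [IsFractionRing k'[X] F] [Algebra K F]
    (hT : IsTower k k' K F) {A B : k[X]} (hS : Sd A B)
  {H : Subgroup (Sep F ≃ₐ[K] Sep F)}

include hT hS in
/-- The sections modulo two. -/
theorem sec_half {S : Set (ℕ → Pt (Wc K A B) (Sep F))}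
    {S' : Set (ℕ → Pt (Wc K (-2 * A) (A ^ 2 - 4 * B)) (Sep F))} (hE : Enough k' K H A B S)
    (hE' : Enough k' K H (-2 * A) (A ^ 2 - 4 * B) S') [NeZero (2 : K)]
    (D2 : Dat (algebraMap k[X] K (-2 * A)) (algebraMap k[X] K (A ^ 2 - 4 * B))
      (algebraMap k[X] K A) (algebraMap k[X] K B) 2) (P : Pt (Wc K A B) F)
    (hP : ∀ τ ∈ H, act (Wc K A B) (ak τ) (act (Wc K A B) (incl K F (Sep F)) P) =
      act (Wc K A B) (incl K F (Sep F)) P) {α γ : Sep F}
    (hR : Roots (algebraMap k[X] K A) (algebraMap k[X] K B) (Sep F) α γ) :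
    ∃ R ∈ S, ∃ R' ∈ S', ∃ V : Pt (Wc K A B) F, ∃ U : Pt (Wc K A B) (Sep F),
      (U = 0 ∨ U = pt0 hR.E) ∧ act (Wc K A B) (incl K F (Sep F)) P =
        R 0 + (isoN D2).f (Sep F) (R' 0) + U + act (Wc K A B) (incl K F (Sep F)) (V + V) := by
  haveI := hT.fracK
  haveI := hT.sep
  obtain ⟨R1, hR0, hKS⟩ := exists_KS (K := K) (F := F) (W := Wc K A B) (H := H) (halve_sep hR.E)
    (P := act (Wc K A B) (incl K F (Sep F)) P) (fun σ => rs_act_incl _ σ _) hP
  obtain ⟨R, hRS, R', hRS', hR1, hR1', z, hz, hn⟩ := half hT hS hE hE' D2 (hKS.pc (k' := k'))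
  obtain ⟨U, hU, e⟩ := hn 1
  have hQ : KS (Wc K A B) H (R + fun n => (isoN D2).f (Sep F) (R' n)) := hR1.add (hR1'.push _)
  obtain ⟨Q, hQd⟩ : ∃ Q, Q = R + fun n => (isoN D2).f (Sep F) (R' n) := ⟨_, rfl⟩
  rw [← hQd] at hQ e
  have hfix : ∀ σ : Sep F ≃ₐ[F] Sep F, act (Wc K A B) (rs K σ) (R1 1 - Q 1 - U) = R1 1 - Q 1 - U := by
    intro σ
    have h1 := e σ
    have h3 : (kap R1 - kap Q - (z + z)) 1 σ = (act (Wc K A B) (rs K σ) (R1 1) - R1 1) -
      (act (Wc K A B) (rs K σ) (Q 1) - Q 1) - (z 1 σ + z 1 σ) := rfl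
    rw [h3, two_tc hz.tc σ, sub_zero] at h1
    rw [map_sub, map_sub, ← sub_eq_zero]
    have h4 : act (Wc K A B) (rs K σ) (R1 1) - act (Wc K A B) (rs K σ) (Q 1) -
        act (Wc K A B) (rs K σ) U - (R1 1 - Q 1 - U) =
        (act (Wc K A B) (rs K σ) (R1 1) - R1 1) - (act (Wc K A B) (rs K σ) (Q 1) - Q 1) -
        (act (Wc K A B) (rs K σ) U - U) := by abel
    rw [h4, h1, sub_self]
  haveI : IsGalois F (Sep F) := inferInstance
  obtain ⟨V, hV⟩ := fixed_point (K := K) (F := F) (Wc K A B) _ hfix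
  have e1 : act (Wc K A B) (incl K F (Sep F)) P =
      Q 0 + (U + U) + act (Wc K A B) (incl K F (Sep F)) (V + V) := by
    rw [map_add, hV, ← hR0, ← hKS.two 0, ← hQ.two 0]
    show R1 1 + R1 1 = Q 1 + Q 1 + (U + U) + (R1 1 - Q 1 - U + (R1 1 - Q 1 - U))
    abel
  have e2 : U + U = act (Wc K A B) (incl K F (Sep F)) P - Q 0 -
      act (Wc K A B) (incl K F (Sep F)) (V + V) := by
    rw [e1]
    abel
  have hUU : ∀ σ : Sep F ≃ₐ[F] Sep F, act (Wc K A B) (rs K σ) (U + U) = U + U := by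
    intro σ
    rw [e2, map_sub, map_sub, rs_act_incl, rs_act_incl, hQ.fixF]
  have h5 := tors_Wc hT hS hR (X := U + U) (m := 1) hUU (by
    rw [pow_one, ← hU]
    have : (2 : ℕ) ^ (1 + 1) = 4 := by norm_num
    rw [this]
    abel)
  refine ⟨R, hRS, R', hRS', V, U + U, h5, ?_⟩
  rw [e1, hQd]
  rfl

end one

section main

variable {k k' K F : Type} [Field k] [Field k'] [Algebra k k'] [Field K] [Algebra k[X] K]
    [Field F] [Algebra k'[X] F] [IsFractionRing k'[X] F] [Algebra K F]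
    (hT : IsTower k k' K F) {n : ℕ} {q r a b : k[X]} (hB : BC n q r a b)
    {F₀ : Type} [Field F₀] [Algebra k'[X] F₀] [IsFractionRing k'[X] F₀] [Algebra F₀ F]
    (hψ : IsPsi F₀ F (q.map (algebraMap k k')) (r.map (algebraMap k k')))

include hB in
theorem BC.dat0 {φ : k →+* k'} : Dat (algebraMap k'[X] F₀ ((-2 * a).map φ))
    (algebraMap k'[X] F₀ ((a ^ 2 - 4 * b).map φ)) (algebraMap k'[X] F₀ (a.map φ))
    (algebraMap k'[X] F₀ (b.map φ)) 2 := by
  have inj := IsFractionRing.injective k'[X] F₀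
  have inj' := φ.injective
  have h2 : (2 : k') ≠ 0 := by
    rw [← map_ofNat φ 2]
    exact (_root_.map_ne_zero _).2 hB.h2
  have e1 : algebraMap k'[X] F₀ ((-2 * a).map φ) = -2 * algebraMap k'[X] F₀ (a.map φ) := by
    rw [Polynomial.map_mul, Polynomial.map_neg, Polynomial.map_ofNat, map_mul, map_neg, map_ofNat]
  have e2 : algebraMap k'[X] F₀ ((a ^ 2 - 4 * b).map φ) = algebraMap k'[X] F₀ (a.map φ) ^ 2 -
      4 * algebraMap k'[X] F₀ (b.map φ) := by
    rw [Polynomial.map_sub, Polynomial.map_mul, Polynomial.map_pow, Polynomial.map_ofNat,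
      map_sub, map_mul, map_pow, map_ofNat]
  refine ⟨?_, ?_, tt h2, ?_, ?_⟩
  · rw [Ne, map_eq_zero_iff _ inj, Polynomial.map_eq_zero_iff inj']
    exact hB.sd.ne_zero
  · rw [Ne, map_eq_zero_iff _ inj, Polynomial.map_eq_zero_iff inj']
    exact hB.sb.ne_zero
  · rw [e1]
    ring
  · rw [e1, e2]
    ring

include hT hB hψ in
/-- **All the classes and the sections come from the base.** -/
theorem cmb : ∃ S₀ : Finset k', ∀ H : Subgroup (Sep F ≃ₐ[K] Sep F), H.Normal → H.FiniteIndex →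
    H ≤ HM k' K F (S₀ : Set k') →
    (∀ c : Cc (Wc K (hb q r 2 a) (hb q r 4 b)) F, PC k' (Wc K (hb q r 2 a) (hb q r 4 b)) H c →
      ∀ n : ℕ, ∃ (X R : Pt (Wc K (hb q r 2 a) (hb q r 4 b)) (Sep F)), 2 ^ n • R = X ∧
        (∀ τ ∈ H, act (Wc K (hb q r 2 a) (hb q r 4 b)) (ak τ) X = X) ∧
        ∀ σ, c n σ = act (Wc K (hb q r 2 a) (hb q r 4 b)) (rs K σ) R - R) ∧
    ∀ P : Pt (Wc K (hb q r 2 a) (hb q r 4 b)) F,
      (∀ τ ∈ H, act (Wc K (hb q r 2 a) (hb q r 4 b)) (ak τ)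
        (act (Wc K (hb q r 2 a) (hb q r 4 b)) (incl K F (Sep F)) P) =
          act (Wc K (hb q r 2 a) (hb q r 4 b)) (incl K F (Sep F)) P) →
      ∃ (P₀ : Pt (crvT (algebraMap k'[X] F₀ (a.map (algebraMap k k')))
        (algebraMap k'[X] F₀ (b.map (algebraMap k k')))) F₀)
        (V : Pt (Wc K (hb q r 2 a) (hb q r 4 b)) F),
        P = pull (hB.sid.tr hT hψ) P₀ + (V + V) := by
  haveI := hT.sep
  haveI := hT.fracK
  have hKF := hT.map
  have hN : Preserves K F (Sep F) := preserves hKF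
  haveI : NeZero (2 : K) := ⟨tt hB.h2⟩
  have h2' : (2 : k') ≠ 0 := two_k' hB.h2
  haveI : NeZero (2 : F₀) := ⟨tt h2'⟩
  obtain ⟨S1, hS1⟩ := enough_side hT hB.sid hψ (hB.sid.tr hT hψ)
  obtain ⟨S2, hS2⟩ := enough_side hT hB.sid' hψ (hB.sid'.tr hT hψ)
  refine ⟨S1 ∪ S2, fun H hH hfin hle => ?_⟩
  have hE := hS1 H (fun τ hτ x hx => hle hτ x (by
    rw [Finset.mem_coe] at hx ⊢
    exact Finset.mem_union_left _ hx)) (fun c hc f hf => hB.blk hT hN hH hfin c hc f hf)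
  have hE' := hS2 H (fun τ hτ x hx => hle hτ x (by
    rw [Finset.mem_coe] at hx ⊢
    exact Finset.mem_union_right _ hx)) (fun c hc f hf => hB.blk' hT hN hH hfin c hc f hf)
  refine ⟨fun c hc n => all_pts hT hB.Sd hE hE' hc n, fun P hP => ?_⟩
  obtain ⟨α, γ, hR⟩ := exists_rts hT hB.Sd
  have D2 := dat2 (K := K) hB.Sd
  obtain ⟨R, ⟨P1, hP1⟩, R', ⟨P2, hP2⟩, V, U, hU, e⟩ := sec_half hT hB.Sd hE hE' D2 P hP hR
  have D0 := hB.dat0 (F₀ := F₀) (φ := algebraMap k k')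
  -- the second point
  have e2 : (isoN D2).f (Sep F) (R' 0) = act (Wc K (hb q r 2 a) (hb q r 4 b)) (incl K F (Sep F))
      (pull (hB.sid.tr hT hψ) (isoH F₀ D0 P2)) := by
    rw [hP2]
    have h1 : (isoN D2).f (Sep F) (act (Wc K (-2 * hb q r 2 a) (hb q r 2 a ^ 2 - 4 * hb q r 4 b))
        (incl K F (Sep F)) (pull (hB.sid'.tr hT hψ) P2)) =
        act (Wc K (hb q r 2 a) (hb q r 4 b)) (incl K F (Sep F))
          (isoH F D2 (pull (hB.sid'.tr hT hψ) P2)) :=
      (isoH_act F D2 (incl K F (Sep F)) _).symm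
    rw [h1]
    congr 1
    show isoH F D2 (PhiT (hB.sid'.tr hT hψ) F (act _ (incl F₀ F₀ F) P2)) =
      PhiT (hB.sid.tr hT hψ) F (act _ (incl F₀ F₀ F) (isoH F₀ D0 P2))
    rw [iso_PhiT (hB.sid'.tr hT hψ) (hB.sid.tr hT hψ) D0 D2 (by rw [map_ofNat, map_ofNat]) F]
    congr 1
    exact (isoH_act F₀ D0 (incl F₀ F₀ F) P2).symm
  -- the point of order two
  obtain ⟨T₀, hT₀⟩ : ∃ T₀ : Pt (crvT (algebraMap k'[X] F₀ (a.map (algebraMap k k')))
        (algebraMap k'[X] F₀ (b.map (algebraMap k k')))) F₀,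
      U = act (Wc K (hb q r 2 a) (hb q r 4 b)) (incl K F (Sep F)) (pull (hB.sid.tr hT hψ) T₀) := by
    rcases hU with h | h
    · exact ⟨0, by rw [h, map_zero, map_zero]⟩
    · have inj := IsFractionRing.injective k'[X] F₀
      have hn : ((crvT (algebraMap k'[X] F₀ (a.map (algebraMap k k')))
        (algebraMap k'[X] F₀ (b.map (algebraMap k k')))).baseChange F₀).toAffine.Nonsingular 0 0 := by
        refine Pool.Agent.X243.Tate.nonsT (tt h2') D0.hb' ?_ (by ring)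
        have h3 := D0.hb
        have h4 : algebraMap k'[X] F₀ ((a ^ 2 - 4 * b).map (algebraMap k k')) =
            algebraMap k'[X] F₀ (a.map (algebraMap k k')) ^ 2 -
            4 * algebraMap k'[X] F₀ (b.map (algebraMap k k')) := by
          rw [Polynomial.map_sub, Polynomial.map_mul, Polynomial.map_pow, Polynomial.map_ofNat,
            map_sub, map_mul, map_pow, map_ofNat]
        rwa [h4] at h3
      refine ⟨Point.some 0 0 hn, ?_⟩
      obtain ⟨hn1, e1⟩ := act_some (crvT (algebraMap k'[X] F₀ (a.map (algebraMap k k')))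
        (algebraMap k'[X] F₀ (b.map (algebraMap k k')))) (incl F₀ F₀ F) hn
      obtain ⟨hn2, e3⟩ := PhiT_some (hB.sid.tr hT hψ) F hn1
      have e4 : pull (hB.sid.tr hT hψ) (Point.some 0 0 hn) = Point.some _ _ hn2 := by
        rw [← e3, ← e1]
        rfl
      rw [e4]
      obtain ⟨hn3, e5⟩ := act_some (Wc K (hb q r 2 a) (hb q r 4 b)) (incl K F (Sep F)) hn2
      rw [e5, h]
      apply Pool.Agent.K9h16.PT.some_congr
      · simp
      · simp
  refine ⟨P1 + isoH F₀ D0 P2 + T₀, V, ?_⟩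
  apply Pool.Agent.TH115.GD.act_inj (Wc K (hb q r 2 a) (hb q r 4 b)) (incl K F (Sep F))
  rw [e, e2, hP1, hT₀, map_add (pull _), map_add (pull _), map_add (act _ _) (_ + _) (V + V),
    map_add (act _ _) (_ + _) (pull _ T₀), map_add (act _ _) (pull _ P1)]

end main

end Pool.Agent.K9h16.BT
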