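import Pool.Agent.K9h16.BT.Pur
import Pool.Agent.K9h16.QT.FinT
import Pool.Agent.N181.P9.Main
import Pool.Agent.X243.Gen.RkTwo

/-!
The blocks of the roots for the pullbacks by `q / r`.
-/

set_option autoImplicit false
set_option linter.all false

open Polynomial
open scoped Classical

namespace Pool.Agent.K9h16.BT

open Pool.Agent.K9h16.PT Pool.Agent.K9h16.QT
open Pool.Agent.X243.Gen (pb pb_sum pb_mul pb_C pb_one pb_pow pb_lin pb_map pb_frac pb_ne exists_psi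
  root_of_prime form_cop natDegree_pb_le pt_pullT FF FF_unit FullG pb_prod)

/-- The form of the place `ξ`. -/
noncomputable def fm {k : Type} [Field k] (q r : k[X]) (ξ : k) : k[X] := q - C ξ * r

section pb

variable {k : Type} [Field k] {q r : k[X]}

theorem fm_cop (hco : IsCoprime q r) {ξ ξ' : k} (hne : ξ ≠ ξ') : IsCoprime (fm q r ξ) (fm q r ξ') := by
  obtain ⟨u, v, huv⟩ := hco
  have h : ξ' - ξ ≠ 0 := sub_ne_zero.2 hne.symm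
  have e : (C (ξ' - ξ)⁻¹ : k[X]) * C (ξ' - ξ) = 1 := by
    rw [← C_mul, inv_mul_cancel₀ h, C_1]
  rw [C_sub] at e
  refine ⟨u + (u * C ξ + v) * C (ξ' - ξ)⁻¹, -((u * C ξ + v) * C (ξ' - ξ)⁻¹), ?_⟩
  unfold fm
  linear_combination huv + (u * C ξ + v) * r * e

theorem pb_fac {g : k[X]} (hs : g.Splits) (hsep : g.Separable) :
    pb q r g = C g.leadingCoeff * ∏ ξ ∈ g.roots.toFinset, fm q r ξ := by
  have e := hs.eq_prod_roots
  conv_lhs => rw [e]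
  rw [pb_mul, pb_C, pb_prod]
  congr 1
  rw [Finset.prod_multiset_map_count]
  refine Finset.prod_congr rfl fun ξ hξ => ?_
  rw [Multiset.count_eq_one_of_mem (nodup_roots hsep) (Multiset.mem_toFinset.1 hξ), pow_one]
  rfl

theorem pb_sep (hco : IsCoprime q r) {g : k[X]} (hs : g.Splits) (hsep : g.Separable)
    (hf : ∀ ξ, g.IsRoot ξ → (fm q r ξ).Separable) : (pb q r g).Separable := by
  rw [pb_fac hs hsep]
  refine Separable.unit_mul (isUnit_C.2 (isUnit_iff_ne_zero.2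
    (leadingCoeff_ne_zero.2 hsep.ne_zero))) ?_
  refine Polynomial.separable_prod' (fun x _ y _ hxy => fm_cop hco hxy) (fun x hx => hf x ?_)
  exact (mem_roots hsep.ne_zero).1 (Multiset.mem_toFinset.1 hx)

theorem pb_cop (hco : IsCoprime q r) {g h : k[X]} (hs : g.Splits) (hsep : g.Separable)
    (hs' : h.Splits) (hsep' : h.Separable) (hgh : IsCoprime g h) :
    IsCoprime (pb q r g) (pb q r h) := by
  rw [pb_fac hs hsep, pb_fac hs' hsep']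
  have hu : ∀ {g : k[X]}, g.Separable → IsUnit (C g.leadingCoeff) := fun hg =>
    isUnit_C.2 (isUnit_iff_ne_zero.2 (leadingCoeff_ne_zero.2 hg.ne_zero))
  refine (isCoprime_mul_unit_left_left (hu hsep) _ _).2
    ((isCoprime_mul_unit_left_right (hu hsep') _ _).2 ?_)
  refine IsCoprime.prod_left fun x hx => IsCoprime.prod_right fun y hy => fm_cop hco ?_
  rintro rfl
  have h1 := (mem_roots hsep.ne_zero).1 (Multiset.mem_toFinset.1 hx)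
  have h2 := (mem_roots hsep'.ne_zero).1 (Multiset.mem_toFinset.1 hy)
  obtain ⟨u, v, huv⟩ := hgh
  have := congrArg (eval x) huv
  rw [eval_add, eval_mul, eval_mul, IsRoot.def.1 h1, IsRoot.def.1 h2, mul_zero, mul_zero, add_zero,
    eval_one] at this
  exact zero_ne_one this

theorem pb_root {Ω : Type} [Field Ω] [Algebra k Ω] {g : k[X]} (hs : g.Splits) (hsep : g.Separable)
    {θ : Ω} : aeval θ (pb q r g) = 0 ↔ ∃ ξ, g.IsRoot ξ ∧ aeval θ (fm q r ξ) = 0 := by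
  have hl : algebraMap k Ω g.leadingCoeff ≠ 0 :=
    (_root_.map_ne_zero _).2 (leadingCoeff_ne_zero.2 hsep.ne_zero)
  rw [pb_fac hs hsep, map_mul, aeval_C, mul_eq_zero, map_prod, Finset.prod_eq_zero_iff]
  constructor
  · rintro (h | ⟨ξ, h1, h2⟩)
    · exact absurd h hl
    · exact ⟨ξ, (mem_roots hsep.ne_zero).1 (Multiset.mem_toFinset.1 h1), h2⟩
  · rintro ⟨ξ, h1, h2⟩
    exact Or.inr ⟨ξ, Multiset.mem_toFinset.2 ((mem_roots hsep.ne_zero).2 h1), h2⟩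

theorem pb_deg {n : ℕ} {g : k[X]} (hs : g.Splits) (hsep : g.Separable)
    (hf : ∀ ξ, g.IsRoot ξ → (fm q r ξ).natDegree = n) (hn : 0 < n) :
    (pb q r g).natDegree = g.natDegree * n := by
  rw [pb_fac hs hsep, natDegree_C_mul (leadingCoeff_ne_zero.2 hsep.ne_zero), natDegree_prod]
  · have h1 : ∀ ξ ∈ g.roots.toFinset, (fm q r ξ).natDegree = n := fun ξ hξ => hf ξ
      ((mem_roots hsep.ne_zero).1 (Multiset.mem_toFinset.1 hξ))
    rw [Finset.sum_congr rfl h1, Finset.sum_const, smul_eq_mul,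
      Multiset.toFinset_card_of_nodup (nodup_roots hsep), hs.natDegree_eq_card_roots]
  · intro ξ hξ h
    have h1 := hf ξ ((mem_roots hsep.ne_zero).1 (Multiset.mem_toFinset.1 hξ))
    rw [h, natDegree_zero] at h1
    omega

end pb

section grp

variable {k : Type} [Field k]

/-- `PairG` up to constants. -/
def PairU (P Q : k[X]) : Prop := ∃ u v : k, u ≠ 0 ∧ v ≠ 0 ∧ PairG (C u * P) (C v * Q)

/-- `MinG` up to constants. -/
def MinU (P Q : k[X]) : Prop := ∃ u v : k, u ≠ 0 ∧ v ≠ 0 ∧ MinG (C u * P) (C v * Q)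

theorem aeval_unit {Ω : Type} [Field Ω] [Algebra k Ω] {u : k} (hu : u ≠ 0) (P : k[X]) (θ : Ω) :
    aeval θ (C u * P) = 0 ↔ aeval θ P = 0 := by
  rw [map_mul, aeval_C, mul_eq_zero]
  exact ⟨fun h => h.resolve_left ((_root_.map_ne_zero _).2 hu), Or.inr⟩

theorem FF_mul {n : ℕ} {d : k} (hd : d ≠ 0) {f : k[X]} (h : FF n f) : FF n (C d * f) := by
  apply FF_unit (inv_ne_zero hd)
  rw [← mul_assoc, ← C_mul, inv_mul_cancel₀ hd, C_1, one_mul]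
  exact h

variable {Ω : Type} [Field Ω] [Algebra k Ω]

theorem swF_congr {P Q P' Q' : k[X]} (hP : ∀ θ : Ω, aeval θ P' = 0 ↔ aeval θ P = 0)
    (hQ : ∀ θ : Ω, aeval θ Q' = 0 ↔ aeval θ Q = 0) (h : SwF Ω P Q) : SwF Ω P' Q' := by
  intro β β' h1 h3 hne
  obtain ⟨s, s1, s2, s3, s4⟩ := h β β' ((hP _).1 h1) ((hP _).1 h3) hne
  exact ⟨s, s1, s2, fun θ hθ => s3 θ ((hP _).1 hθ), fun θ hθ => s4 θ ((hQ _).1 hθ)⟩

theorem minF_congr {P Q P' Q' : k[X]} (hP : ∀ θ : Ω, aeval θ P' = 0 ↔ aeval θ P = 0)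
    (hQ : ∀ θ : Ω, aeval θ Q' = 0 ↔ aeval θ Q = 0) (h : MinF Ω P Q) : MinF Ω P' Q' := by
  obtain ⟨s, p, q, y, y', h1, h2, h3, h4, h5, h6, h7⟩ := h
  exact ⟨s, p, q, y, y', (hP _).2 h1, (hP _).2 h2, (hQ _).2 h3, (hQ _).2 h4,
    fun θ hθ => h5 θ ((hP _).1 hθ), fun θ hθ => h6 θ ((hQ _).1 hθ), h7⟩

theorem swF_U [IsSepClosure k Ω] {n : ℕ} {P Q : k[X]} (hP : FF n P) (hQ : FF n Q)
    (h : PairU Q P) : SwF Ω P Q := by
  obtain ⟨u, v, hu, hv, h⟩ := h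
  exact swF_congr (fun θ => (aeval_unit hv P θ).symm) (fun θ => (aeval_unit hu Q θ).symm)
    (swF_of (FF_mul hv hP).2.1 (FF_mul hu hQ).2.1 (FF_mul hv hP).2.2 h)

theorem minF_U [IsSepClosure k Ω] (h2 : (2 : Ω) ≠ 0) {n : ℕ} {P Q : k[X]} (hP : FF n P)
    (hQ : FF n Q) (hco : IsCoprime P Q) (h : MinU P Q) : MinF Ω P Q := by
  haveI : IsSepClosed Ω := IsSepClosure.sep_closed k
  obtain ⟨u, v, hu, hv, h⟩ := h
  obtain ⟨s, p, q, y, y', s1, s3, s4⟩ := min_acts (Ω := Ω) h2 (FF_mul hu hP).2.1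
    (FF_mul hv hQ).2.1 (fun θ η hθ hη e => by
      rw [sub_eq_zero] at e
      subst e
      exact cop_ne hco ((aeval_unit hu P _).1 hθ) ((aeval_unit hv Q _).1 hη)) h
  exact ⟨s, p, q, y, y', (aeval_unit hu P _).1 (rs_root p), (aeval_unit hu P _).1 (rs_root q),
    (aeval_unit hv Q _).1 (rs_root y), (aeval_unit hv Q _).1 (rs_root y'),
    fun θ hθ => s1 θ ((aeval_unit hu P _).2 hθ), fun θ hθ => s3 θ ((aeval_unit hv Q _).2 hθ), s4⟩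

end grp

/-- The conditions on the base `(a, b)` and the covering `q / r`. -/
structure BC {k : Type} [Field k] (n : ℕ) (q r a b : k[X]) : Prop where
  h2 : (2 : k) ≠ 0
  da : a.natDegree ≤ 2
  db : b.natDegree = 4
  dd : (a ^ 2 - 4 * b).natDegree = 4
  sb : b.Separable
  sd : (a ^ 2 - 4 * b).Separable
  bd : IsCoprime b (a ^ 2 - 4 * b)
  tb : b.Splits
  td : (a ^ 2 - 4 * b).Splits
  cop : IsCoprime q r
  dq : q.natDegree = n
  dr : r.natDegree ≤ n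
  n5 : 5 ≤ n
  odd : ¬ 2 ∣ n
  ff : ∀ ξ, b.IsRoot ξ ∨ (a ^ 2 - 4 * b).IsRoot ξ → FF n (fm q r ξ)
  pr : ∀ ξ ξ', b.IsRoot ξ ∨ (a ^ 2 - 4 * b).IsRoot ξ → b.IsRoot ξ' ∨ (a ^ 2 - 4 * b).IsRoot ξ' →
    ξ ≠ ξ' → PairU (fm q r ξ) (fm q r ξ')
  mn : ∀ ξ η, b.IsRoot ξ → (a ^ 2 - 4 * b).IsRoot η → MinU (fm q r ξ) (fm q r η)

section main

open Pool.Agent.N181.P3 (hb hb_map hb_sum hb_psi)

variable {k : Type} [Field k] {n : ℕ} {q r a b : k[X]} (hB : BC n q r a b)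

include hB

theorem BC.ne_of {ξ η : k} (h1 : b.IsRoot ξ) (h2 : (a ^ 2 - 4 * b).IsRoot η) : ξ ≠ η := by
  rintro rfl
  obtain ⟨u, v, huv⟩ := hB.bd
  have := congrArg (eval ξ) huv
  rw [eval_add, eval_mul, eval_mul, IsRoot.def.1 h1, IsRoot.def.1 h2, mul_zero, mul_zero, add_zero,
    eval_one] at this
  exact zero_ne_one this

theorem BC.hbb : hb q r 4 b = pb q r b := by
  rw [hb, hB.db, Nat.sub_self, pow_zero, one_mul]

theorem BC.hbd : hb q r 4 (a ^ 2 - 4 * b) = pb q r (a ^ 2 - 4 * b) := by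
  rw [hb, hB.dd, Nat.sub_self, pow_zero, one_mul]

theorem BC.r0 : r ≠ 0 := by
  rintro rfl
  have h := hB.cop
  rw [isCoprime_zero_right] at h
  have h1 := natDegree_eq_zero_of_isUnit h
  have h2 := hB.dq
  have h3 := hB.n5
  omega

/-- The discriminant of the pullback. -/
theorem BC.disc : hb q r 2 a ^ 2 - 4 * hb q r 4 b = pb q r (a ^ 2 - 4 * b) := by
  have hq : 0 < q.natDegree := by
    have h2 := hB.dq
    have h3 := hB.n5
    omega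
  obtain ⟨ψ, hψ⟩ := exists_psi (K₀ := FractionRing k[X]) (K := FractionRing k[X]) (RingHom.id k)
    (q := q) hB.r0 (fun g hg => pb_ne hB.cop hq (by rw [Polynomial.map_id]; exact hg))
  have h1 := hb_psi (RingHom.id k) hψ hB.da
  have h2 := hb_psi (RingHom.id k) hψ hB.db.le
  have h3 := hb_psi (RingHom.id k) hψ hB.dd.le
  rw [Polynomial.map_id] at h1 h2 h3
  rw [← hB.hbd]
  apply IsFractionRing.injective k[X] (FractionRing k[X])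
  rw [map_sub, map_mul, map_pow, map_ofNat, h1, h2, h3, map_sub, map_mul, map_pow, map_ofNat,
    map_sub, map_mul, map_pow, map_ofNat]
  ring

theorem BC.Sd : Sd (hb q r 2 a) (hb q r 4 b) := by
  have n5 := hB.n5
  refine ⟨hB.h2, ?_, ?_, ?_, ?_, ?_⟩
  · rw [hB.hbb]
    exact pb_sep hB.cop hB.tb hB.sb (fun ξ h => (hB.ff ξ (Or.inl h)).2.1)
  · rw [hB.disc]
    exact pb_sep hB.cop hB.td hB.sd (fun ξ h => (hB.ff ξ (Or.inr h)).2.1)
  · rw [hB.disc, hB.hbb]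
    exact pb_cop hB.cop hB.tb hB.sb hB.td hB.sd hB.bd
  · rw [hB.hbb, pb_deg hB.tb hB.sb (fun ξ h => (hB.ff ξ (Or.inl h)).1.2) (by omega), hB.db]
    omega
  · rw [hB.disc, pb_deg hB.td hB.sd (fun ξ h => (hB.ff ξ (Or.inr h)).1.2) (by omega), hB.dd]
    omega

variable {Ω : Type} [Field Ω] [Algebra k Ω] [IsSepClosure k Ω]

theorem BC.root_b {θ : Ω} : aeval θ (hb q r 4 b) = 0 ↔ ∃ ξ, b.IsRoot ξ ∧ aeval θ (fm q r ξ) = 0 := by
  rw [hB.hbb]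
  exact pb_root hB.tb hB.sb

theorem BC.root_d {θ : Ω} : aeval θ (hb q r 2 a ^ 2 - 4 * hb q r 4 b) = 0 ↔
    ∃ ξ, (a ^ 2 - 4 * b).IsRoot ξ ∧ aeval θ (fm q r ξ) = 0 := by
  rw [hB.disc]
  exact pb_root hB.td hB.sd

variable (Ω) in
theorem BC.five {ξ : k} (h : b.IsRoot ξ ∨ (a ^ 2 - 4 * b).IsRoot ξ) : Five Ω (fm q r ξ) :=
  five_of (hB.ff ξ h).2.1 (by rw [(hB.ff ξ h).1.2]; exact hB.n5)

variable (Ω) in
/-- The cycles. -/
theorem BC.cyc' {ξ : k} (h : b.IsRoot ξ ∨ (a ^ 2 - 4 * b).IsRoot ξ) :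
    ∀ x y z : Ω, aeval x (fm q r ξ) = 0 → aeval y (fm q r ξ) = 0 → aeval z (fm q r ξ) = 0 →
      x ≠ y → x ≠ z → y ≠ z →
      ∃ s : Ω ≃ₐ[k] Ω, s x = y ∧ s y = z ∧ s z = x ∧
        (∀ θ : Ω, aeval θ (fm q r ξ) = 0 → θ ≠ x → θ ≠ y → θ ≠ z → s θ = θ) ∧
        ∀ ξ', (b.IsRoot ξ' ∨ (a ^ 2 - 4 * b).IsRoot ξ') → ξ' ≠ ξ →
          ∀ θ : Ω, aeval θ (fm q r ξ') = 0 → s θ = θ := by
  haveI : IsSepClosed Ω := IsSepClosure.sep_closed k
  obtain ⟨J, hJ⟩ : ∃ J : List k, J = ((b * (a ^ 2 - 4 * b)).roots.toFinset.filter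
    (fun ξ' => ξ' ≠ ξ)).toList := ⟨_, rfl⟩
  have h0 : b * (a ^ 2 - 4 * b) ≠ 0 := mul_ne_zero hB.sb.ne_zero hB.sd.ne_zero
  have hmem : ∀ ξ', ξ' ∈ J ↔ ((b.IsRoot ξ' ∨ (a ^ 2 - 4 * b).IsRoot ξ') ∧ ξ' ≠ ξ) := by
    intro ξ'
    rw [hJ, Finset.mem_toList, Finset.mem_filter, Multiset.mem_toFinset, mem_roots h0,
      IsRoot.def, eval_mul, mul_eq_zero, IsRoot.def, IsRoot.def]
  have hff := hB.ff ξ h
  obtain ⟨ξ₁, hξ₁, hne₁⟩ : ∃ ξ₁, (b.IsRoot ξ₁ ∨ (a ^ 2 - 4 * b).IsRoot ξ₁) ∧ ξ₁ ≠ ξ := by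
    have key : ∀ g : k[X], g.Splits → g.natDegree = 4 → ∃ ξ₁, g.IsRoot ξ₁ := by
      intro g hg hd
      obtain ⟨x, hx⟩ := hg.exists_eval_eq_zero (by
        intro h
        have h5 : g.natDegree = 0 := natDegree_eq_of_degree_eq_some h
        omega)
      exact ⟨x, hx⟩
    rcases h with h | h
    · obtain ⟨x, hx⟩ := key _ hB.td hB.dd
      exact ⟨x, Or.inr hx, (hB.ne_of h hx).symm⟩
    · obtain ⟨x, hx⟩ := key _ hB.tb hB.db
      exact ⟨x, Or.inl hx, hB.ne_of hx h⟩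
  have hsw : SwG Ω (fm q r ξ) := (swF_U hff (hB.ff ξ₁ hξ₁) (hB.pr ξ₁ ξ hξ₁ h hne₁)).swG
  have hcyc := cyc_list hsw (hB.five Ω h) (J.map (fm q r)) (by
    intro Q hQ
    obtain ⟨ξ', hξ', rfl⟩ := List.mem_map.1 hQ
    obtain ⟨h1, h3⟩ := (hmem ξ').1 hξ'
    exact swF_U hff (hB.ff ξ' h1) (hB.pr ξ' ξ h1 h h3))
  intro x y z hx hy hz n1 n2 n3
  obtain ⟨s, s1, s2, s3, s4, s5⟩ := hcyc x y z hx hy hz n1 n2 n3
  exact ⟨s, s1, s2, s3, s4, fun ξ' h1 h3 θ hθ =>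
    s5 _ (List.mem_map.2 ⟨ξ', (hmem ξ').2 ⟨h1, h3⟩, rfl⟩) θ hθ⟩

variable (Ω) in
theorem BC.cycB {ξ : k} (h : b.IsRoot ξ) :
    CycF Ω (hb q r 4 b) (hb q r 2 a ^ 2 - 4 * hb q r 4 b) (fm q r ξ) := by
  intro x y z hx hy hz n1 n2 n3
  obtain ⟨s, s1, s2, s3, s4, s5⟩ := hB.cyc' Ω (Or.inl h) x y z hx hy hz n1 n2 n3
  refine ⟨s, s1, s2, s3, fun θ hθ m1 m2 m3 => ?_, fun θ hθ => ?_⟩
  · obtain ⟨ξ', h1, h3⟩ := hB.root_b.1 hθ
    by_cases he : ξ' = ξ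
    · rw [he] at h3
      exact s4 θ h3 m1 m2 m3
    · exact s5 ξ' (Or.inl h1) he θ h3
  · obtain ⟨ξ', h1, h3⟩ := hB.root_d.1 hθ
    exact s5 ξ' (Or.inr h1) (hB.ne_of h h1).symm θ h3

variable (Ω) in
theorem BC.cycD {ξ : k} (h : (a ^ 2 - 4 * b).IsRoot ξ) :
    CycF Ω (hb q r 2 a ^ 2 - 4 * hb q r 4 b) (hb q r 4 b) (fm q r ξ) := by
  intro x y z hx hy hz n1 n2 n3
  obtain ⟨s, s1, s2, s3, s4, s5⟩ := hB.cyc' Ω (Or.inr h) x y z hx hy hz n1 n2 n3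
  refine ⟨s, s1, s2, s3, fun θ hθ m1 m2 m3 => ?_, fun θ hθ => ?_⟩
  · obtain ⟨ξ', h1, h3⟩ := hB.root_d.1 hθ
    by_cases he : ξ' = ξ
    · rw [he] at h3
      exact s4 θ h3 m1 m2 m3
    · exact s5 ξ' (Or.inr h1) he θ h3
  · obtain ⟨ξ', h1, h3⟩ := hB.root_b.1 hθ
    exact s5 ξ' (Or.inl h1) (hB.ne_of h1 h) θ h3

variable (Ω) in
theorem BC.pure {ξ η : k} (h : b.IsRoot ξ) (h' : (a ^ 2 - 4 * b).IsRoot η) :
    PureB Ω (hb q r 4 b) (hb q r 2 a ^ 2 - 4 * hb q r 4 b) (fm q r ξ) (fm q r η) := by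
  haveI : IsSepClosed Ω := IsSepClosure.sep_closed k
  have h2 : (2 : Ω) ≠ 0 := two_k' hB.h2
  have hco := fm_cop hB.cop (hB.ne_of h h')
  exact pureB_of h2 hB.Sd.cop (fun θ hθ => hB.root_b.2 ⟨ξ, h, hθ⟩)
    (fun θ hθ => hB.root_d.2 ⟨η, h', hθ⟩) hco (hB.cycB Ω h) (hB.cycD Ω h')
    (hB.five Ω (Or.inl h)) (hB.five Ω (Or.inr h'))
    (minF_U h2 (hB.ff ξ (Or.inl h)) (hB.ff η (Or.inr h')) hco (hB.mn ξ η h h'))

end main

end Pool.Agent.K9h16.BT
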