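import Pool.Agent.N181.P9.Over

/-!
Complete first descents for the rational elliptic surfaces over a separably closed field.
-/

set_option autoImplicit false
set_option linter.all false

open Polynomial
open scoped Classical

namespace Pool.Agent.K9h16.BT

open Pool.Agent.N181.P9

section one

variable {N : Type} [Field N] [IsSepClosed N]

theorem rep_sc (h2 : (2 : N) ≠ 0) {a b : N[X]} (da : a.natDegree ≤ 2) {p : N[X] × N[X]}
    (hp : Dec b p) : RepPoly a p := by
  obtain ⟨-, du, dv, hu, hv⟩ := hp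
  have hG := quart_deg (a := a) (u := p.1) (v := p.2) hu
  obtain ⟨c, hx⟩ := quartic_root (N := N) h2 hG
  have hev : eval₂ (RingHom.id N) c (quart a p.1 p.2) = 0 := hx
  have hdisc := quart_eval (RingHom.id N) hev
  have hc0 := quart_zero (RingHom.id N) hev hv
  rw [Polynomial.map_id, Polynomial.map_id, Polynomial.map_id] at hdisc
  set Q : N[X] := C (c ^ 2) * p.1 + C c * a + p.2 with hQ
  have hQd : Q.natDegree ≤ 2 := by
    refine (natDegree_add_le _ _).trans (max_le ((natDegree_add_le _ _).trans (max_le ?_ ?_)) dv)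
    · exact (natDegree_C_mul_le _ _).trans du
    · exact (natDegree_C_mul_le _ _).trans da
  haveI : NeZero ((2 : ℕ) : N) := ⟨by rw [Nat.cast_ofNat]; exact h2⟩
  obtain ⟨δ, hδ⟩ := IsSepClosed.exists_pow_nat_eq (c * Q.coeff 2) 2
  obtain ⟨ε, hε⟩ := IsSepClosed.exists_pow_nat_eq (c * Q.coeff 0) 2
  obtain ⟨w, hw⟩ := sq_of_disc h2 hQd hdisc hδ hε
  exact ⟨c, w, hc0, hw⟩

theorem comp_sc {K₂ : Type} [Field K₂] [Algebra N[X] K₂] [IsFractionRing N[X] K₂]
    (h2 : (2 : N) ≠ 0) {a b : N[X]} (da : a.natDegree ≤ 2) (db : b.natDegree ≤ 4) (hs : b.Splits)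
    (hsep : b.Separable) (hb : 0 < b.natDegree) (hd : a ^ 2 - 4 * b ≠ 0) : Comp2 K₂ 1 a b := by
  obtain ⟨S, hS, h⟩ := exists_plan h2 db hs (by
    intro c w e
    have h1 : w * w ∣ b := ⟨C c, by rw [e]; ring⟩
    have h3 := hsep.squarefree w h1
    have h4 := natDegree_eq_zero_of_isUnit h3
    rw [e] at hb
    have h5 := natDegree_C_mul_le c (w ^ 2)
    rw [natDegree_pow, h4] at h5
    omega)
  have h3 := h N K₂ (RingHom.id N) a (by rw [Polynomial.map_id]; exact hd) (fun p hp => by
    rw [Polynomial.map_id, Polynomial.map_id]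
    exact rep_sc h2 da (hS p hp))
  rwa [Polynomial.map_id] at h3

end one

end Pool.Agent.K9h16.BT
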