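import Pool.Agent.K9h16.BT.Pts

/-!
The parity functions of the classes are the parity functions of the pullbacks of the points of the base.
-/

set_option autoImplicit false
set_option linter.all false

open Polynomial IsDedekindDomain WeierstrassCurve WeierstrassCurve.Affine
open scoped Classical Pointwise

namespace Pool.Agent.K9h16.BT

open Pool.Agent.TH115.GD Pool.Agent.K9h16.PT Pool.Agent.K9h16.QT Pool.Agent.R939.EI
open Pool.Agent.X243.Gen (pb pb_sum pb_mul pb_C pb_one pb_pow pb_lin pb_map pb_frac pb_ne exists_psi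
  root_of_prime form_cop natDegree_pb_le pb_prod FF gen0I)
open Pool.Agent.N181.P3 (hb hb_map hb_sum hb_psi natDegree_hb_le)
open Pool.Agent.N181.P9 (Comp2)

/-- One of the two curves. -/
structure Sid {k : Type} [Field k] (n : ℕ) (q r a b A B : k[X]) : Prop where
  h2 : (2 : k) ≠ 0
  da : a.natDegree ≤ 2
  db : b.natDegree = 4
  d0 : a ^ 2 - 4 * b ≠ 0
  sb : b.Separable
  tb : b.Splits
  cop : IsCoprime q r
  dq : q.natDegree = n
  dr : r.natDegree ≤ n
  odd : ¬ 2 ∣ n
  eA : A = hb q r 2 a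
  eB : B = hb q r 4 b
  fs : ∀ ξ, b.IsRoot ξ → (fm q r ξ).Separable ∧ (fm q r ξ).natDegree = n
  S : Sd A B

section par

variable {k' F : Type} [Field k'] [Field F] [Algebra k'[X] F] [IsFractionRing k'[X] F]

theorem par_sep {p : k'[X]} (hp : p.Separable) (θ : k') :
    par (pl θ) (algebraMap k'[X] F p) = if p.IsRoot θ then 1 else 0 := by
  rw [par_poly θ hp.ne_zero]
  split_ifs with h
  · have h3 := rootMultiplicity_le_one_of_separable hp θ
    have h4 : 0 < rootMultiplicity θ p := (rootMultiplicity_pos hp.ne_zero).2 h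
    have h5 : rootMultiplicity θ p = 1 := by omega
    rw [h5, Nat.cast_one]
  · rw [rootMultiplicity_eq_zero h, Nat.cast_zero]

end par

theorem pb_fprod {k' I : Type} [Field k'] (q r : k'[X]) (T : Finset I) (g : I → k') :
    pb q r (∏ ξ ∈ T, (X - C (g ξ))) = ∏ ξ ∈ T, (q - C (g ξ) * r) := by
  induction T using Finset.induction with
  | empty => rw [Finset.prod_empty, Finset.prod_empty, pb_one]
  | insert x T hx ih => rw [Finset.prod_insert hx, Finset.prod_insert hx, pb_mul, pb_lin, ih]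

section side

variable {k k' K F : Type} [Field k] [Field k'] [Algebra k k'] [Field K] [Algebra k[X] K]
    [Field F] [Algebra k'[X] F] [IsFractionRing k'[X] F] [Algebra K F]
    (hT : IsTower k k' K F) {n : ℕ} {q r a b A B : k[X]} (hS : Sid n q r a b A B)
    {H : Subgroup (Sep F ≃ₐ[K] Sep F)}

include hS

theorem Sid.B_pb : B = pb q r b := by
  rw [hS.eB, hb, hS.db, Nat.sub_self, pow_zero, one_mul]

theorem Sid.n0 : 0 < n := by
  have := hS.odd
  rcases Nat.eq_zero_or_pos n with h | h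
  · rw [h] at this
    exact absurd (dvd_zero 2) this
  · exact h

theorem Sid.r0 : r ≠ 0 := by
  rintro rfl
  have h := hS.cop
  rw [isCoprime_zero_right] at h
  have h1 := natDegree_eq_zero_of_isUnit h
  have h2 := hS.dq
  have h3 := hS.n0
  omega

theorem Sid.root {θ : k'} : aeval θ B = 0 ↔ ∃ ξ, b.IsRoot ξ ∧ aeval θ (fm q r ξ) = 0 := by
  rw [hS.B_pb]
  exact pb_root hS.tb hS.sb

theorem Sid.dB : B.natDegree = 4 * n := by
  rw [hS.B_pb, pb_deg hS.tb hS.sb (fun ξ h => (hS.fs ξ h).2) hS.n0, hS.db]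

theorem Sid.dA : A.natDegree ≤ 2 * n := by
  rw [hS.eA]
  exact (natDegree_hb_le hS.dq.le hS.dr hS.da).trans (le_of_eq (by ring))

theorem Sid.uniq {ξ ξ' : k} {θ : k'} (h1 : aeval θ (fm q r ξ) = 0) (h3 : aeval θ (fm q r ξ') = 0) :
    ξ = ξ' := by
  by_contra hne
  exact cop_ne (fm_cop hS.cop hne) h1 h3

include hT in
/-- The number of the blocks is even. -/
theorem even_T {c : Cc (Wc K A B) F} (hc : PC k' (Wc K A B) H c) {f : k' → ZMod 2}
    (hf : PF (Wc K A B) (c 1) f)
    (hblk : ∀ ξ, b.IsRoot ξ → ∀ x y : k', aeval x (fm q r ξ) = 0 → aeval y (fm q r ξ) = 0 →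
      f x = f y) :
    ∃ T : Finset k, T ⊆ b.roots.toFinset ∧ Even T.card ∧
      ∀ ξ, b.IsRoot ξ → ∀ θ : k', aeval θ (fm q r ξ) = 0 → f θ = if ξ ∈ T then 1 else 0 := by
  haveI := hT.sep
  haveI := hT.fracK
  haveI : IsSepClosed k' := IsSepClosure.sep_closed k
  have n0 := hS.n0
  have hex : ∀ ξ : k, b.IsRoot ξ → ∃ θ : k', aeval θ (fm q r ξ) = 0 := by
    intro ξ hξ
    obtain ⟨θ, hθ⟩ := IsSepClosed.exists_root ((fm q r ξ).map (algebraMap k k')) (by
      rw [degree_map]
      exact (natDegree_pos_iff_degree_pos.1 (by rw [(hS.fs ξ hξ).2]; exact n0)).ne')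
      (hS.fs ξ hξ).1.map
    exact ⟨θ, by rw [← eval_map_algebraMap]; exact hθ⟩
  have hmem : ∀ ξ, ξ ∈ b.roots.toFinset ↔ b.IsRoot ξ := fun ξ => by
    rw [Multiset.mem_toFinset, mem_roots hS.sb.ne_zero]
  choose! g hg using hex
  obtain ⟨T, hT0⟩ : ∃ T : Finset k, T = b.roots.toFinset.filter (fun ξ => f (g ξ) = 1) := ⟨_, rfl⟩
  have hval : ∀ ξ, b.IsRoot ξ → ∀ θ : k', aeval θ (fm q r ξ) = 0 →
      f θ = if ξ ∈ T then 1 else 0 := by
    intro ξ hξ θ hθ
    rw [hblk ξ hξ θ (g ξ) hθ (hg ξ hξ)]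
    split_ifs with h
    · rw [hT0, Finset.mem_filter] at h
      exact h.2
    · have h1 : ¬ f (g ξ) = 1 := fun h1 => h (by
        rw [hT0, Finset.mem_filter]
        exact ⟨(hmem ξ).2 hξ, h1⟩)
      have : ∀ x : ZMod 2, ¬ x = 1 → x = 0 := by decide
      exact this _ h1
  refine ⟨T, by rw [hT0]; exact Finset.filter_subset _ _, ?_, hval⟩
  -- the degree
  obtain ⟨α, γ, hR⟩ := exists_rts hT hS.S
  have hf2 : ∀ σ, c 1 σ + c 1 σ = 0 := two_tc hc.tc
  obtain ⟨t0, m0, e0, k0⟩ := pf_rep hT hS.S hR hf2 (hc.loc 1) hf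
  obtain ⟨D, hD⟩ : ∃ D : Finset k', D = (B.map (algebraMap k k')).roots.toFinset.filter
    (fun θ => f θ = 1) := ⟨_, rfl⟩
  rw [← hD] at e0
  have hBm : B.map (algebraMap k k') ≠ 0 :=
    (Polynomial.map_ne_zero_iff (algebraMap k k').injective).2 hS.S.b0
  have hDeq : D = T.biUnion (fun ξ => ((fm q r ξ).map (algebraMap k k')).roots.toFinset) := by
    ext θ
    rw [hD, Finset.mem_filter, Multiset.mem_toFinset, mem_roots hBm, IsRoot.def,
      eval_map_algebraMap, Finset.mem_biUnion]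
    constructor
    · rintro ⟨h1, h3⟩
      obtain ⟨ξ, hξ, hθ⟩ := hS.root.1 h1
      refine ⟨ξ, ?_, ?_⟩
      · by_contra h
        rw [hval ξ hξ θ hθ, if_neg h] at h3
        exact zero_ne_one h3
      · rw [Multiset.mem_toFinset, mem_roots ((Polynomial.map_ne_zero_iff
          (algebraMap k k').injective).2 (hS.fs ξ hξ).1.ne_zero), IsRoot.def, eval_map_algebraMap]
        exact hθ
    · rintro ⟨ξ, h1, h3⟩
      have hξ : b.IsRoot ξ := (hmem ξ).1 (by rw [hT0] at h1; exact (Finset.mem_filter.1 h1).1)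
      rw [Multiset.mem_toFinset, mem_roots ((Polynomial.map_ne_zero_iff
          (algebraMap k k').injective).2 (hS.fs ξ hξ).1.ne_zero), IsRoot.def,
          eval_map_algebraMap] at h3
      exact ⟨hS.root.2 ⟨ξ, hξ, h3⟩, by rw [hval ξ hξ θ h3, if_pos h1]⟩
  have hcard : D.card = T.card * n := by
    rw [hDeq, Finset.card_biUnion]
    · rw [Finset.sum_congr rfl (fun ξ h1 => ?_), Finset.sum_const, smul_eq_mul]
      have hξ : b.IsRoot ξ := (hmem ξ).1 (by rw [hT0] at h1; exact (Finset.mem_filter.1 h1).1)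
      rw [Multiset.toFinset_card_of_nodup (nodup_roots (hS.fs ξ hξ).1.map),
        ← (splits' hT (hS.fs ξ hξ).1).natDegree_eq_card_roots, natDegree_map, (hS.fs ξ hξ).2]
    · intro ξ h1 ξ' h1' hne
      have hξ : b.IsRoot ξ := (hmem ξ).1 (by rw [hT0] at h1; exact (Finset.mem_filter.1 h1).1)
      have hξ' : b.IsRoot ξ' := (hmem ξ').1 (by rw [hT0] at h1'; exact (Finset.mem_filter.1 h1').1)
      show Disjoint _ _
      rw [Finset.disjoint_left]
      intro θ h3 h3'
      rw [Multiset.mem_toFinset, mem_roots ((Polynomial.map_ne_zero_iff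
          (algebraMap k k').injective).2 (hS.fs ξ hξ).1.ne_zero), IsRoot.def,
          eval_map_algebraMap] at h3
      rw [Multiset.mem_toFinset, mem_roots ((Polynomial.map_ne_zero_iff
          (algebraMap k k').injective).2 (hS.fs ξ' hξ').1.ne_zero), IsRoot.def,
          eval_map_algebraMap] at h3'
      exact hne (hS.uniq h3 h3')
  -- the place at infinity
  have injk := (algebraMap k k').injective
  have vdeg : ∀ p : k[X], p ≠ 0 → vInf k' F (algebraMap K F (algebraMap k[X] K p)) =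
      WithZero.exp (p.natDegree : ℤ) := by
    intro p hp
    rw [hT.map, vInf_poly ((Polynomial.map_ne_zero_iff injk).2 hp), natDegree_map]
  have vX : ∀ m : ℕ, vInf k' F ((algebraMap K F (algebraMap k[X] K X)) ^ m) =
      WithZero.exp (m : ℤ) := by
    intro m
    rw [map_pow, vdeg X X_ne_zero, natDegree_X, ← WithZero.exp_nsmul]
    simp
  have hX0 : algebraMap K F (algebraMap k[X] K X) ≠ 0 := by simp
  have h1 := gen0I (F := F) (L := CompInf k' F)
      (Valued.v (R := (pl (0 : k')).adicCompletion (AtInf F))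
        (Γ₀ := WithZero (Multiplicative ℤ)))
      (vInf k' F) wInf (ρ := (algebraMap K F (algebraMap k[X] K X)) ^ n) (pow_ne_zero n hX0)
      (by
        rw [vX, ← WithZero.exp_nsmul]
        by_cases ha0 : A = 0
        · rw [ha0, map_zero, map_zero, map_zero]
          exact zero_le
        · rw [vdeg A ha0, WithZero.exp_le_exp]
          simp only [smul_eq_mul, nsmul_eq_mul]
          push_cast
          exact_mod_cast hS.dA) (by
        rw [vdeg B hS.S.b0, hS.dB, vX, ← WithZero.exp_nsmul]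
        congr 1) (loc0T hR hf2 (hc.loc 1).2 m0 e0 k0)
  have hp0 : (∏ θ ∈ D, (X - C θ) : k'[X]) ≠ 0 := Finset.prod_ne_zero_iff.2 fun θ _ =>
    X_sub_C_ne_zero θ
  rw [vInf_poly hp0, isSquare_exp] at h1
  have h3 : (∏ θ ∈ D, (X - C θ) : k'[X]).natDegree = D.card := by
    rw [natDegree_prod _ _ (fun θ _ => X_sub_C_ne_zero θ), Finset.sum_congr rfl (fun θ _ =>
      natDegree_X_sub_C θ), Finset.sum_const, smul_eq_mul, mul_one]
  rw [h3, hcard] at h1
  have h4 : Even (T.card * n) := by exact_mod_cast h1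
  rcases Nat.even_mul.1 h4 with h | h
  · exact h
  · exact absurd h.two_dvd hS.odd

variable {F₀ : Type} [Field F₀] [Algebra k'[X] F₀] [IsFractionRing k'[X] F₀] [Algebra F₀ F]
  (hψ : IsPsi F₀ F (q.map (algebraMap k k')) (r.map (algebraMap k k')))

include hT hψ in
theorem Sid.tr : IsTrT (F := F) (algebraMap k'[X] F₀ (a.map (algebraMap k k')))
    (algebraMap k'[X] F₀ (b.map (algebraMap k k'))) (algebraMap k[X] K A) (algebraMap k[X] K B)
    (algebraMap k'[X] F (r.map (algebraMap k k'))) := by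
  refine trPsi hψ ((Polynomial.map_ne_zero_iff (algebraMap k k').injective).2 hS.r0)
    (by rw [natDegree_map]; exact hS.da) (by rw [natDegree_map, hS.db]) ?_ ?_
  · rw [hT.map, hS.eA, hb_map]
  · rw [hT.map, hS.eB, hb_map]

include hT hψ in
/-- The points. -/
theorem pts_T (h : IsTrT (F := F) (algebraMap k'[X] F₀ (a.map (algebraMap k k')))
    (algebraMap k'[X] F₀ (b.map (algebraMap k k'))) (algebraMap k[X] K A) (algebraMap k[X] K B)
    (algebraMap k'[X] F (r.map (algebraMap k k')))) {T : Finset k} (hTb : T ⊆ b.roots.toFinset)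
    (hev : Even T.card) :
    ∃ P₀ : Pt (crvT (algebraMap k'[X] F₀ (a.map (algebraMap k k')))
      (algebraMap k'[X] F₀ (b.map (algebraMap k k')))) F₀,
      ∀ ξ, b.IsRoot ξ → ∀ θ : k', aeval θ (fm q r ξ) = 0 →
        par (pl θ) (dT (algebraMap K F (algebraMap k[X] K B)) (pull h P₀)) =
          if ξ ∈ T then 1 else 0 := by
  haveI := hT.sep
  haveI : IsSepClosed k' := IsSepClosure.sep_closed k
  have inj := (algebraMap k k').injective
  have h2' : (2 : k') ≠ 0 := two_k' hS.h2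
  have hmem : ∀ ξ, ξ ∈ T → b.IsRoot ξ := fun ξ h => by
    have := hTb h
    rwa [Multiset.mem_toFinset, mem_roots hS.sb.ne_zero] at this
  have hbm0 : b.map (algebraMap k k') ≠ 0 := (Polynomial.map_ne_zero_iff inj).2 hS.sb.ne_zero
  have hC : Comp2 F₀ 1 (a.map (algebraMap k k')) (b.map (algebraMap k k')) := by
    refine comp_sc h2' (by rw [natDegree_map]; exact hS.da) (by rw [natDegree_map, hS.db])
      (hS.tb.map _) hS.sb.map (by rw [natDegree_map, hS.db]; norm_num) ?_
    have e : (a.map (algebraMap k k')) ^ 2 - 4 * b.map (algebraMap k k') =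
        (a ^ 2 - 4 * b).map (algebraMap k k') := by
      rw [Polynomial.map_sub, Polynomial.map_pow, Polynomial.map_mul, Polynomial.map_ofNat]
    rw [e]
    exact (Polynomial.map_ne_zero_iff inj).2 hS.d0
  obtain ⟨A₀, hA₀⟩ : ∃ A₀ : k'[X], A₀ = ∏ ξ ∈ T, (X - C (algebraMap k k' ξ)) := ⟨_, rfl⟩
  have hA0 : A₀ ≠ 0 := by
    rw [hA₀]
    exact Finset.prod_ne_zero_iff.2 fun θ _ => X_sub_C_ne_zero _
  have hAd : A₀.natDegree = T.card := by
    rw [hA₀, natDegree_prod _ _ (fun θ _ => X_sub_C_ne_zero _), Finset.sum_congr rfl (fun θ _ =>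
      natDegree_X_sub_C _), Finset.sum_const, smul_eq_mul, mul_one]
  obtain ⟨P, c, z, hc, hz, e⟩ := hC A₀ hA0 (fun π h1 h3 => by
    rw [hA₀] at h3
    obtain ⟨ξ, hξ, h4⟩ := (Prime.dvd_finsetProd_iff h1.prime _).1 h3
    refine h4.trans (dvd_iff_isRoot.2 ?_)
    rw [IsRoot.def, eval_map_algebraMap, aeval_algebraMap_apply_eq_algebraMap_eval,
      IsRoot.def.1 (hmem ξ hξ), map_zero]) (fun _ => by
    rw [hAd]
    exact hev.two_dvd)
  obtain ⟨w, hw, ew⟩ := dT_pull h P
  refine ⟨P, fun ξ hξ θ hθ => ?_⟩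
  have hβ0 : algebraMap k'[X] F₀ (b.map (algebraMap k k')) ≠ 0 := by simpa using hbm0
  have hd0 : dT (algebraMap k'[X] F₀ (b.map (algebraMap k k'))) P ≠ 0 := dT_ne hβ0 P
  have hd1 : algebraMap F₀ F (dT (algebraMap k'[X] F₀ (b.map (algebraMap k k'))) P) ≠ 0 :=
    (_root_.map_ne_zero _).2 hd0
  rw [ew, par_sq _ hw hd1, ← par_sq _ ((_root_.map_ne_zero (algebraMap F₀ F)).2 hz) hd1, ← map_pow,
    ← map_mul, ← e]
  -- the polynomial
  obtain ⟨p0, hp0⟩ : ∃ p0 : k[X], p0 = ∏ ξ ∈ T, fm q r ξ := ⟨_, rfl⟩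
  have hp0s : p0.Separable := by
    rw [hp0]
    exact Polynomial.separable_prod' (fun x _ y _ hxy => fm_cop hS.cop hxy)
      (fun x hx => (hS.fs x (hmem x hx)).1)
  have hp0m : pb (q.map (algebraMap k k')) (r.map (algebraMap k k')) (C c * A₀) =
      C c * p0.map (algebraMap k k') := by
    rw [pb_mul, pb_C, hA₀, pb_fprod, hp0, Polynomial.map_prod]
    congr 1
    refine Finset.prod_congr rfl fun ξ _ => ?_
    rw [fm, Polynomial.map_sub, Polynomial.map_mul, map_C]
  have hdeg : (C c * A₀).natDegree = T.card := by rw [natDegree_C_mul hc, hAd]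
  obtain ⟨j, hj⟩ := hev.two_dvd
  have h5 := hψ (C c * A₀)
  rw [hp0m, hdeg, hj, mul_comm 2 j, pow_mul] at h5
  have hr' : algebraMap k'[X] F (r.map (algebraMap k k')) ≠ 0 := by
    simpa using (Polynomial.map_ne_zero_iff inj).2 hS.r0
  have hne : algebraMap F₀ F (algebraMap k'[X] F₀ (C c * A₀)) ≠ 0 := by
    rw [_root_.map_ne_zero]
    simpa using ⟨hc, hA0⟩
  rw [← par_sq (pl θ) (pow_ne_zero j hr') hne, ← h5, par_sep (hp0s.map.unit_mul
    (isUnit_C.2 (isUnit_iff_ne_zero.2 hc)))]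
  have h6 : (C c * p0.map (algebraMap k k')).IsRoot θ ↔ ξ ∈ T := by
    rw [IsRoot.def, eval_mul, eval_C, mul_eq_zero, eval_map_algebraMap, hp0, map_prod,
      Finset.prod_eq_zero_iff]
    constructor
    · rintro (h7 | ⟨ξ', h7, h8⟩)
      · exact absurd h7 hc
      · rw [hS.uniq hθ h8]
        exact h7
    · intro h7
      exact Or.inr ⟨ξ, h7, hθ⟩
  simp only [h6]

include hT hψ in
/-- **The parity functions of the classes come from points of the base.** -/
theorem enough_side (h : IsTrT (F := F) (algebraMap k'[X] F₀ (a.map (algebraMap k k')))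
    (algebraMap k'[X] F₀ (b.map (algebraMap k k'))) (algebraMap k[X] K A) (algebraMap k[X] K B)
    (algebraMap k'[X] F (r.map (algebraMap k k')))) :
    ∃ S₀ : Finset k', ∀ H : Subgroup (Sep F ≃ₐ[K] Sep F), H ≤ HM k' K F (S₀ : Set k') →
      (∀ c : Cc (Wc K A B) F, PC k' (Wc K A B) H c → ∀ f : k' → ZMod 2,
        PF (Wc K A B) (c 1) f → ∀ ξ, b.IsRoot ξ → ∀ x y : k', aeval x (fm q r ξ) = 0 →
          aeval y (fm q r ξ) = 0 → f x = f y) →
      Enough k' K H A B {R | ∃ P₀ : Pt (crvT (algebraMap k'[X] F₀ (a.map (algebraMap k k')))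
        (algebraMap k'[X] F₀ (b.map (algebraMap k k')))) F₀,
          R 0 = act (Wc K A B) (incl K F (Sep F)) (pull h P₀)} := by
  haveI := hT.fracK
  have hpt := fun (T : Finset k) (h1 : T ⊆ b.roots.toFinset ∧ Even T.card) =>
    pts_T hT hS hψ h h1.1 h1.2
  choose! P hP using hpt
  have hco := fun (T : Finset k) => exists_coefP hT (Wc K A B) (pull h (P T))
  choose Sf hSf using hco
  refine ⟨b.roots.toFinset.powerset.biUnion Sf, fun H hH hblk => ?_⟩
  intro c hc f hf
  obtain ⟨α, γ, hR⟩ := exists_rts hT hS.S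
  obtain ⟨T, hTb, hev, hval⟩ := even_T hT hS hc hf (hblk c hc f hf)
  obtain ⟨R, hR0, hKS⟩ := exists_KS (K := K) (F := F) (W := Wc K A B) (H := H) (halve_sep hR.E)
    (P := act (Wc K A B) (incl K F (Sep F)) (pull h (P T)))
    (fun σ => rs_act_incl _ σ _) (fun τ hτ => hSf T τ (fun x hx => hH hτ x (by
      rw [Finset.mem_coe] at hx ⊢
      exact Finset.mem_biUnion.2 ⟨T, Finset.mem_powerset.2 hTb, hx⟩)))
  refine ⟨R, ⟨P T, hR0⟩, hKS, _, 0, pf_kap hR hKS hR0, fun θ hθ => ?_⟩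
  obtain ⟨ξ, hξ, hθξ⟩ := hS.root.1 hθ
  rw [hval ξ hξ θ hθξ]
  show _ + par (pl θ) _ = 0
  rw [hP T ⟨hTb, hev⟩ ξ hξ θ hθξ]
  exact zz _

end side

end Pool.Agent.K9h16.BT
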