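import Pool.Agent.K9h16.PT.Cnt
import Pool.Agent.N181.P3.Dens
import Pool.Agent.K9h16.BT.Cov

/-!
The events at a maximal ideal for the pullbacks, and their density.
-/

set_option autoImplicit false
set_option linter.all false

open Polynomial
open scoped Classical

namespace Pool.Agent.K9h16.BT

open Pool.Agent.X243.Gen (FF FF_unit Lev densityG)
open Pool.Agent.X243.Sol (DD E3 E4 D3 D4 D3_pos D4_pos E3_card E4_card Ev_card)
open Pool.Agent.Y160.T3 (bF)
open Pool.Agent.X243.Tate (bF_nd bF_map)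
open Pool.Agent.K9h16.PT (MM MM_card KM KM_pos PairG MinG frob_pair frob_minor)
open Pool.Agent.N181.P3 (Zq Zq_inf Idx cl cm cl_ne cl_det Lev_card' linQ)

section frm

/-- The coefficients of `D q - ρ r`. -/
def frm {R : Type} [CommRing R] {N : ℕ} (D ρ : R) (z : Fin (N + 1) ⊕ Fin (N + 1) → R) :
    Fin (N + 1) → R :=
  fun j => D * z (Sum.inl j) - ρ * z (Sum.inr j)

theorem frm_map {R S : Type} [CommRing R] [CommRing S] (φ : R →+* S) {N : ℕ} (D ρ : R)
    (z : Fin (N + 1) ⊕ Fin (N + 1) → R) :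
    frm (φ D) (φ ρ) (fun j => φ (z j)) = fun j => φ (frm D ρ z j) := by
  funext j
  show φ D * φ _ - φ ρ * φ _ = φ (D * _ - ρ * _)
  rw [map_sub, map_mul, map_mul]

theorem bF_frm {R : Type} [CommRing R] {N : ℕ} (D ρ : R) (z : Fin (N + 1) ⊕ Fin (N + 1) → R) :
    bF (frm D ρ z) = C D * bF (z ∘ Sum.inl) - C ρ * bF (z ∘ Sum.inr) := by
  rw [bF, bF, bF, Finset.mul_sum, Finset.mul_sum, ← Finset.sum_sub_distrib]
  refine Finset.sum_congr rfl fun j _ => ?_
  show C (D * _ - ρ * _) * _ = _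
  rw [C_sub, C_mul, C_mul]
  simp only [Function.comp]
  ring

theorem frm_surj {F : Type} [Field F] {N : ℕ} {D ρ σ : F} (hD : D ≠ 0) (h : ρ ≠ σ) :
    ∃ Φ : (Fin (N + 1) → F) → (Fin (N + 1) → F) → (Fin (N + 1) ⊕ Fin (N + 1) → F),
      ∀ u v, frm D ρ (Φ u v) = u ∧ frm D σ (Φ u v) = v := by
  have h1 : σ - ρ ≠ 0 := sub_ne_zero.2 h.symm
  refine ⟨fun u v => Sum.elim (fun j => (u j + ρ * ((u j - v j) / (σ - ρ))) / D)
    (fun j => (u j - v j) / (σ - ρ)), fun u v => ⟨?_, ?_⟩⟩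
  · funext j
    show D * ((u j + ρ * ((u j - v j) / (σ - ρ))) / D) - ρ * ((u j - v j) / (σ - ρ)) = u j
    field_simp
    ring
  · funext j
    show D * ((u j + ρ * ((u j - v j) / (σ - ρ))) / D) - σ * ((u j - v j) / (σ - ρ)) = v j
    field_simp
    ring

theorem frm_card {F : Type} [Field F] [Finite F] {N : ℕ} {D ρ σ : F} (hD : D ≠ 0) (h : ρ ≠ σ)
    (A : Set ((Fin (N + 1) → F) × (Fin (N + 1) → F))) :
    A.ncard ≤ ({z : Fin (N + 1) ⊕ Fin (N + 1) → F | (frm D ρ z, frm D σ z) ∈ A}).ncard := by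
  obtain ⟨Φ, hΦ⟩ := frm_surj (N := N) hD h
  refine Set.ncard_le_ncard_of_injOn (fun x => Φ x.1 x.2) ?_ ?_ (Set.toFinite _)
  · rintro ⟨u, v⟩ h
    show (frm D ρ (Φ u v), frm D σ (Φ u v)) ∈ A
    rw [(hΦ u v).1, (hΦ u v).2]
    exact h
  · rintro ⟨u, v⟩ _ ⟨u', v'⟩ _ h
    have h' : Φ u v = Φ u' v' := h
    have h1 := (hΦ u v).1
    have h2 := (hΦ u v).2
    rw [h', (hΦ u' v').1] at h1
    rw [h', (hΦ u' v').2] at h2
    rw [h1, h2]

end frm

/-- The index set of the events. -/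
abbrev Ib (μ : ℕ) : Type := Option (Idx μ × Fin 3) ⊕ (Fin μ × Fin μ × Bool)

section ev

variable {R : Type} [CommRing R]

/-- The events. -/
def Gb {μ : ℕ} (N : ℕ) (D : R) (ρ : Fin μ → R) (s : Ib μ) (p : Ideal R) :
    Set (Fin (N + 1) ⊕ Fin (N + 1) → R ⧸ p) :=
  match s with
  | Sum.inl s => Lev N (cl D) (cm ρ) none (some none) s p
  | Sum.inr (i, j, true) => {z | ρ i ≠ ρ j →
      frm (Ideal.Quotient.mk p D) (Ideal.Quotient.mk p (ρ i)) z ∈ E4 (R ⧸ p) N ∧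
      frm (Ideal.Quotient.mk p D) (Ideal.Quotient.mk p (ρ j)) z ∈ E3 (R ⧸ p) N}
  | Sum.inr (i, j, false) => {z | ρ i ≠ ρ j →
      MM N (bF (frm (Ideal.Quotient.mk p D) (Ideal.Quotient.mk p (ρ i)) z))
        (bF (frm (Ideal.Quotient.mk p D) (Ideal.Quotient.mk p (ρ j)) z))}

/-- The element which has to be nonzero. -/
noncomputable def dsc {μ : ℕ} (D : R) (ρ : Fin μ → R) : R :=
  2 * D * ∏ x : Fin μ × Fin μ, if ρ x.1 = ρ x.2 then 1 else ρ x.1 - ρ x.2

theorem dsc_ne [IsDomain R] {μ : ℕ} {D : R} (h2 : (2 : R) ≠ 0) (hD : D ≠ 0) (ρ : Fin μ → R) :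
    dsc D ρ ≠ 0 := by
  refine mul_ne_zero (mul_ne_zero h2 hD) (Finset.prod_ne_zero_iff.2 fun x _ => ?_)
  split_ifs with h
  · exact one_ne_zero
  · exact sub_ne_zero.2 h

theorem dsc_D {μ : ℕ} {D : R} {ρ : Fin μ → R} {p : Ideal R} (h : dsc D ρ ∉ p) : D ∉ p := by
  intro h1
  exact h (p.mul_mem_right _ (p.mul_mem_left _ h1))

theorem dsc_two {μ : ℕ} {D : R} {ρ : Fin μ → R} {p : Ideal R} (h : dsc D ρ ∉ p) : (2 : R) ∉ p := by
  intro h1
  exact h (p.mul_mem_right _ (p.mul_mem_right _ h1))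

theorem dsc_sub {μ : ℕ} {D : R} {ρ : Fin μ → R} {p : Ideal R} (h : dsc D ρ ∉ p) {i j : Fin μ}
    (hij : ρ i ≠ ρ j) : ρ i - ρ j ∉ p := by
  intro h1
  apply h
  refine p.mul_mem_left _ ?_
  rw [← Finset.mul_prod_erase _ _ (Finset.mem_univ ((i, j) : Fin μ × Fin μ))]
  refine p.mul_mem_right _ ?_
  rw [if_neg hij]
  exact h1

/-- The constant. -/
def CB (N : ℕ) : ℕ := (DD N * DD N) * (D4 N * KM N)

theorem DDp {N : ℕ} (hN : 0 < N) : 0 < DD N := by
  have := D3_pos N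
  unfold DD
  positivity

theorem CB_pos {N : ℕ} (hN : 0 < N) : 0 < CB N :=
  Nat.mul_pos (Nat.mul_pos (DDp hN) (DDp hN)) (Nat.mul_pos (D4_pos N) (KM_pos N))

theorem Gb_card {μ N : ℕ} (hN : 3 ≤ N) {D : R} {ρ : Fin μ → R} (s : Ib μ) {p : Ideal R}
    (hp : p ∈ Zq R (16 * N + 16) (dsc D ρ)) :
    Nat.card (R ⧸ p) ^ (2 * N + 2) ≤ CB N * (Gb N D ρ s p).ncard := by
  obtain ⟨hm, hfin, hq, hd⟩ := hp
  haveI := hm
  haveI : p.IsPrime := hm.isPrime
  letI : Field (R ⧸ p) := Ideal.Quotient.field p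
  haveI := hfin
  haveI := Fintype.ofFinite (R ⧸ p)
  have hDp := dsc_D hd
  have hD0 : Ideal.Quotient.mk p D ≠ 0 := by
    rw [Ne, Ideal.Quotient.eq_zero_iff_mem]
    exact hDp
  have h2 : (2 : R ⧸ p) ≠ 0 := by
    have h3 := dsc_two hd
    rw [← Ideal.Quotient.eq_zero_iff_mem, map_ofNat] at h3
    exact h3
  have hDD := DDp (N := N) (by omega)
  have h4p := D4_pos N
  have hK := KM_pos N
  obtain ⟨q, hqd⟩ : ∃ q, q = Nat.card (R ⧸ p) := ⟨_, rfl⟩
  have hqF : q = Fintype.card (R ⧸ p) := by rw [hqd, Nat.card_eq_fintype_card]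
  have huniv : q ^ (2 * N + 2) ≤ CB N *
      (Set.univ : Set (Fin (N + 1) ⊕ Fin (N + 1) → R ⧸ p)).ncard := by
    rw [Set.ncard_univ, Nat.card_fun, Nat.card_eq_fintype_card
        (α := Fin (N + 1) ⊕ Fin (N + 1)), Fintype.card_sum, Fintype.card_fin, ← hqd]
    have e2 : N + 1 + (N + 1) = 2 * N + 2 := by omega
    rw [e2]
    exact Nat.le_mul_of_pos_left _ (CB_pos (by omega))
  have hne : ∀ {i j : Fin μ}, ρ i ≠ ρ j →
      Ideal.Quotient.mk p (ρ i) ≠ Ideal.Quotient.mk p (ρ j) := by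
    intro i j hij h
    rw [Ideal.Quotient.eq] at h
    exact dsc_sub hd hij h
  rcases s with s | ⟨i, j, c⟩
  · have h1 := Lev_card' hN (cl D) (cm ρ) none (some none) s hm hfin (by omega)
      (cl_ne ρ hm hDp) (cl_det D ρ hm)
    refine h1.trans (Nat.mul_le_mul_right _ ?_)
    unfold CB
    exact Nat.le_mul_of_pos_right _ (Nat.mul_pos h4p hK)
  · rw [← hqd]
    by_cases hij : ρ i = ρ j
    · have e : Gb N D ρ (Sum.inr (i, j, c)) p = Set.univ := by
        ext z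
        cases c
        · exact ⟨fun _ => trivial, fun _ h => absurd hij h⟩
        · exact ⟨fun _ => trivial, fun _ h => absurd hij h⟩
      rw [e]
      exact huniv
    · cases c
      · have e : Gb N D ρ (Sum.inr (i, j, false)) p = {z : Fin (N + 1) ⊕ Fin (N + 1) → R ⧸ p |
            (frm (Ideal.Quotient.mk p D) (Ideal.Quotient.mk p (ρ i)) z,
              frm (Ideal.Quotient.mk p D) (Ideal.Quotient.mk p (ρ j)) z) ∈
            {x : (Fin (N + 1) → R ⧸ p) × (Fin (N + 1) → R ⧸ p) | MM N (bF x.1) (bF x.2)}} := by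
          ext z
          exact ⟨fun h => h hij, fun h _ => h⟩
        rw [e]
        have h1 := MM_card (F := R ⧸ p) h2 (N := N) (by omega) (by rw [← hqF, hqd]; exact hq)
        rw [← hqF] at h1
        refine h1.trans (Nat.mul_le_mul ?_ (frm_card hD0 (hne hij) _))
        unfold CB
        rw [mul_comm (KM N)]
        exact Nat.le_mul_of_pos_left _ (Nat.mul_pos hDD hDD)
      · have e : Gb N D ρ (Sum.inr (i, j, true)) p = {z : Fin (N + 1) ⊕ Fin (N + 1) → R ⧸ p |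
            (frm (Ideal.Quotient.mk p D) (Ideal.Quotient.mk p (ρ i)) z,
              frm (Ideal.Quotient.mk p D) (Ideal.Quotient.mk p (ρ j)) z) ∈
            (E4 (R ⧸ p) N) ×ˢ (E3 (R ⧸ p) N)} := by
          ext z
          exact ⟨fun h => h hij, fun h _ => h⟩
        rw [e]
        have h4 := E4_card (F := R ⧸ p) (N := N) (by omega) (by rw [← hqF, hqd]; omega)
        have h3 := Ev_card (F := R ⧸ p) (N := N) hN (by rw [← hqF, hqd]; omega) 2
        rw [← hqF] at h4 h3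
        have e3 : Pool.Agent.X243.Sol.Ev (R ⧸ p) N 2 = E3 (R ⧸ p) N := by
          unfold Pool.Agent.X243.Sol.Ev
          rw [if_neg (by decide), if_neg (by decide)]
        rw [e3] at h3
        calc q ^ (2 * N + 2) = q ^ (N + 1) * q ^ (N + 1) := by ring
          _ ≤ (D4 N * (E4 (R ⧸ p) N).ncard) * (DD N * (E3 (R ⧸ p) N).ncard) :=
            Nat.mul_le_mul h4 h3
          _ = (DD N * D4 N) * ((E4 (R ⧸ p) N).ncard * (E3 (R ⧸ p) N).ncard) := by ring
          _ ≤ CB N * ((E4 (R ⧸ p) N).ncard * (E3 (R ⧸ p) N).ncard) := by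
              refine Nat.mul_le_mul_right _ ?_
              unfold CB
              calc DD N * D4 N = (DD N * 1) * (D4 N * 1) := by ring
                _ ≤ _ := Nat.mul_le_mul (Nat.mul_le_mul_left _ hDD) (Nat.mul_le_mul_left _ hK)
          _ ≤ _ := by
              refine Nat.mul_le_mul_left _ ?_
              rw [← Set.ncard_prod]
              exact frm_card hD0 (hne hij) _

variable (R) in
theorem densB [IsDomain R] [Algebra.FiniteType ℤ R] (hR : ¬ IsField R)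
    (h2 : (2 : R) ≠ 0) {μ N : ℕ} (hN : 3 ≤ N) {D : R} (hD : D ≠ 0) (ρ : Fin μ → R) (η : ℝ)
    (hη : 0 < η) :
    ∃ M : Ideal R, Finite (R ⧸ M) ∧
      (1 - η) * (Nat.card (R ⧸ M) : ℝ) ^ (Fintype.card (Fin (N + 1) ⊕ Fin (N + 1))) ≤
      (({x : Fin (N + 1) ⊕ Fin (N + 1) → R ⧸ M | ∀ s : Ib μ,
        ∃ p ∈ Zq R (16 * N + 16) (dsc D ρ), ∀ y : Fin (N + 1) ⊕ Fin (N + 1) → R,
          (∀ j, Ideal.Quotient.mk M (y j) = x j) →
          (fun j => Ideal.Quotient.mk p (y j)) ∈ Gb N D ρ s p}).ncard : ℝ) := by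
  have hC : (0 : ℝ) < ((CB N : ℕ) : ℝ) := by
    have := CB_pos (N := N) (by omega)
    exact_mod_cast this
  refine densityG (Zq R (16 * N + 16) (dsc D ρ)) (Zq_inf R hR _ (dsc_ne h2 hD ρ))
    (fun p hp => hp.1) (fun p hp => hp.2.1)
    (fun s p => Gb N D ρ s p) (c := 1 / ((CB N : ℕ) : ℝ)) (by positivity) ?_ η hη
  intro s p hp
  have h1 := Gb_card hN s hp
  have hc : Fintype.card (Fin (N + 1) ⊕ Fin (N + 1)) = 2 * N + 2 := by
    rw [Fintype.card_sum, Fintype.card_fin]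
    omega
  rw [hc, one_div, inv_mul_le_iff₀ hC]
  exact_mod_cast h1

end ev

section bc

variable {R k : Type} [CommRing R] [IsDomain R] [IsIntegrallyClosed R] [IsNoetherianRing R]
  [Field k] [Algebra R k] [IsFractionRing R k]

/-- The group theory from the events. -/
theorem bc_of {μ n B : ℕ} {D : R} {ρ : Fin μ → R} (h5 : 5 ≤ n) (hodd : ¬ 2 ∣ n) (hD : D ≠ 0)
    {y : Fin (n + 1) ⊕ Fin (n + 1) → R}
    (h : ∀ s : Ib μ, ∃ p ∈ Zq R B (dsc D ρ),
      (fun j => Ideal.Quotient.mk p (y j)) ∈ Gb n D ρ s p) {q r a b : k[X]}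
    (hq : q = (bF (y ∘ Sum.inl)).map (algebraMap R k))
    (hr : r = (bF (y ∘ Sum.inr)).map (algebraMap R k))
    (h2 : (2 : k) ≠ 0) (da : a.natDegree ≤ 2) (db : b.natDegree = 4)
    (dd : (a ^ 2 - 4 * b).natDegree = 4) (sb : b.Separable) (sd : (a ^ 2 - 4 * b).Separable)
    (bd : IsCoprime b (a ^ 2 - 4 * b)) (tb : b.Splits) (td : (a ^ 2 - 4 * b).Splits)
    (hρ : ∀ ξ : k, b.IsRoot ξ ∨ (a ^ 2 - 4 * b).IsRoot ξ →
      ∃ i, algebraMap R k (ρ i) = algebraMap R k D * ξ) : BC n q r a b := by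
  have inj := IsFractionRing.injective R k
  have hD' : algebraMap R k D ≠ 0 := (map_ne_zero_iff _ inj).2 hD
  obtain ⟨f1, f2, f3, f4⟩ := linQ (k := k) (by omega : 3 ≤ n) (y := y)
    (B := B) (D := D) (ρ := ρ) (fun s => by
      obtain ⟨p, hp, e⟩ := h (Sum.inl s)
      exact ⟨p, ⟨hp.1, hp.2.1, hp.2.2.1, dsc_D hp.2.2.2⟩, e⟩) q r hq hr
  have efm : ∀ {ξ : k} {i : Fin μ}, algebraMap R k (ρ i) = algebraMap R k D * ξ →
      C (algebraMap R k D) * fm q r ξ =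
        (C D * bF (y ∘ Sum.inl) - C (ρ i) * bF (y ∘ Sum.inr)).map (algebraMap R k) := by
    intro ξ i hi
    rw [fm, Polynomial.map_sub, Polynomial.map_mul, Polynomial.map_mul, map_C, map_C, ← hq, ← hr,
      hi, C_mul]
    ring
  have hnd : ∀ i : Fin μ, (C D * bF (y ∘ Sum.inl) - C (ρ i) * bF (y ∘ Sum.inr)).natDegree ≤ n := by
    intro i
    refine (natDegree_sub_le _ _).trans (max_le ?_ ?_)
    · exact (natDegree_C_mul_le _ _).trans (bF_nd _)
    · exact (natDegree_C_mul_le _ _).trans (bF_nd _)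
  have hred : ∀ (i : Fin μ) (p : Ideal R),
      (C D * bF (y ∘ Sum.inl) - C (ρ i) * bF (y ∘ Sum.inr)).map (Ideal.Quotient.mk p) =
        bF (frm (Ideal.Quotient.mk p D) (Ideal.Quotient.mk p (ρ i))
          (fun j => Ideal.Quotient.mk p (y j))) := by
    intro i p
    rw [← bF_frm, bF_map, frm_map]
  have hdiff : ∀ {ξ ξ' : k} {i j : Fin μ}, ξ ≠ ξ' → algebraMap R k (ρ i) = algebraMap R k D * ξ →
      algebraMap R k (ρ j) = algebraMap R k D * ξ' → ρ i ≠ ρ j := by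
    intro ξ ξ' i j hne hi hj e
    rw [e, hj] at hi
    exact hne (mul_left_cancel₀ hD' hi).symm
  have hcop : ∀ ξ η : k, b.IsRoot ξ → (a ^ 2 - 4 * b).IsRoot η → ξ ≠ η := by
    rintro ξ _ h1 h3 rfl
    obtain ⟨u, v, huv⟩ := bd
    have := congrArg (eval ξ) huv
    rw [eval_add, eval_mul, eval_mul, IsRoot.def.1 h1, IsRoot.def.1 h3, mul_zero, mul_zero,
      add_zero, eval_one] at this
    exact zero_ne_one this
  refine ⟨h2, da, db, dd, sb, sd, bd, tb, td, f4, f1.1.2, f2.1.2.le, h5, hodd, ?_, ?_, ?_⟩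
  · intro ξ hξ
    obtain ⟨i, hi⟩ := hρ ξ hξ
    apply FF_unit hD'
    have := f3 i
    have e : C (algebraMap R k D) * fm q r ξ =
        C (algebraMap R k D) * q - C (algebraMap R k (ρ i)) * r := by
      rw [fm, hi, C_mul]; ring
    rw [e]
    exact this
  · intro ξ ξ' hξ hξ' hne
    obtain ⟨i, hi⟩ := hρ ξ hξ
    obtain ⟨j, hj⟩ := hρ ξ' hξ'
    obtain ⟨p, hp, e⟩ := h (Sum.inr (i, j, true))
    obtain ⟨e1, e2⟩ := e (hdiff hne hi hj)
    haveI := hp.1
    haveI := hp.2.1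
    refine ⟨_, _, hD', hD', ?_⟩
    rw [efm hi, efm hj]
    refine frob_pair (N := n) p k (hnd i) (hnd j) ?_ ?_
    · rw [hred]
      exact e1
    · rw [hred]
      exact e2
  · intro ξ η hξ hη
    obtain ⟨i, hi⟩ := hρ ξ (Or.inl hξ)
    obtain ⟨j, hj⟩ := hρ η (Or.inr hη)
    obtain ⟨p, hp, e⟩ := h (Sum.inr (i, j, false))
    have e1 := e (hdiff (hcop ξ η hξ hη) hi hj)
    haveI := hp.1
    haveI := hp.2.1
    refine ⟨_, _, hD', hD', ?_⟩
    rw [efm hi, efm hj]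
    refine frob_minor (N := n) p k (hnd i) (hnd j) ?_
    rw [hred, hred]
    exact e1

end bc

end Pool.Agent.K9h16.BT
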