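import Mathlib

/-!
An example of a base.
-/

set_option autoImplicit false
set_option linter.all false

open Polynomial
open scoped Classical

namespace Pool.Agent.K9h16.BT

variable {k : Type} [Field k]

theorem prodS (c : k) (hc : c ≠ 0) (S : Finset k) :
    (C c * ∏ x ∈ S, (X - C x)).natDegree = S.card ∧ (C c * ∏ x ∈ S, (X - C x)).Separable ∧
      (C c * ∏ x ∈ S, (X - C x)).Splits := by
  refine ⟨?_, ?_, ?_⟩
  · rw [natDegree_C_mul hc, natDegree_finset_prod_X_sub_C_eq_card]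
  · exact Separable.unit_mul (isUnit_C.2 (isUnit_iff_ne_zero.2 hc))
      (separable_prod_X_sub_C_iff'.2 fun x _ y _ h => h)
  · exact (Splits.prod fun x _ => Splits.X_sub_C x).C_mul c

theorem prodCop (c d : k) (hc : c ≠ 0) (hd : d ≠ 0) (S T : Finset k) (h : Disjoint S T) :
    IsCoprime (C c * ∏ x ∈ S, (X - C x)) (C d * ∏ x ∈ T, (X - C x)) := by
  refine (isCoprime_mul_unit_left_left (isUnit_C.2 (isUnit_iff_ne_zero.2 hc)) _ _).2
    ((isCoprime_mul_unit_left_right (isUnit_C.2 (isUnit_iff_ne_zero.2 hd)) _ _).2 ?_)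
  refine IsCoprime.prod_left fun x hx => IsCoprime.prod_right fun y hy => ?_
  refine isCoprime_X_sub_C_of_isUnit_sub (isUnit_iff_ne_zero.2 (sub_ne_zero.2 ?_))
  rintro rfl
  exact Finset.disjoint_left.1 h hx hy

theorem ne_sub {x y c : k} (hc : c ≠ 0) (e : x - y = c) : x ≠ y := by
  rintro rfl
  exact hc (by rw [← e, sub_self])

/-- The example `a = 6 (X² - 24)`, `b = -3 (X² - 4) (X² - 144)`,
`a² - 4 b = 48 (X² - 9) (X² - 64)`. -/
theorem exa (h : (2310 : k) ≠ 0) {a b : k[X]} (ha : a = 6 * (X ^ 2 - 24))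
    (hb : b = -3 * ((X ^ 2 - 4) * (X ^ 2 - 144))) :
    a.natDegree ≤ 2 ∧ b.natDegree = 4 ∧ (a ^ 2 - 4 * b).natDegree = 4 ∧ b.Separable ∧
      (a ^ 2 - 4 * b).Separable ∧ IsCoprime b (a ^ 2 - 4 * b) ∧
      (b * (a ^ 2 - 4 * b)).Splits := by
  have e0 : (2310 : k) = 2 * 3 * 5 * 7 * 11 := by norm_num
  rw [e0] at h
  have h11 : (11 : k) ≠ 0 := right_ne_zero_of_mul h
  have h' := left_ne_zero_of_mul h
  have h7 : (7 : k) ≠ 0 := right_ne_zero_of_mul h'
  have h'' := left_ne_zero_of_mul h'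
  have h5 : (5 : k) ≠ 0 := right_ne_zero_of_mul h''
  have h''' := left_ne_zero_of_mul h''
  have h3 : (3 : k) ≠ 0 := right_ne_zero_of_mul h'''
  have h2 : (2 : k) ≠ 0 := left_ne_zero_of_mul h'''
  have n1 : (1 : k) ≠ 0 := one_ne_zero
  have n (i j l : ℕ) : (2 : k) ^ i * 3 ^ j * 5 ^ l ≠ 0 :=
    mul_ne_zero (mul_ne_zero (pow_ne_zero _ h2) (pow_ne_zero _ h3)) (pow_ne_zero _ h5)
  obtain ⟨S, hS⟩ : ∃ S : Finset k, S = {2, -2, 12, -12} := ⟨_, rfl⟩
  obtain ⟨T, hT⟩ : ∃ T : Finset k, T = {3, -3, 8, -8} := ⟨_, rfl⟩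
  have a1 : (2 : k) ≠ -2 := ne_sub (n 2 0 0) (by norm_num)
  have a2 : (2 : k) ≠ 12 := (ne_sub (n 1 0 1) (by norm_num) : (12 : k) ≠ 2).symm
  have a3 : (2 : k) ≠ -12 := ne_sub (mul_ne_zero h2 h7) (by norm_num)
  have a4 : (-2 : k) ≠ 12 := (ne_sub (mul_ne_zero h2 h7) (by norm_num) : (12 : k) ≠ -2).symm
  have a5 : (-2 : k) ≠ -12 := ne_sub (n 1 0 1) (by norm_num)
  have a6 : (12 : k) ≠ -12 := ne_sub (n 3 1 0) (by norm_num)
  have b1 : (3 : k) ≠ -3 := ne_sub (n 1 1 0) (by norm_num)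
  have b2 : (3 : k) ≠ 8 := (ne_sub (n 0 0 1) (by norm_num) : (8 : k) ≠ 3).symm
  have b3 : (3 : k) ≠ -8 := ne_sub h11 (by norm_num)
  have b4 : (-3 : k) ≠ 8 := (ne_sub h11 (by norm_num) : (8 : k) ≠ -3).symm
  have b5 : (-3 : k) ≠ -8 := ne_sub (n 0 0 1) (by norm_num)
  have b6 : (8 : k) ≠ -8 := ne_sub (n 4 0 0) (by norm_num)
  have sS : ∏ x ∈ S, (X - C x) = (X - C 2) * ((X - C (-2)) * ((X - C 12) * (X - C (-12)))) := by
    rw [hS, Finset.prod_insert (by simp [a1, a2, a3]), Finset.prod_insert (by simp [a4, a5]),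
      Finset.prod_insert (by simp [a6]), Finset.prod_singleton]
  have sT : ∏ x ∈ T, (X - C x) = (X - C 3) * ((X - C (-3)) * ((X - C 8) * (X - C (-8)))) := by
    rw [hT, Finset.prod_insert (by simp [b1, b2, b3]), Finset.prod_insert (by simp [b4, b5]),
      Finset.prod_insert (by simp [b6]), Finset.prod_singleton]
  have cS : S.card = 4 := by
    rw [hS, Finset.card_insert_of_notMem (by simp [a1, a2, a3]),
      Finset.card_insert_of_notMem (by simp [a4, a5]),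
      Finset.card_insert_of_notMem (by simp [a6]), Finset.card_singleton]
  have cT : T.card = 4 := by
    rw [hT, Finset.card_insert_of_notMem (by simp [b1, b2, b3]),
      Finset.card_insert_of_notMem (by simp [b4, b5]),
      Finset.card_insert_of_notMem (by simp [b6]), Finset.card_singleton]
  have hdis : Disjoint S T := by
    rw [Finset.disjoint_left]
    intro x hx hy
    rw [hS] at hx
    rw [hT] at hy
    simp only [Finset.mem_insert, Finset.mem_singleton] at hx hy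
    rcases hx with rfl | rfl | rfl | rfl <;> rcases hy with h | h | h | h
    · exact (ne_sub n1 (by norm_num) : (3 : k) ≠ 2) h.symm
    · exact (ne_sub h5 (by norm_num) : (2 : k) ≠ -3) h
    · exact (ne_sub (n 1 1 0) (by norm_num) : (8 : k) ≠ 2) h.symm
    · exact (ne_sub (n 1 0 1) (by norm_num) : (2 : k) ≠ -8) h
    · exact (ne_sub h5 (by norm_num) : (3 : k) ≠ -2) h.symm
    · exact (ne_sub n1 (by norm_num) : (-2 : k) ≠ -3) h
    · exact (ne_sub (n 1 0 1) (by norm_num) : (8 : k) ≠ -2) h.symm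
    · exact (ne_sub (n 1 1 0) (by norm_num) : (-2 : k) ≠ -8) h
    · exact (ne_sub (n 0 2 0) (by norm_num) : (12 : k) ≠ 3) h
    · exact (ne_sub (n 0 1 1) (by norm_num) : (12 : k) ≠ -3) h
    · exact (ne_sub (n 2 0 0) (by norm_num) : (12 : k) ≠ 8) h
    · exact (ne_sub (n 2 0 1) (by norm_num) : (12 : k) ≠ -8) h
    · exact (ne_sub (n 0 1 1) (by norm_num) : (3 : k) ≠ -12) h.symm
    · exact (ne_sub (n 0 2 0) (by norm_num) : (-3 : k) ≠ -12) h.symm
    · exact (ne_sub (n 2 0 1) (by norm_num) : (8 : k) ≠ -12) h.symm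
    · exact (ne_sub (n 2 0 0) (by norm_num) : (-8 : k) ≠ -12) h.symm
  have eb : b = C (-3) * ∏ x ∈ S, (X - C x) := by
    rw [hb, sS]
    simp only [C_neg, C_ofNat]
    ring
  have ed : a ^ 2 - 4 * b = C 48 * ∏ x ∈ T, (X - C x) := by
    rw [hb, ha, sT]
    simp only [C_neg, C_ofNat]
    ring
  have c3 : (-3 : k) ≠ 0 := neg_ne_zero.2 h3
  have c48 : (48 : k) ≠ 0 := by
    have := n 4 1 0
    norm_num at this
    exact this
  obtain ⟨s1, s2, s3⟩ := prodS (-3 : k) c3 S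
  obtain ⟨t1, t2, t3⟩ := prodS (48 : k) c48 T
  rw [ed, eb]
  refine ⟨?_, s1.trans cS, t1.trans cT, s2, t2, prodCop _ _ c3 c48 S T hdis, s3.mul t3⟩
  have e6 : a = C 6 * (X ^ 2 - C 24) := by
    rw [ha]
    simp only [C_ofNat]
  rw [e6]
  refine (natDegree_C_mul_le _ _).trans ?_
  rw [natDegree_X_pow_sub_C]

end Pool.Agent.K9h16.BT
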