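import Pool.Agent.K9h16.BT.Cmb
import Pool.Agent.K9h16.BT.Avg
import Pool.Agent.K9h16.PT.Fin
import Pool.Agent.N601.PB.Hom

/-!
All the finite separable extensions of the field of constants, and the sections over the separable
closure.
-/

set_option autoImplicit false
set_option linter.all false

open Polynomial IsDedekindDomain WeierstrassCurve WeierstrassCurve.Affine
open scoped Classical Pointwise

namespace Pool.Agent.K9h16.BT

open Pool.Agent.TH115.GD Pool.Agent.K9h16.PT Pool.Agent.K9h16.QT Pool.Agent.R939.EI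
open Pool.Agent.X243.Gen (pb pb_sum pb_mul pb_C pb_one pb_pow pb_lin pb_map pb_frac pb_ne exists_psi
  root_of_prime form_cop natDegree_pb_le pb_prod FF gen0I)
open Pool.Agent.N181.P3 (hb hb_map hb_sum hb_psi natDegree_hb_le)
open Pool.Agent.N181.P8 (TateQ)
open Pool.Agent.N181.P9 (surf2)
open Pool.Agent.N181.T3 (IsTCL IsInvL IsTML)

section conv

variable {K F : Type} [Field K] [Field F] [Algebra K F] {W : WeierstrassCurve K}

theorem tcl_tc {c : Cc W F} (h : IsTCL W 2 c) : IsTC W c := ⟨h.coc, h.zero, h.mul⟩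

theorem invl_inv {c : Cc W F} (h : IsInvL W 2 c) (τ : Sep F ≃ₐ[K] Sep F) :
    ∃ (m : ℕ) (Q : ℕ → Pt W (Sep F)), IsTM W Q ∧
      ∀ (n : ℕ) (σ σ' : Sep F ≃ₐ[F] Sep F), (∀ x, τ (σ' x) = σ (τ x)) →
        2 ^ m • (act W (ak τ) (c n σ') - c n σ) = act W (rs K σ) (Q n) - Q n := by
  obtain ⟨m, Q, hQ, e⟩ := h τ
  exact ⟨m, Q, ⟨hQ.zero, hQ.mul⟩, e⟩

end conv

section fin

variable {k L L' K F : Type} [Field k] [Field L] [Field L'] [Algebra k L] [Algebra L L']
    [Algebra k L'] [IsScalarTower k L L'] [FiniteDimensional k L] [Algebra.IsSeparable k L]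
    [Field K] [Algebra L[X] K] [Field F] [Algebra L'[X] F] [IsFractionRing L'[X] F] [Algebra K F]
    (hT : IsTower L L' K F)

omit [Algebra k L'] [IsScalarTower k L L'] [FiniteDimensional k L] [Algebra.IsSeparable k L]
  [Field K] [Algebra L[X] K] [Field F] [Algebra L'[X] F] [IsFractionRing L'[X] F] [Algebra K F]
  [Algebra k L] [Algebra L L'] [Field L'] [Field k] in
theorem hb_C_mul {q r : L[X]} {M : ℕ} {δ : L} (hδ : δ ≠ 0) (g : L[X]) :
    hb q r M (C δ * g) = C δ * hb q r M g := by
  rw [hb, hb, natDegree_C_mul hδ, pb_mul, pb_C]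
  ring

include hT in
/-- The Tate conjecture over all the finite separable extensions. -/
theorem fin_tate' {n : ℕ} {q r a b : k[X]} (hB : BC n q r a b) {δ : L} (hδ : δ ≠ 0) :
    TateQ (F := F) 2 L' (surf2 K (q.map (algebraMap k L)) (r.map (algebraMap k L))
      (C δ * a.map (algebraMap k L)) (C (δ ^ 2) * b.map (algebraMap k L))) := by
  haveI := hT.sep
  haveI := hT.fracK
  haveI : IsSepClosed L' := IsSepClosure.sep_closed L
  haveI : Algebra.IsSeparable L L' := IsSepClosure.separable
  haveI : Algebra.IsSeparable k L' := Algebra.IsSeparable.trans k L L'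
  haveI : IsSepClosure k L' := ⟨inferInstance, inferInstance⟩
  haveI : IsGalois k L' := IsSepClosure.isGalois
  haveI : IsGalois L L' := IsSepClosure.isGalois
  haveI : IsSepClosure K (Sep F) := sepKΩ hT.map
  haveI : Algebra.IsSeparable K (Sep F) := IsSepClosure.separable
  haveI : IsGalois K (Sep F) := IsSepClosure.isGalois
  obtain ⟨K1, _, _, _, hT1⟩ := mk_tower k L' F
  haveI := hT1.fracK
  -- the pullback
  have hco : IsCoprime (q.map (algebraMap k L')) (r.map (algebraMap k L')) :=
    hB.cop.map (mapRingHom (algebraMap k L'))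
  have n5 := hB.n5
  obtain ⟨ψ, hψ0⟩ := exists_psi (K₀ := FractionRing L'[X]) (K := F) (RingHom.id L')
    (q := q.map (algebraMap k L')) (r := r.map (algebraMap k L'))
    ((Polynomial.map_ne_zero_iff (algebraMap k L').injective).2 hB.r0) (fun g hg =>
      pb_ne hco (by rw [natDegree_map, hB.dq]; omega) (by rw [Polynomial.map_id]; exact hg))
  letI : Algebra (FractionRing L'[X]) F := ψ.toAlgebra
  have hψ : IsPsi (FractionRing L'[X]) F (q.map (algebraMap k L')) (r.map (algebraMap k L')) := by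
    intro g
    have := hψ0 g
    rw [Polynomial.map_id] at this
    exact this
  obtain ⟨S₀, hS₀⟩ := cmb hT1 hB hψ
  have h2L' : (2 : L') ≠ 0 := by
    rw [← map_ofNat (algebraMap k L') 2]
    exact (map_ne_zero_iff _ (algebraMap k L').injective).2 hB.h2
  haveI : NeZero ((2 : ℕ) : L') := ⟨by rw [Nat.cast_ofNat]; exact h2L'⟩
  obtain ⟨ρ, hρ⟩ : ∃ ρ : L', ρ ^ 2 = algebraMap L L' δ⁻¹ := IsSepClosed.exists_pow_nat_eq _ 2
  have hδ' : algebraMap L L' δ ≠ 0 := (_root_.map_ne_zero _).2 hδ
  have hρ0 : ρ ≠ 0 := by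
    rintro rfl
    rw [zero_pow two_ne_zero, map_inv₀] at hρ
    exact inv_ne_zero hδ' hρ.symm
  -- the transport
  have htr : IsTrT (F := F) (algebraMap L[X] K (hb (q.map (algebraMap k L)) (r.map (algebraMap k L)) 2
        (C δ * a.map (algebraMap k L))))
      (algebraMap L[X] K (hb (q.map (algebraMap k L)) (r.map (algebraMap k L)) 4
        (C (δ ^ 2) * b.map (algebraMap k L))))
      (algebraMap k[X] K1 (hb q r 2 a)) (algebraMap k[X] K1 (hb q r 4 b)) (cst L' F ρ) := by
    have e0 : ∀ (p : k[X]) (x : L'), x ≠ 0 → algebraMap K1 F (algebraMap k[X] K1 p) =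
        cst L' F x⁻¹ * algebraMap L'[X] F (C x * p.map (algebraMap k L')) := by
      intro p x hx
      rw [hT1.map, map_mul, ← mul_assoc]
      have e1 : cst L' F x⁻¹ * algebraMap L'[X] F (C x) = 1 := by
        have : cst L' F x⁻¹ = algebraMap L'[X] F (C x⁻¹) := rfl
        rw [this, ← map_mul, ← C_mul, inv_mul_cancel₀ hx, C_1, map_one]
      rw [e1, one_mul]
    have eh : ∀ (m : ℕ) (g : k[X]), (hb (q.map (algebraMap k L)) (r.map (algebraMap k L)) m
        (g.map (algebraMap k L))).map (algebraMap L L') =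
        (hb q r m g).map (algebraMap k L') := by
      intro m g
      rw [hb_map, hb_map, Polynomial.map_map, Polynomial.map_map, Polynomial.map_map,
        ← IsScalarTower.algebraMap_eq]
    rw [hb_C_mul hδ, hb_C_mul (pow_ne_zero 2 hδ)]
    refine ⟨(_root_.map_ne_zero _).2 hρ0, ?_, ?_⟩
    · rw [e0 _ _ hδ', hT.map, Polynomial.map_mul, map_C, eh, ← map_pow, hρ,
        map_inv₀ (algebraMap L L')]
    · have e4 : ρ ^ 4 = algebraMap L L' (δ ^ 2)⁻¹ := by
        have : ρ ^ 4 = (ρ ^ 2) ^ 2 := by ring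
        rw [this, hρ, ← map_pow, inv_pow]
      rw [e0 _ _ (pow_ne_zero 2 hδ'), hT.map, Polynomial.map_mul, map_C, eh,
        ← map_pow (cst L' F), e4, map_inv₀ (algebraMap L L'), map_pow (algebraMap L L')]
  -- the field `M`
  obtain ⟨S, hSS⟩ : ∃ S : Set L', S = ((S₀ : Set L') ∪ {ρ}) ∪ Set.range
    (fun i => algebraMap L L' (Module.finBasis k L i)) := ⟨_, rfl⟩
  have hSf : S.Finite := by
    rw [hSS]
    exact ((Finset.finite_toSet _).union (Set.finite_singleton _)).union (Set.finite_range _)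
  haveI : Finite S := hSf
  obtain ⟨M, hM⟩ : ∃ M : FiniteGaloisIntermediateField k L',
    M = FiniteGaloisIntermediateField.adjoin k S := ⟨_, rfl⟩
  have hSM : ∀ x ∈ S, x ∈ M.toIntermediateField := by
    rw [hM]
    exact fun x hx => FiniteGaloisIntermediateField.subset_adjoin k S hx
  have hρM : ρ ∈ M.toIntermediateField := hSM _ (by rw [hSS]; exact Or.inl (Or.inr rfl))
  have hLM : ∀ x : L, algebraMap L L' x ∈ M.toIntermediateField := by
    intro x
    rw [← (Module.finBasis k L).sum_repr x, map_sum]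
    refine sum_mem fun i _ => ?_
    rw [Algebra.smul_def, map_mul, ← IsScalarTower.algebraMap_apply]
    exact mul_mem (M.toIntermediateField.algebraMap_mem _)
      (hSM _ (by rw [hSS]; exact Or.inr ⟨i, rfl⟩))
  haveI : FiniteDimensional k M.toIntermediateField := M.finiteDimensional
  haveI : IsGalois k M.toIntermediateField := M.isGalois
  haveI : Normal k M.toIntermediateField := inferInstance
  -- the field `M L`
  obtain ⟨S', hSS'⟩ : ∃ S' : Set L', S' = Set.range
    (fun i => ((Module.finBasis k M.toIntermediateField i : M.toIntermediateField) : L')) :=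
    ⟨_, rfl⟩
  have hSf' : S'.Finite := by
    rw [hSS']
    exact Set.finite_range _
  haveI : Finite S' := hSf'
  obtain ⟨M', hM'⟩ : ∃ M' : FiniteGaloisIntermediateField L L',
    M' = FiniteGaloisIntermediateField.adjoin L S' := ⟨_, rfl⟩
  have hMM' : ∀ x ∈ M.toIntermediateField, x ∈ M'.toIntermediateField := by
    intro x hx
    have h1 := (Module.finBasis k M.toIntermediateField).sum_repr ⟨x, hx⟩
    have h2 : x = ∑ i, algebraMap k L' ((Module.finBasis k M.toIntermediateField).repr ⟨x, hx⟩ i) *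
        ((Module.finBasis k M.toIntermediateField i : M.toIntermediateField) : L') := by
      have h3 := congrArg (fun y : M.toIntermediateField => (y : L')) h1
      simp only at h3
      refine h3.symm.trans ?_
      rw [IntermediateField.coe_sum]
      refine Finset.sum_congr rfl fun i _ => ?_
      rw [Algebra.smul_def]
      rfl
    rw [h2]
    refine sum_mem fun i _ => mul_mem ?_ ?_
    · rw [IsScalarTower.algebraMap_apply k L L']
      exact M'.toIntermediateField.algebraMap_mem _
    · rw [hM']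
      exact FiniteGaloisIntermediateField.subset_adjoin L S' (by rw [hSS']; exact ⟨i, rfl⟩)
  haveI : FiniteDimensional L M'.toIntermediateField := M'.finiteDimensional
  haveI : IsGalois L M'.toIntermediateField := M'.isGalois
  haveI : Normal L M'.toIntermediateField := inferInstance
  obtain ⟨hcls, -⟩ := hS₀ (HM L' K1 F (M.toIntermediateField : Set L'))
    (HM_normal hT1 M.toIntermediateField) (HM_fin hT1 M.toIntermediateField) (fun τ hτ x hx =>
      hτ x (hSM x (by rw [hSS]; exact Or.inl (Or.inl hx))))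
  -- the class
  intro c hc hl hi
  have hpc : PC L' _ (⊤ : Subgroup (Sep F ≃ₐ[K] Sep F)) c :=
    ⟨tcl_tc hc, hl, fun τ _ => invl_inv hi τ⟩
  have hpc1 := pc_tr htr (H' := HM L' K1 F (M.toIntermediateField : Set L')) (fun τ' hτ' => by
    obtain ⟨s, hs⟩ := exists_restr hT1 τ'
    have hsM := (lifts_mem_HM hs _).1 hτ'
    have hfix : ∀ p : L[X], τ' (algebraMap K (Sep F) (algebraMap L[X] K p)) =
        algebraMap K (Sep F) (algebraMap L[X] K p) := by
      intro p
      rw [IsScalarTower.algebraMap_apply K F (Sep F), hT.map, hs, Polynomial.map_map]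
      congr 3
      ext x
      exact hsM _ (hLM x)
    refine ⟨AlgEquiv.ofRingEquiv (f := τ'.toRingEquiv) (by
      intro x
      obtain ⟨n, d, hd, rfl⟩ := IsFractionRing.div_surjective (A := L[X]) x
      show τ' _ = _
      rw [map_div₀, map_div₀, hfix, hfix]), trivial, fun x => rfl, ?_⟩
    exact hτ' ρ hρM) hpc
  haveI hfinI := HM_fin hT M'.toIntermediateField
  refine avg (preserves hT.map) (HM L' K F (M'.toIntermediateField : Set L'))
    Subgroup.finite_quotient_of_finiteIndex two_ne_zero hc hi fun m => ?_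
  obtain ⟨X, R, hX, hXfix, hcR⟩ := hcls _ hpc1 m
  refine ⟨PhiT htr.symm (Sep F) X, PhiT htr.symm (Sep F) R, by rw [← map_nsmul, hX],
    fun τ hτ => ?_, fun σ => ?_⟩
  · -- the restriction of `τ`
    have hfix : ∀ p : k[X], τ (algebraMap K1 (Sep F) (algebraMap k[X] K1 p)) =
        algebraMap K1 (Sep F) (algebraMap k[X] K1 p) := by
      intro p
      have e : algebraMap K1 (Sep F) (algebraMap k[X] K1 p) =
          algebraMap K (Sep F) (algebraMap L[X] K (p.map (algebraMap k L))) := by
        rw [IsScalarTower.algebraMap_apply K1 F (Sep F), hT1.map,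
          IsScalarTower.algebraMap_apply K F (Sep F), hT.map, Polynomial.map_map,
          ← IsScalarTower.algebraMap_eq]
      rw [e, τ.commutes]
    obtain ⟨τ', hτ'⟩ : ∃ τ' : Sep F ≃ₐ[K1] Sep F, ∀ x, τ' x = τ x :=
      ⟨AlgEquiv.ofRingEquiv (f := τ.toRingEquiv) (by
        intro x
        obtain ⟨n, d, hd, rfl⟩ := IsFractionRing.div_surjective (A := k[X]) x
        show τ _ = _
        rw [map_div₀, map_div₀, hfix, hfix]), fun x => rfl⟩
    have h1 := PhiT_semi htr.symm τ' τ hτ' (ε := 1) (by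
      rw [Units.val_one, Int.cast_one, one_mul, map_inv₀ (algebraMap F (Sep F)), map_inv₀, hτ',
        hτ ρ (hMM' ρ hρM)]) X
    rw [Units.val_one, one_smul] at h1
    refine h1.trans ?_
    rw [hXfix τ' (fun x hx => by
      rw [hτ']
      exact hτ x (hMM' x hx))]
  · have h1 := hcR σ
    have h3 : PhiT htr.symm (Sep F) (trCT htr c m σ) = c m σ := PhiT_symm' htr (Sep F) (c m σ)
    rw [← h3, h1, map_sub]
    congr 1
    exact (PhiT_rs htr.symm σ R).symm

end fin

section fin'

variable {k L L' K F : Type} [Field k] [Field L] [Field L'] [Algebra k L] [Algebra L L']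
    [FiniteDimensional k L] [Algebra.IsSeparable k L]
    [Field K] [Algebra L[X] K] [Field F] [Algebra L'[X] F] [IsFractionRing L'[X] F] [Algebra K F]
    (hT : IsTower L L' K F)

include hT in
/-- **The Tate conjecture over all the finite separable extensions.** -/
theorem fin_tate {n : ℕ} {q r a b : k[X]} (hB : BC n q r a b) {δ : L} (hδ : δ ≠ 0) :
    TateQ (F := F) 2 L' (surf2 K (q.map (algebraMap k L)) (r.map (algebraMap k L))
      (C δ * a.map (algebraMap k L)) (C (δ ^ 2) * b.map (algebraMap k L))) := by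
  letI : Algebra k L' := ((algebraMap L L').comp (algebraMap k L)).toAlgebra
  haveI : IsScalarTower k L L' := IsScalarTower.of_algebraMap_eq fun x => rfl
  exact fin_tate' hT hB hδ

end fin'

section sec

/-- `Q` is the image of `P` under `(x, y) ↦ (ρ² ψ(x), ρ³ ψ(y))`. -/
def IsPull {F₀ F : Type} [Field F₀] [Field F] (ψ : F₀ →+* F) (ρ : F) {W₀ : Affine F₀} {W : Affine F}
    (P : W₀.Point) (Q : W.Point) : Prop :=
  (P = 0 ∧ Q = 0) ∨ ∃ (x y : F₀) (h : W₀.Nonsingular x y)
    (h' : W.Nonsingular (ρ ^ 2 * ψ x) (ρ ^ 3 * ψ y)), P = Point.some x y h ∧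
      Q = Point.some (ρ ^ 2 * ψ x) (ρ ^ 3 * ψ y) h'

variable {k k' K F : Type} [Field k] [Field k'] [Algebra k k'] [Field K] [Algebra k[X] K]
    [Field F] [Algebra k'[X] F] [IsFractionRing k'[X] F] [Algebra K F]
    (hT : IsTower k k' K F)
    {F₀ : Type} [Field F₀] [Algebra k'[X] F₀] [IsFractionRing k'[X] F₀]

include hT in
/-- **The sections over the separable closure of the constants come from the base modulo two.** -/
theorem sections {n : ℕ} {q r a b : k[X]} (hB : BC n q r a b) (ψ : F₀ →+* F)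
    (h1 : ∀ c : k', ψ (algebraMap k'[X] F₀ (C c)) = algebraMap k'[X] F (C c))
    (h3 : ψ (algebraMap k'[X] F₀ X) * algebraMap k'[X] F (r.map (algebraMap k k')) =
      algebraMap k'[X] F (q.map (algebraMap k k'))) :
    ∃ ι : Pt (crvT (algebraMap k'[X] F₀ (a.map (algebraMap k k')))
        (algebraMap k'[X] F₀ (b.map (algebraMap k k')))) F₀ →+ Pt (surf2 K q r a b) F,
      Function.Injective ι ∧
      (∀ P₀, IsPull ψ (algebraMap k'[X] F (r.map (algebraMap k k'))) P₀ (ι P₀)) ∧
      (∀ P : Pt (surf2 K q r a b) F, ∃ P₀ V, P = ι P₀ + (V + V)) ∧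
      (AddGroup.FG (Pt (surf2 K q r a b) F) → ∃ m : ℕ, Odd m ∧
        ∀ P : Pt (surf2 K q r a b) F, ∃ P₀, m • P = ι P₀) := by
  haveI := hT.sep
  haveI := hT.fracK
  haveI : IsGalois k k' := IsSepClosure.isGalois
  letI : Algebra F₀ F := ψ.toAlgebra
  have hr0 : r.map (algebraMap k k') ≠ 0 :=
    (Polynomial.map_ne_zero_iff (algebraMap k k').injective).2 hB.r0
  have hr : algebraMap k'[X] F (r.map (algebraMap k k')) ≠ 0 := by simpa using hr0
  have hψ : IsPsi F₀ F (q.map (algebraMap k k')) (r.map (algebraMap k k')) := by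
    intro g
    rw [pb_frac _ hr0]
    congr 1
    have h5 : ψ (algebraMap k'[X] F₀ X) = algebraMap k'[X] F (q.map (algebraMap k k')) /
        algebraMap k'[X] F (r.map (algebraMap k k')) := by
      rw [← h3, mul_div_cancel_right₀ _ hr]
    rw [← h5]
    show _ = ψ (algebraMap k'[X] F₀ g)
    have h6 : eval₂RingHom ((algebraMap k'[X] F).comp C) (ψ (algebraMap k'[X] F₀ X)) =
        ψ.comp (algebraMap k'[X] F₀) := by
      apply Polynomial.ringHom_ext
      · intro c
        rw [coe_eval₂RingHom, eval₂_C]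
        exact (h1 c).symm
      · rw [coe_eval₂RingHom, eval₂_X]
        rfl
    exact congrArg (fun f : k'[X] →+* F => f g) h6
  obtain ⟨S₀, hS₀⟩ := cmb hT hB hψ
  have hmod : ∀ P : Pt (surf2 K q r a b) F, ∃ P₀ V, P = pull (hB.sid.tr hT hψ) P₀ + (V + V) := by
    intro P
    obtain ⟨S₁, hS₁⟩ := exists_coefP hT (surf2 K q r a b) P
    obtain ⟨S, hSS⟩ : ∃ S : Set k', S = (S₀ : Set k') ∪ (S₁ : Set k') := ⟨_, rfl⟩
    have hSf : S.Finite := by
      rw [hSS]
      exact (Finset.finite_toSet _).union (Finset.finite_toSet _)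
    haveI : Finite S := hSf
    obtain ⟨M, hM⟩ : ∃ M : FiniteGaloisIntermediateField k k',
      M = FiniteGaloisIntermediateField.adjoin k S := ⟨_, rfl⟩
    have hSM : ∀ x ∈ S, x ∈ M.toIntermediateField := by
      rw [hM]
      exact fun x hx => FiniteGaloisIntermediateField.subset_adjoin k S hx
    haveI : FiniteDimensional k M.toIntermediateField := M.finiteDimensional
    haveI : IsGalois k M.toIntermediateField := M.isGalois
    haveI : Normal k M.toIntermediateField := inferInstance
    obtain ⟨-, hsec⟩ := hS₀ (HM k' K F (M.toIntermediateField : Set k'))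
      (HM_normal hT M.toIntermediateField) (HM_fin hT M.toIntermediateField) (fun τ hτ x hx =>
        hτ x (hSM x (by rw [hSS]; exact Or.inl hx)))
    obtain ⟨P₀, V, e⟩ := hsec P (fun τ hτ => hS₁ τ (fun x hx =>
      hτ x (hSM x (by rw [hSS]; exact Or.inr hx))))
    exact ⟨P₀, V, e⟩
  refine ⟨pull (hB.sid.tr hT hψ), ?_, ?_, hmod, fun hfg => ?_⟩
  · intro P P' h
    have h7 : PhiT (hB.sid.tr hT hψ) F (act _ (incl F₀ F₀ F) P) =
      PhiT (hB.sid.tr hT hψ) F (act _ (incl F₀ F₀ F) P') := h
    have h8 := congrArg (PhiT (hB.sid.tr hT hψ).symm F) h7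
    rw [PhiT_symm', PhiT_symm'] at h8
    exact Pool.Agent.TH115.GD.act_inj _ (incl F₀ F₀ F) h8
  · intro P₀
    rcases P₀ with _ | ⟨x, y, hn⟩
    · exact Or.inl ⟨rfl, map_zero (pull (hB.sid.tr hT hψ))⟩
    · right
      obtain ⟨hn1, e1⟩ := act_some (crvT (algebraMap k'[X] F₀ (a.map (algebraMap k k')))
          (algebraMap k'[X] F₀ (b.map (algebraMap k k')))) (incl F₀ F₀ F) hn
      obtain ⟨hn2, e3⟩ := PhiT_some (hB.sid.tr hT hψ) F hn1
      exact ⟨x, y, hn, hn2, rfl, (congrArg _ e1).trans e3⟩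
  · obtain ⟨m, hm, hm'⟩ := Pool.Agent.N601.PB.odd_exponent (pull (hB.sid.tr hT hψ)).range hfg
      (fun P => by
        obtain ⟨P₀, V, e⟩ := hmod P
        exact ⟨V, pull (hB.sid.tr hT hψ) P₀, ⟨P₀, rfl⟩, by rw [e]; abel⟩)
    refine ⟨m, hm, fun P => ?_⟩
    obtain ⟨P₀, e⟩ := hm' P
    exact ⟨P₀, e.symm⟩

end sec

end Pool.Agent.K9h16.BT
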