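import Pool.Agent.K9h16.QT.Van

/-!
The classes of the points.
-/

set_option autoImplicit false
set_option linter.all false

open Polynomial IsDedekindDomain WeierstrassCurve WeierstrassCurve.Affine
open scoped Classical Pointwise

namespace Pool.Agent.K9h16.BT

open Pool.Agent.TH115.GD Pool.Agent.K9h16.PT Pool.Agent.K9h16.QT Pool.Agent.R939.EI

section ks

variable {K F : Type} [Field K] [Field F] [Algebra K F] {W W' : WeierstrassCurve K}
  {H : Subgroup (Sep F ≃ₐ[K] Sep F)}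

/-- A system of halves of a point over `F` which is fixed by `H`. -/
structure KS (W : WeierstrassCurve K) (H : Subgroup (Sep F ≃ₐ[K] Sep F))
    (R : ℕ → Pt W (Sep F)) : Prop where
  two : ∀ n, R (n + 1) + R (n + 1) = R n
  fixF : ∀ σ : Sep F ≃ₐ[F] Sep F, act W (rs K σ) (R 0) = R 0
  fixH : ∀ τ ∈ H, act W (ak τ) (R 0) = R 0

/-- The class of the point. -/
noncomputable def kap (R : ℕ → Pt W (Sep F)) : Cc W F := fun n σ => act W (rs K σ) (R n) - R n

theorem kap_add (R R' : ℕ → Pt W (Sep F)) : kap (R + R') = kap R + kap R' := by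
  funext n σ
  show act W (rs K σ) (R n + R' n) - (R n + R' n) =
    (act W (rs K σ) (R n) - R n) + (act W (rs K σ) (R' n) - R' n)
  rw [map_add]
  abel

theorem KS.zero : KS W H (0 : ℕ → Pt W (Sep F)) :=
  ⟨fun _ => add_zero _, fun _ => map_zero _, fun _ _ => map_zero _⟩

theorem kap_zero : kap (0 : ℕ → Pt W (Sep F)) = 0 := by
  funext n σ
  show act W (rs K σ) 0 - 0 = 0
  rw [map_zero, sub_zero]

theorem KS.add {R R' : ℕ → Pt W (Sep F)} (h : KS W H R) (h' : KS W H R') : KS W H (R + R') := by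
  refine ⟨fun n => ?_, fun σ => ?_, fun τ hτ => ?_⟩
  · show R (n + 1) + R' (n + 1) + (R (n + 1) + R' (n + 1)) = R n + R' n
    rw [add_add_add_comm, h.two, h'.two]
  · show act W (rs K σ) (R 0 + R' 0) = R 0 + R' 0
    rw [map_add, h.fixF, h'.fixF]
  · show act W (ak τ) (R 0 + R' 0) = R 0 + R' 0
    rw [map_add, h.fixH τ hτ, h'.fixH τ hτ]

theorem KS.smul {R : ℕ → Pt W (Sep F)} (h : KS W H R) (m : ℕ) : KS W H (m • R) ∧
    kap (m • R) = m • kap R := by
  induction m with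
  | zero => exact ⟨by rw [zero_smul]; exact KS.zero, by rw [zero_smul, zero_smul, kap_zero]⟩
  | succ m ih => exact ⟨by rw [succ_nsmul]; exact ih.1.add h, by
      rw [succ_nsmul, succ_nsmul, kap_add, ih.2]⟩

theorem KS.push {R : ℕ → Pt W (Sep F)} (φ : NH W W') (h : KS W H R) :
    KS W' H (fun n => φ.f (Sep F) (R n)) := by
  refine ⟨fun n => ?_, fun σ => ?_, fun τ hτ => ?_⟩
  · rw [← map_add, h.two]
  · rw [φ.nat, h.fixF]
  · rw [φ.nat, h.fixH τ hτ]

theorem kap_push (φ : NH W W') (R : ℕ → Pt W (Sep F)) :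
    kap (fun n => φ.f (Sep F) (R n)) = push φ (kap R) := by
  funext n σ
  show act W' (rs K σ) (φ.f (Sep F) (R n)) - φ.f (Sep F) (R n) =
    φ.f (Sep F) (act W (rs K σ) (R n) - R n)
  rw [map_sub, φ.nat]

theorem KS.pow {R : ℕ → Pt W (Sep F)} (h : KS W H R) (n : ℕ) : 2 ^ n • R n = R 0 := by
  induction n with
  | zero => rw [pow_zero, one_smul]
  | succ n ih => rw [pow_succ, mul_smul, two_nsmul, h.two, ih]

variable {k' : Type} [Field k'] [Algebra k'[X] F] [IsFractionRing k'[X] F]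

theorem KS.pc {R : ℕ → Pt W (Sep F)} (h : KS W H R) : PC k' W H (kap R) := by
  refine ⟨⟨fun n => cob_isCoc _ _, fun σ => ?_, fun n σ => ?_⟩, fun n => ?_, fun τ hτ => ?_⟩
  · show act W (rs K σ) (R 0) - R 0 = 0
    rw [h.fixF, sub_self]
  · show 2 • (act W (rs K σ) (R (n + 1)) - R (n + 1)) = act W (rs K σ) (R n) - R n
    rw [smul_sub, ← map_nsmul, two_nsmul, h.two]
  · have h1 : LocallyTrivial k' W (fun _ : Sep F ≃ₐ[F] Sep F => (0 : Pt W (Sep F))) :=
      ⟨fun v => LocTriv.zero _, LocTriv.zero _⟩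
    have h3 := lt_subT h1 (-(R n))
    have e : (fun σ : Sep F ≃ₐ[F] Sep F => (0 : Pt W (Sep F)) -
        (act W (rs K σ) (-(R n)) - -(R n))) = fun σ => act W (rs K σ) (R n) - R n := by
      funext σ
      rw [map_neg]
      abel
    rw [e] at h3
    exact h3
  · refine ⟨0, fun n => act W (ak τ) (R n) - R n, ⟨?_, fun n => ?_⟩, fun n σ σ' hσ => ?_⟩
    · rw [h.fixH τ hτ, sub_self]
    · rw [smul_sub, ← map_nsmul, two_nsmul, h.two]
    · have hcomp : act W (ak τ) (act W (rs K σ') (R n)) = act W (rs K σ) (act W (ak τ) (R n)) := by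
        have h5 : (ak τ).comp (rs K σ') = (rs K σ).comp (ak τ) := AlgHom.ext fun x => hσ x
        rw [act_act, act_act, h5]
      show 2 ^ 0 • (act W (ak τ) (act W (rs K σ') (R n) - R n) -
        (act W (rs K σ) (R n) - R n)) = act W (rs K σ)
          (act W (ak τ) (R n) - R n) - (act W (ak τ) (R n) - R n)
      rw [pow_zero, one_smul, map_sub, hcomp, map_sub]
      abel

/-- A system of halves. -/
theorem exists_KS (hdiv : ∀ X : Pt W (Sep F), ∃ Y, Y + Y = X) {P : Pt W (Sep F)}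
    (hF : ∀ σ : Sep F ≃ₐ[F] Sep F, act W (rs K σ) P = P) (hH : ∀ τ ∈ H, act W (ak τ) P = P) :
    ∃ R : ℕ → Pt W (Sep F), R 0 = P ∧ KS W H R := by
  choose hv hhv using hdiv
  exact ⟨fun n => Nat.rec P (fun _ X => hv X) n, rfl, fun n => hhv _, hF, hH⟩

end ks

section par

variable {K F : Type} [Field K] [Field F] [Algebra K F] {H : Subgroup (Sep F ≃ₐ[K] Sep F)}
  {k' : Type} [Field k'] [Algebra k'[X] F] [IsFractionRing k'[X] F]
  {a b : K} {α β : Sep F} (hR : Roots a b (Sep F) α β)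

include hR in
/-- The parity function of the class of a point. -/
theorem pf_kap {R : ℕ → Pt (crvT a b) (Sep F)} (h : KS (crvT a b) H R) {P : Pt (crvT a b) F}
    (hP : R 0 = act (crvT a b) (incl K F (Sep F)) P) :
    PF (k' := k') (crvT a b) (kap R 1) (fun θ : k' => par (pl θ) (dT (algebraMap K F b) P)) := by
  have hR1 : R 1 + R 1 = R 0 := h.two 0
  have hRR : ∀ σ : Sep F ≃ₐ[F] Sep F, act (crvT a b) (rs K σ) (R 1 + R 1) = R 1 + R 1 := by
    intro σ
    rw [hR1, h.fixF]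
  refine ⟨h0 α β (R 1), dT (algebraMap K F b) P, h0_ne hR.E _, ?_, fun σ =>
    (sign0 hR hRR σ).2, fun θ => rfl⟩
  rw [h0_sq hR.E, hR1, hP, hR.d0_eq]
  exact dT_act (crvT a b) (incl K F (Sep F)) (algebraMap K F b) P

end par

section desc

variable {k k' K F : Type} [Field k] [Field k'] [Algebra k k'] [Field K] [Algebra k[X] K]
    [Field F] [Algebra k'[X] F] [IsFractionRing k'[X] F] [Algebra K F]
    (hT : IsTower k k' K F) {a b : k[X]} (hS : Sd a b)
  (hN : Preserves K F (Sep F)) {H : Subgroup (Sep F ≃ₐ[K] Sep F)}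

/-- The first descent: the parity function of each class is the parity function of the class of a
point, up to a constant. -/
def Enough (k' : Type) [Field k'] [Algebra k k'] [Algebra k'[X] F] [IsFractionRing k'[X] F]
    (K : Type) [Field K] [Algebra k[X] K] [Algebra K F] (H : Subgroup (Sep F ≃ₐ[K] Sep F))
    (a b : k[X]) (S : Set (ℕ → Pt (Wc K a b) (Sep F))) : Prop :=
  ∀ c : Cc (Wc K a b) F, PC k' (Wc K a b) H c → ∀ f : k' → ZMod 2, PF (Wc K a b) (c 1) f →
    ∃ R ∈ S, KS (Wc K a b) H R ∧ ∃ (g : k' → ZMod 2) (κ : ZMod 2), PF (Wc K a b) (kap R 1) g ∧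
      ∀ θ : k', aeval θ b = 0 → f θ + g θ = κ

include hT hS in
theorem descK [NeZero (2 : K)] {S : Set (ℕ → Pt (Wc K a b) (Sep F))} (hE : Enough k' K H a b S)
    {a₁ b₁ u u' : K}
    (D1 : Dat (algebraMap k[X] K a) (algebraMap k[X] K b) a₁ b₁ u)
    (D2 : Dat a₁ b₁ (algebraMap k[X] K a) (algebraMap k[X] K b) u') (huu : u * u' = 2)
    {c : Cc (Wc K a b) F} (hc : PC k' (Wc K a b) H c) :
    ∃ R ∈ S, KS (Wc K a b) H R ∧ ∃ e : Cc (crvT a₁ b₁) F, PC k' (crvT a₁ b₁) H e ∧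
      Nul (Wc K a b) (c - kap R - push (isoN D2) e) := by
  obtain ⟨α, γ, hR⟩ := exists_rts hT hS
  obtain ⟨f, hf⟩ := pf_exists hR k' (hc.tc.coc 1) (two_tc hc.tc)
  obtain ⟨R, hRS, hR1, g, κ, hg, hκ⟩ := hE c hc f hf
  have hK : PC k' (Wc K a b) H (kap R) := hR1.pc
  have hd : PC k' (Wc K a b) H (c - kap R) := by
    rw [sub_eq_add_neg]
    exact hc.add hK.neg
  obtain ⟨e, he, hn⟩ := desc hT hS D1 D2 huu hd (fun f' hf' => by
    have h1 := pf_sub hR hf hg (two_tc hc.tc) (two_tc hK.tc)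
    have h2 : f' = f + g := pf_unique hf' h1
    exact ⟨κ, fun θ hθ => by rw [h2]; exact hκ θ hθ⟩)
  exact ⟨R, hRS, hR1, e, he, hn⟩

include hT hS in
/-- The descent by the isogeny and its dual. -/
theorem half {S : Set (ℕ → Pt (Wc K a b) (Sep F))}
    {S' : Set (ℕ → Pt (Wc K (-2 * a) (a ^ 2 - 4 * b)) (Sep F))} (hE : Enough k' K H a b S)
    (hE' : Enough k' K H (-2 * a) (a ^ 2 - 4 * b) S') [NeZero (2 : K)]
    (D2 : Dat (algebraMap k[X] K (-2 * a)) (algebraMap k[X] K (a ^ 2 - 4 * b))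
      (algebraMap k[X] K a) (algebraMap k[X] K b) 2)
    {c : Cc (Wc K a b) F} (hc : PC k' (Wc K a b) H c) :
    ∃ R ∈ S, ∃ R' ∈ S', KS (Wc K a b) H R ∧ KS (Wc K (-2 * a) (a ^ 2 - 4 * b)) H R' ∧
      ∃ z : Cc (Wc K a b) F, PC k' (Wc K a b) H z ∧
      Nul (Wc K a b) (c - kap (R + fun n => (isoN D2).f (Sep F) (R' n)) - (z + z)) := by
  haveI := hT.fracK
  have D1 := dat1 (K := K) hS
  obtain ⟨R, hRS, hR1, e, he, hen⟩ := descK hT hS hE D1 D2 (one_mul 2) hc
  obtain ⟨R', hRS', hR1', z, hz, hzn⟩ := descK hT hS.dual hE' D2 D1 (mul_one 2) he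
  refine ⟨R, hRS, R', hRS', hR1, hR1', z, hz, ?_⟩
  have h12 : ∀ P : Pt (Wc K a b) (Sep F),
      (isoN D2).f (Sep F) ((isoN D1).f (Sep F) P) = P + P := fun P =>
    isoH_dbl (Sep F) D1 D2 (one_mul 2) P
  have h3 := nul_push (isoN D2) hzn
  rw [push_sub, push_sub] at h3
  have h4 : push (isoN D2) (push (isoN D1) z) = z + z := push_push (isoN D1) (isoN D2) h12 z
  have h5 := hen.add h3
  rw [h4] at h5
  rw [kap_add, kap_push]
  have h6 : c - kap R - push (isoN D2) e +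
      (push (isoN D2) e - push (isoN D2) (kap R') - (z + z)) =
      c - (kap R + push (isoN D2) (kap R')) - (z + z) := by abel
  rw [← h6]
  exact h5

include hT hS in
/-- All the classes come from points. -/
theorem all_pts {S : Set (ℕ → Pt (Wc K a b) (Sep F))}
    {S' : Set (ℕ → Pt (Wc K (-2 * a) (a ^ 2 - 4 * b)) (Sep F))} (hE : Enough k' K H a b S)
    (hE' : Enough k' K H (-2 * a) (a ^ 2 - 4 * b) S')
    {c : Cc (Wc K a b) F} (hc : PC k' (Wc K a b) H c) (n : ℕ) :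
    ∃ (X R : Pt (Wc K a b) (Sep F)), 2 ^ n • R = X ∧ (∀ τ ∈ H, act (Wc K a b) (ak τ) X = X) ∧
      ∀ σ, c n σ = act (Wc K a b) (rs K σ) R - R := by
  haveI := hT.fracK
  haveI : NeZero (2 : K) := ⟨tt hS.h2⟩
  have D2 := dat2 (K := K) hS
  obtain ⟨α, γ, hR⟩ := exists_rts hT hS
  have key : ∀ j : ℕ, ∃ R : ℕ → Pt (Wc K a b) (Sep F), KS (Wc K a b) H R ∧
      ∃ z : Cc (Wc K a b) F, PC k' (Wc K a b) H z ∧ Nul (Wc K a b) (c - kap R - 2 ^ j • z) := by
    intro j
    induction j with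
    | zero =>
      refine ⟨0, KS.zero, c, hc, ?_⟩
      rw [kap_zero, sub_zero, pow_zero, one_smul, sub_self]
      exact Nul.zero
    | succ j ih =>
      obtain ⟨R, hR1, z, hz, hn⟩ := ih
      obtain ⟨R2, -, R3, -, h2, h3, y, hy, hn'⟩ := half hT hS hE hE' D2 hz
      obtain ⟨Q, hQ⟩ : ∃ Q, Q = R2 + fun n => (isoN D2).f (Sep F) (R3 n) := ⟨_, rfl⟩
      have hQ1 : KS (Wc K a b) H Q := by rw [hQ]; exact h2.add (h3.push (isoN D2))
      rw [← hQ] at hn'
      obtain ⟨g1, g2⟩ := hQ1.smul (2 ^ j)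
      refine ⟨R + 2 ^ j • Q, hR1.add g1, y, hy, ?_⟩
      have hsm : ∀ m : ℕ, Nul (Wc K a b) (m • (z - kap Q - (y + y))) := by
        intro m
        induction m with
        | zero => rw [zero_smul]; exact Nul.zero
        | succ m ihm => rw [succ_nsmul]; exact ihm.add hn'
      have h5 := hn.add (hsm (2 ^ j))
      rw [kap_add, g2]
      have h6 : c - kap R - 2 ^ j • z + 2 ^ j • (z - kap Q - (y + y)) =
          c - (kap R + 2 ^ j • kap Q) - 2 ^ (j + 1) • y := by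
        rw [pow_succ, mul_smul, two_nsmul y, smul_sub, smul_sub]
        abel
      rw [← h6]
      exact h5
  obtain ⟨R, hR1, z, hz, hn⟩ := key n
  obtain ⟨T, hT1, e⟩ := hn n
  have hcn : ∀ σ, c n σ = act (Wc K a b) (rs K σ) (R n + T) - (R n + T) := by
    intro σ
    have h1 := e σ
    have h2 : (c - kap R - 2 ^ n • z) n σ = c n σ - (act (Wc K a b) (rs K σ) (R n) - R n) -
        2 ^ n • z n σ := rfl
    rw [h2, pow_tc hz.tc, sub_zero, sub_eq_iff_eq_add] at h1
    rw [h1, map_add]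
    abel
  refine ⟨2 ^ n • (R n + T), R n + T, rfl, fun τ hτ => ?_, hcn⟩
  have e1 : 2 ^ n • (R n + T) = R 0 + 2 ^ n • T := by rw [smul_add, hR1.pow]
  have hfix : ∀ σ : Sep F ≃ₐ[F] Sep F, act (Wc K a b) (rs K σ) (2 ^ n • T) = 2 ^ n • T := by
    intro σ
    have h3 := pow_tc hc.tc n σ
    rw [hcn σ, smul_sub, sub_eq_zero, ← map_nsmul, e1, map_add, hR1.fixF] at h3
    exact add_left_cancel h3
  have h3 := tors_Wc hT hS hR (X := 2 ^ n • T) (m := 1) hfix (by
    rw [smul_smul, pow_one, ← pow_succ', hT1])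
  rw [e1, map_add, hR1.fixH τ hτ]
  congr 1
  rcases h3 with h | h
  · rw [h, map_zero]
  · rw [h]
    exact hR.pt0_act _

end desc

end Pool.Agent.K9h16.BT
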