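import Pool.Agent.K9h16.BT.Cpk
import Pool.Agent.K9h16.BT.Kum
import Pool.Agent.K9h16.BT.Cov

/-!
The pullbacks of the points of the base.
-/

set_option autoImplicit false
set_option linter.all false

open Polynomial IsDedekindDomain WeierstrassCurve WeierstrassCurve.Affine
open scoped Classical Pointwise

namespace Pool.Agent.K9h16.BT

open Pool.Agent.TH115.GD Pool.Agent.K9h16.PT Pool.Agent.K9h16.QT Pool.Agent.R939.EI
open Pool.Agent.X243.Gen (pb pb_sum pb_mul pb_C pb_one pb_pow pb_lin pb_map pb_frac pb_ne exists_psi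
  root_of_prime form_cop natDegree_pb_le pb_prod)
open Pool.Agent.N181.P3 (hb hb_map hb_sum hb_psi)
open Pool.Agent.N181.P9 (Comp2)

section pull

variable {k' : Type} [Field k'] (F₀ F : Type) [Field F₀] [Algebra k'[X] F₀]
  [Field F] [Algebra k'[X] F] [Algebra F₀ F]

/-- `F₀ → F` is the pullback by `s = q / r`. -/
def IsPsi (q r : k'[X]) : Prop := ∀ g : k'[X], algebraMap k'[X] F (pb q r g) =
  (algebraMap k'[X] F r) ^ g.natDegree * algebraMap F₀ F (algebraMap k'[X] F₀ g)

variable {F₀ F} {q r : k'[X]} (hψ : IsPsi F₀ F q r)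

include hψ in
theorem IsPsi.hb {M : ℕ} {g : k'[X]} (hg : g.natDegree ≤ M) : algebraMap k'[X] F (hb q r M g) =
    (algebraMap k'[X] F r) ^ M * algebraMap F₀ F (algebraMap k'[X] F₀ g) := by
  have h := hb_psi (φ := RingHom.id k') (ψ := algebraMap F₀ F) (q := q) (r := r) (fun g => by
    rw [Polynomial.map_id]; exact hψ g) hg
  rwa [Polynomial.map_id] at h

include hψ in
theorem IsPsi.cst (c : k') : algebraMap F₀ F (algebraMap k'[X] F₀ (C c)) =
    algebraMap k'[X] F (C c) := by
  have := hψ (C c)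
  rw [pb_C, natDegree_C, pow_zero, one_mul] at this
  exact this.symm

variable {K : Type} [Field K] [Algebra K F] [IsFractionRing k'[X] F]

include hψ in
theorem trPsi (hr : r ≠ 0) {a₀ b₀ : k'[X]} (ha : a₀.natDegree ≤ 2) (hb' : b₀.natDegree ≤ 4) {α β : K}
    (hα : algebraMap K F α = algebraMap k'[X] F (Pool.Agent.N181.P3.hb q r 2 a₀))
    (hβ : algebraMap K F β = algebraMap k'[X] F (Pool.Agent.N181.P3.hb q r 4 b₀)) :
    IsTrT (F := F) (algebraMap k'[X] F₀ a₀) (algebraMap k'[X] F₀ b₀) α β (algebraMap k'[X] F r) := by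
  refine ⟨by simpa using hr, ?_, ?_⟩
  · rw [hα, hψ.hb ha]
  · rw [hβ, hψ.hb hb']

end pull

section dt

variable {K K' F : Type} [Field K] [Field K'] [Field F] [Algebra K F] [Algebra K' F]
  {α β : K} {α' β' : K'} {ρ : F} (h : IsTrT α β α' β' ρ)

theorem dT_PhiT (P : Pt (crvT α β) F) : ∃ z : F, z ≠ 0 ∧
    dT (algebraMap K' F β') (PhiT h F P) = z ^ 2 * dT (algebraMap K F β) P := by
  rcases P with _ | ⟨x, y, hn⟩
  · have e1 : (PhiT h F) (Point.zero : Pt (crvT α β) F) = 0 := map_zero _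
    rw [e1]
    refine ⟨1, one_ne_zero, ?_⟩
    show (1 : F) = 1 ^ 2 * 1
    ring
  · obtain ⟨hn1, e1⟩ := PhiT_some h F hn
    rw [e1]
    have hρ := h.ne
    by_cases hx : x = 0
    · refine ⟨ρ ^ 2, pow_ne_zero 2 hρ, ?_⟩
      show (if _ = 0 then _ else _) = _ * (if x = 0 then _ else _)
      rw [if_pos hx, if_pos (by rw [hx, mul_zero]), h.hb]
      ring
    · refine ⟨ρ, hρ, ?_⟩
      show (if (ρ ^ 2 * x) = 0 then _ else (ρ ^ 2 * x)) = _ * (if x = 0 then _ else _)
      rw [if_neg hx, if_neg (mul_ne_zero (pow_ne_zero 2 hρ) hx)]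

/-- The pullback of the points. -/
noncomputable def pull (h : IsTrT α β α' β' ρ) : Pt (crvT α β) K →+ Pt (crvT α' β') F :=
  (PhiT h F).comp (act (crvT α β) (incl K K F))

theorem dT_pull (P : Pt (crvT α β) K) : ∃ z : F, z ≠ 0 ∧
    dT (algebraMap K' F β') (pull h P) = z ^ 2 * algebraMap K F (dT β P) := by
  obtain ⟨z, hz, e⟩ := dT_PhiT h (act (crvT α β) (incl K K F) P)
  refine ⟨z, hz, ?_⟩
  have h1 : dT (algebraMap K F β) (act (crvT α β) (incl K K F) P) = algebraMap K F (dT β P) :=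
    dT_act (crvT α β) (incl K K F) β P
  rw [← h1]
  exact e

theorem dT_ne {W : Affine F} {b : F} (hb : b ≠ 0) (P : W.Point) : dT b P ≠ 0 := by
  rcases P with _ | ⟨x, y, hn⟩
  · show (1 : F) ≠ 0
    exact one_ne_zero
  · show (if x = 0 then b else x) ≠ 0
    split_ifs with hx
    · exact hb
    · exact hx

end dt

section fix

variable {k' K F : Type} [Field k'] [Field K] [Field F] [Algebra k'[X] F] [IsFractionRing k'[X] F]
  [Algebra K F]

/-- An element of `F` is fixed by the automorphisms which fix finitely many constants. -/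
theorem exists_coef {k : Type} [Field k] [Algebra k k'] [Algebra k[X] K] (hT : IsTower k k' K F)
    (x : F) : ∃ S : Finset k', ∀ τ : Sep F ≃ₐ[K] Sep F, τ ∈ HM k' K F (S : Set k') →
      τ (algebraMap F (Sep F) x) = algebraMap F (Sep F) x := by
  obtain ⟨g, d, hd, rfl⟩ := IsFractionRing.div_surjective (A := k'[X]) x
  refine ⟨g.coeffs ∪ d.coeffs, fun τ hτ => ?_⟩
  obtain ⟨s, hs⟩ := exists_restr hT τ
  have h1 := (lifts_mem_HM hs _).1 hτ
  have key : ∀ p : k'[X], (∀ x ∈ p.coeffs, s x = x) →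
      τ (algebraMap F (Sep F) (algebraMap k'[X] F p)) = algebraMap F (Sep F) (algebraMap k'[X] F p) := by
    intro p hp
    rw [hs]
    congr 2
    ext i
    rw [coeff_map]
    by_cases h0 : p.coeff i = 0
    · rw [h0, map_zero]
    · exact hp _ (coeff_mem_coeffs h0)
  rw [map_div₀, map_div₀, key g (fun x hx => h1 x (by
    rw [Finset.mem_coe]; exact Finset.mem_union_left _ hx)), key d (fun x hx => h1 x (by
    rw [Finset.mem_coe]; exact Finset.mem_union_right _ hx))]

theorem exists_coefP {k : Type} [Field k] [Algebra k k'] [Algebra k[X] K] (hT : IsTower k k' K F)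
    (W : WeierstrassCurve K) (P : Pt W F) : ∃ S : Finset k', ∀ τ : Sep F ≃ₐ[K] Sep F,
      τ ∈ HM k' K F (S : Set k') →
      act W (ak τ) (act W (incl K F (Sep F)) P) = act W (incl K F (Sep F)) P := by
  rcases P with _ | ⟨x, y, hn⟩
  · refine ⟨∅, fun τ _ => ?_⟩
    have e1 : act W (incl K F (Sep F)) (Point.zero : Pt W F) = 0 := map_zero _
    rw [e1, map_zero]
  · obtain ⟨S, hS⟩ := exists_coef hT x
    obtain ⟨S', hS'⟩ := exists_coef hT y
    refine ⟨S ∪ S', fun τ hτ => ?_⟩
    obtain ⟨h1, e1⟩ := act_some W (incl K F (Sep F)) hn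
    rw [e1]
    obtain ⟨h2, e2⟩ := act_some W (ak τ) h1
    rw [e2]
    apply Pool.Agent.K9h16.PT.some_congr
    · exact hS τ fun z hz => hτ z (by
        rw [Finset.mem_coe] at hz ⊢
        exact Finset.mem_union_left _ hz)
    · exact hS' τ fun z hz => hτ z (by
        rw [Finset.mem_coe] at hz ⊢
        exact Finset.mem_union_right _ hz)

end fix

end Pool.Agent.K9h16.BT
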