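import Pool.Agent.K9h16.BT.Blk
import Pool.Agent.K9h16.QT.Pur

/-!
The elements with a single minor in two blocks.
-/

set_option autoImplicit false
set_option linter.all false

open Polynomial
open scoped Classical

namespace Pool.Agent.K9h16.BT

open Pool.Agent.K9h16.PT Pool.Agent.K9h16.QT Pool.Agent.X243.Gen Pool.Agent.X243.Tate
  Pool.Agent.X243.Sol

section pur

variable {k Ω : Type} [Field k] [Field Ω] [Algebra k Ω] [IsSepClosed Ω]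

/-- The cycles of length three of the roots of `P1` which fix the other roots of `P1` and the roots
of the polynomials in `J`. -/
theorem cyc_list {P1 : k[X]} (hsw : SwG Ω P1) (h5 : Five Ω P1) (J : List k[X])
    (hJ : ∀ Q ∈ J, SwF Ω P1 Q) :
    ∀ x y z : Ω, aeval x P1 = 0 → aeval y P1 = 0 → aeval z P1 = 0 → x ≠ y → x ≠ z → y ≠ z →
      ∃ s : Ω ≃ₐ[k] Ω, s x = y ∧ s y = z ∧ s z = x ∧
        (∀ θ : Ω, aeval θ P1 = 0 → θ ≠ x → θ ≠ y → θ ≠ z → s θ = θ) ∧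
        ∀ Q ∈ J, ∀ θ : Ω, aeval θ Q = 0 → s θ = θ := by
  induction J with
  | nil =>
    intro x y z hx hy hz nxy nxz nyz
    obtain ⟨s, s1, s2, s3⟩ := hsw x y hx hy nxy
    obtain ⟨t, t1, t2, t3⟩ := hsw y z hy hz nyz
    refine ⟨s * t, ?_, ?_, ?_, fun θ hθ n1 n2 n3 => ?_, fun Q hQ => absurd hQ (List.not_mem_nil)⟩
    · show s (t x) = y
      rw [t3 x hx nxy nxz, s1]
    · show s (t y) = z
      rw [t1, s3 z hz nxz.symm nyz.symm]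
    · show s (t z) = x
      rw [t2, s2]
    · show s (t θ) = θ
      rw [t3 θ hθ n2 n3, s3 θ hθ n1 n2]
  | cons Q J ih =>
    intro x y z hx hy hz nxy nxz nyz
    have ih' := ih (fun Q hQ => hJ Q (List.mem_cons_of_mem _ hQ))
    obtain ⟨w, hw, nwx, nwy, nwz⟩ : ∃ w : Ω, aeval w P1 = 0 ∧ w ≠ x ∧ w ≠ y ∧ w ≠ z := by
      obtain ⟨z1, z2, z3, r1, r2, r3, n12, n13, n23, m1, m1', m2, m2', m3, m3'⟩ := h5 x y
      by_cases h : z1 = z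
      · exact ⟨z2, r2, m2, m2', by rw [← h]; exact n12.symm⟩
      · exact ⟨z1, r1, m1, m1', h⟩
    obtain ⟨τ, τ1, τ2, τ3, τ4, τ5⟩ := ih' y z w hy hz hw nyz nwy.symm nwz.symm
    obtain ⟨σ, σ1, σ2, σ3, σ4⟩ := hJ Q (List.mem_cons_self) y x hy hx nxy.symm
    have inv_of : ∀ (v : Ω ≃ₐ[k] Ω) (x z : Ω), v x = z → v⁻¹ z = x := by
      intro v x z h
      rw [← h]
      exact v.symm_apply_apply x
    have gapp : ∀ x, (τ * (σ * τ⁻¹ * σ⁻¹)) x = τ (σ (τ⁻¹ (σ⁻¹ x))) := fun x => rfl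
    refine ⟨τ * (σ * τ⁻¹ * σ⁻¹), ?_, ?_, ?_, fun θ hθ n1 n2 n3 => ?_, fun Q' hQ' θ hθ => ?_⟩
    · rw [gapp, inv_of σ y x σ1, inv_of τ w y τ3, σ3 w hw nwy nwx, τ3]
    · rw [gapp, inv_of σ x y σ2, inv_of τ x x (τ4 x hx nxy nxz nwx.symm), σ2, τ1]
    · rw [gapp, inv_of σ z z (σ3 z hz nyz.symm nxz.symm), inv_of τ y z τ1, σ1,
        τ4 x hx nxy nxz nwx.symm]
    · by_cases h : θ = w
      · subst h
        rw [gapp, inv_of σ θ θ (σ3 θ hθ n2 n1), inv_of τ z θ τ2, σ3 z hz nyz.symm nxz.symm, τ2]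
      · rw [gapp, inv_of σ θ θ (σ3 θ hθ n2 n1), inv_of τ θ θ (τ4 θ hθ n2 n3 h), σ3 θ hθ n2 n1,
          τ4 θ hθ n2 n3 h]
    · rcases List.mem_cons.1 hQ' with h | h
      · subst h
        rw [gapp, fix_inv (σ4 θ hθ), σ4 _ (root_map τ⁻¹ hθ)]
        exact τ.apply_symm_apply θ
      · rw [gapp, fix_inv (τ5 Q' h _ (root_map σ⁻¹ hθ))]
        have : σ (σ⁻¹ θ) = θ := σ.apply_symm_apply θ
        rw [this, τ5 Q' h θ hθ]

/-- The cycles of length three of the roots of `P1` which fix the other roots of `P` and the roots of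
`Q`. -/
def CycF (Ω : Type) [Field Ω] [Algebra k Ω] (P Q P1 : k[X]) : Prop :=
  ∀ x y z : Ω, aeval x P1 = 0 → aeval y P1 = 0 → aeval z P1 = 0 → x ≠ y → x ≠ z → y ≠ z →
    ∃ s : Ω ≃ₐ[k] Ω, s x = y ∧ s y = z ∧ s z = x ∧
      (∀ θ : Ω, aeval θ P = 0 → θ ≠ x → θ ≠ y → θ ≠ z → s θ = θ) ∧
      ∀ θ : Ω, aeval θ Q = 0 → s θ = θ

theorem CycF.cyc {P Q P1 : k[X]} (h : CycF Ω P Q P1) : Cyc Ω P P1 := by
  intro x y z hx hy hz n1 n2 n3
  obtain ⟨s, s1, s2, s3, s4, -⟩ := h x y z hx hy hz n1 n2 n3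
  exact ⟨s, s1, s2, s3, s4⟩

/-- Moving a pair of roots. -/
theorem CycF.mv {P Q P1 : k[X]} (hP1 : ∀ θ : Ω, aeval θ P1 = 0 → aeval θ P = 0)
    (h : CycF Ω P Q P1) (h5 : Five Ω P1) {β β' p q : Ω}
    (h1 : aeval β P1 = 0) (h1' : aeval β' P1 = 0)
    (h3 : aeval p P1 = 0) (h3' : aeval q P1 = 0) (hne : β ≠ β') (hpq : p ≠ q) :
    ∃ u : Ω ≃ₐ[k] Ω, u β = p ∧ u β' = q ∧ ∀ θ : Ω, aeval θ Q = 0 → u θ = θ := by
  obtain ⟨u1, e1, f1⟩ : ∃ u : Ω ≃ₐ[k] Ω, u β = p ∧ ∀ θ : Ω, aeval θ Q = 0 → u θ = θ := by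
    by_cases hb : β = p
    · exact ⟨1, hb, fun θ _ => rfl⟩
    · obtain ⟨w, -, -, hw, -, -, -, -, -, n1, n2, -, -, -, -⟩ := h5 β p
      obtain ⟨s, s1, -, -, -, s5⟩ := h β p w h1 h3 hw hb n1.symm n2.symm
      exact ⟨s, s1, s5⟩
  have hx : aeval (u1 β') P1 = 0 := root_map u1 h1'
  have hxp : u1 β' ≠ p := by
    rw [← e1]
    exact fun e => hne (u1.injective e).symm
  by_cases hb : u1 β' = q
  · exact ⟨u1, e1, hb, f1⟩
  · obtain ⟨w, hw, nw1, nw2, nwp⟩ : ∃ w : Ω, aeval w P1 = 0 ∧ w ≠ u1 β' ∧ w ≠ q ∧ w ≠ p := by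
      obtain ⟨z1, z2, z3, r1, r2, r3, n12, n13, n23, m1, m1', m2, m2', m3, m3'⟩ := h5 (u1 β') q
      by_cases h : z1 = p
      · exact ⟨z2, r2, m2, m2', by rw [← h]; exact n12.symm⟩
      · exact ⟨z1, r1, m1, m1', h⟩
    obtain ⟨s, s1, -, -, s4, s5⟩ := h (u1 β') q w hx h3' hw hb nw1.symm nw2.symm
    refine ⟨s * u1, ?_, s1, fun θ hθ => ?_⟩
    · show s (u1 β) = p
      rw [e1]
      exact s4 p (hP1 _ h3) hxp.symm hpq nwp.symm
    · show s (u1 θ) = θ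
      rw [f1 θ hθ, s5 θ hθ]

/-- An element which gives a minor in the blocks. -/
def MinF (Ω : Type) [Field Ω] [Algebra k Ω] (P1 Q1 : k[X]) : Prop :=
  ∃ (s : Ω ≃ₐ[k] Ω) (p q y y' : Ω), aeval p P1 = 0 ∧ aeval q P1 = 0 ∧ aeval y Q1 = 0 ∧
    aeval y' Q1 = 0 ∧ (∀ θ : Ω, aeval θ P1 = 0 → s θ = θ) ∧ (∀ θ : Ω, aeval θ Q1 = 0 → s θ = θ) ∧
    sg s (p - y) + sg s (q - y) + sg s (p - y') + sg s (q - y') = 1

variable (h2 : (2 : Ω) ≠ 0) {P Q P1 Q1 : k[X]}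

include h2 in
/-- The single minor. -/
theorem single (hco : IsCoprime P Q) (hP1 : ∀ θ : Ω, aeval θ P1 = 0 → aeval θ P = 0)
    (hQ1 : ∀ θ : Ω, aeval θ Q1 = 0 → aeval θ Q = 0) (hco1 : IsCoprime P1 Q1)
    (hP : CycF Ω P Q P1) (hQ : CycF Ω Q P Q1)
    (h5 : Five Ω P1) (h5' : Five Ω Q1) (hm : MinF Ω P1 Q1) :
    ∃ (w : Ω ≃ₐ[k] Ω) (p q y y' : Ω), aeval p P1 = 0 ∧ aeval q P1 = 0 ∧ aeval y Q1 = 0 ∧
      aeval y' Q1 = 0 ∧ p ≠ q ∧ y ≠ y' ∧ (∀ θ : Ω, aeval θ P = 0 → w θ = θ) ∧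
      (∀ θ : Ω, aeval θ Q = 0 → w θ = θ) ∧ (∀ c : k, c ≠ 0 → sg w (algebraMap k Ω c) = 0) ∧
      ∀ θ η : Ω, aeval θ P = 0 → aeval η Q = 0 →
        sg w (θ - η) = (ee p θ + ee q θ) * (ee y η + ee y' η) := by
  obtain ⟨s, p, q, y, y', hp, hq, hy, hy', hsP, hsQ, hmin⟩ := hm
  have hpq : p ≠ q := by
    rintro rfl
    rw [zz, zero_add, zz] at hmin
    exact zero_ne_one hmin
  have hyy : y ≠ y' := by
    rintro rfl
    have : ∀ a b : ZMod 2, a + b + a + b ≠ 1 := by decide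
    exact this _ _ hmin
  have inv_of : ∀ (v : Ω ≃ₐ[k] Ω) (x z : Ω), v x = z → v⁻¹ z = x := by
    intro v x z h
    rw [← h]
    exact v.symm_apply_apply x
  -- the first commutator
  obtain ⟨z, v, -, hz, hv, -, nzv, -, -, nzp, nzq, nvp, nvq, -, -⟩ := h5 p q
  obtain ⟨t, t1, t2, t3, t4, t5⟩ := hP p q z hp hq hz hpq nzp.symm nzq.symm
  obtain ⟨w0, hw0⟩ : ∃ w, w = s * (t * s⁻¹ * t⁻¹) := ⟨_, rfl⟩
  obtain ⟨a1, a2, -, a4⟩ := comm_gen h2 hco1 hsP hsQ t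
  rw [← hw0] at a1 a2 a4
  have gapp : ∀ x, w0 x = s (t (s⁻¹ (t⁻¹ x))) := fun x => by rw [hw0]; rfl
  have ss' : ∀ x, s (s⁻¹ x) = x := fun x => s.apply_symm_apply x
  have A1 : ∀ θ : Ω, aeval θ P = 0 → w0 θ = θ := by
    intro θ hθ
    by_cases h : aeval θ P1 = 0
    · exact a1 θ h
    · have nn : ∀ x : Ω, aeval x P1 = 0 → θ ≠ x := fun x hx e => h (e ▸ hx)
      have hs1 : ¬ aeval (s⁻¹ θ) P1 = 0 := by
        intro h'
        apply h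
        have := root_map s h'
        rwa [ss'] at this
      have nn' : ∀ x : Ω, aeval x P1 = 0 → s⁻¹ θ ≠ x := fun x hx e => hs1 (e ▸ hx)
      rw [gapp, fix_inv (t4 θ hθ (nn p hp) (nn q hq) (nn z hz)),
        t4 _ (root_map s⁻¹ hθ) (nn' p hp) (nn' q hq) (nn' z hz), ss']
  have A2 : ∀ θ : Ω, aeval θ Q = 0 → w0 θ = θ := by
    intro θ hθ
    rw [gapp, fix_inv (t5 θ hθ), t5 _ (root_map s⁻¹ hθ), ss']
  have F0 : ∀ θ η : Ω, aeval θ P1 = 0 → aeval η Q1 = 0 →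
      sg w0 (θ - η) = sg s (θ - η) + sg s (t⁻¹ θ - η) := by
    intro θ η hθ hη
    rw [a4 θ η hθ hη, fix_inv (t5 η (hQ1 _ hη))]
  have mq : (sg w0 (q - y) + sg w0 (q - y')) = 1 := by
    rw [F0 q y hq hy, F0 q y' hq hy', inv_of t p q t1]
    have : ∀ a b c d : ZMod 2, a + b + c + d = 1 → b + a + (d + c) = 1 := by decide
    exact this _ _ _ _ hmin
  have mv : (sg w0 (v - y) + sg w0 (v - y')) = 0 := by
    rw [F0 v y hv hy, F0 v y' hv hy', fix_inv (t4 v (hP1 _ hv) nvp nvq nzv.symm), zz, zz, zero_add]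
  -- the second commutator
  obtain ⟨y'', -, -, hy'', -, -, -, -, -, ny1, ny2, -, -, -, -⟩ := h5' y y'
  obtain ⟨t', t1', t2', t3', t4', t5'⟩ := hQ y y' y'' hy hy' hy'' hyy ny1.symm ny2.symm
  obtain ⟨w1, hw1⟩ : ∃ w, w = w0 * (t' * w0⁻¹ * t'⁻¹) := ⟨_, rfl⟩
  obtain ⟨b1, b2, -, b4⟩ := comm_gen h2 hco A1 A2 t'
  rw [← hw1] at b1 b2 b4
  have F1 : ∀ θ η : Ω, aeval θ P = 0 → aeval η Q = 0 →
      sg w1 (θ - η) = sg w0 (θ - η) + sg w0 (θ - t'⁻¹ η) := by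
    intro θ η hθ hη
    rw [b4 θ η hθ hη, fix_inv (t5' θ hθ)]
  -- the third commutator
  obtain ⟨z2, z3, z4, hz2, hz3, hz4, n23, n24, n34, m2v, m2q, m3v, m3q, m4v, m4q⟩ := h5 v q
  obtain ⟨t2c, c1, c2, c3, c4, c5⟩ := hP v q z2 hv hq hz2 nvq m2v.symm m2q.symm
  obtain ⟨w2, hw2⟩ : ∃ w, w = w1 * (t2c * w1⁻¹ * t2c⁻¹) := ⟨_, rfl⟩
  obtain ⟨d1, d2, -, d4⟩ := comm_gen h2 hco b1 b2 t2c
  rw [← hw2] at d1 d2 d4
  have F2 : ∀ θ η : Ω, aeval θ P = 0 → aeval η Q = 0 →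
      sg w2 (θ - η) = sg w1 (θ - η) + sg w1 (t2c⁻¹ θ - η) := by
    intro θ η hθ hη
    rw [d4 θ η hθ hη, fix_inv (c5 η hη)]
  -- the fourth commutator
  obtain ⟨t3c, e1, e2, e3, e4, e5⟩ := hP q z3 z4 hq hz3 hz4 m3q.symm m4q.symm n34
  obtain ⟨w3, hw3⟩ : ∃ w, w = w2 * (t3c * w2⁻¹ * t3c⁻¹) := ⟨_, rfl⟩
  obtain ⟨f1, f2, f3, f4⟩ := comm_gen h2 hco d1 d2 t3c
  rw [← hw3] at f1 f2 f3 f4
  have F3 : ∀ θ η : Ω, aeval θ P = 0 → aeval η Q = 0 →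
      sg w3 (θ - η) = sg w2 (θ - η) + sg w2 (t3c⁻¹ θ - η) := by
    intro θ η hθ hη
    rw [f4 θ η hθ hη, fix_inv (e5 η hη)]
  -- the rows of the third
  have R3 : ∀ η : Ω, aeval η Q = 0 → sg w2 (z3 - η) = 0 := by
    intro η hη
    rw [F2 z3 η (hP1 _ hz3) hη, fix_inv (c4 z3 (hP1 _ hz3) m3v m3q n23.symm)]
    exact zz _
  have R4 : ∀ η : Ω, aeval η Q = 0 → sg w2 (z4 - η) = 0 := by
    intro η hη
    rw [F2 z4 η (hP1 _ hz4) hη, fix_inv (c4 z4 (hP1 _ hz4) m4v m4q n24.symm)]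
    exact zz _
  have V3 : ∀ θ η : Ω, aeval θ P = 0 → aeval η Q = 0 →
      sg w3 (θ - η) = (ee q θ + ee z3 θ) * sg w2 (q - η) := by
    intro θ η hθ hη
    rw [F3 θ η hθ hη]
    by_cases h1 : θ = q
    · subst h1
      rw [inv_of t3c z4 θ e3, R4 η hη, ee_self, ee_ne m3q.symm]
      ring
    · by_cases h3 : θ = z3
      · subst h3
        rw [inv_of t3c q θ e1, R3 η hη, ee_self, ee_ne m3q]
        ring
      · rw [ee_ne h1, ee_ne h3, add_zero, zero_mul]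
        by_cases h4 : θ = z4
        · subst h4
          rw [inv_of t3c z3 θ e2, R3 η hη, R4 η hη, add_zero]
        · rw [fix_inv (e4 θ hθ h1 h3 h4)]
          exact zz _
  -- the row of `q`
  have G : ∀ η : Ω, aeval η Q = 0 → sg w2 (q - η) =
      (sg w0 (q - η) + sg w0 (v - η)) + (sg w0 (q - t'⁻¹ η) + sg w0 (v - t'⁻¹ η)) := by
    intro η hη
    rw [F2 q η (hP1 _ hq) hη, inv_of t2c v q c1, F1 q η (hP1 _ hq) hη, F1 v η (hP1 _ hv) hη]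
    ring
  have g1 : sg w2 (q - y') = 1 := by
    rw [G y' (hQ1 _ hy'), inv_of t' y y' t1']
    have : ∀ a b c d : ZMod 2, c + a = 1 → d + b = 0 → a + b + (c + d) = 1 := by decide
    exact this _ _ _ _ mq mv
  have g0 : ∀ η : Ω, aeval η Q = 0 → η ≠ y → η ≠ y' → η ≠ y'' → sg w2 (q - η) = 0 := by
    intro η hη n1 n2 n3
    rw [G η hη, fix_inv (t4' η hη n1 n2 n3)]
    exact zz _
  have gs : sg w2 (q - y) + sg w2 (q - y'') = 1 := by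
    have h1 := g1
    rw [G y' (hQ1 _ hy'), inv_of t' y y' t1'] at h1
    rw [G y (hQ1 _ hy), inv_of t' y'' y t3', G y'' (hQ1 _ hy''), inv_of t' y' y'' t2']
    have : ∀ a b c d e f : ZMod 2, (a + b) + (c + d) = 1 →
        (c + d) + (e + f) + ((e + f) + (a + b)) = 1 := by decide
    exact this _ _ _ _ _ _ h1
  have hcase : ∀ x x' : ZMod 2, x + x' = 1 → (x = 1 ∧ x' = 0) ∨ (x = 0 ∧ x' = 1) := by decide
  rcases hcase _ _ gs with ⟨k1, k2⟩ | ⟨k1, k2⟩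
  · refine ⟨w3, q, z3, y', y, hq, hz3, hy', hy, m3q.symm, hyy.symm, f1, f2, f3,
      fun θ η hθ hη => ?_⟩
    rw [V3 θ η hθ hη]
    congr 1
    by_cases n1 : η = y'
    · subst n1
      rw [g1, ee_self, ee_ne hyy.symm, add_zero]
    · by_cases n2 : η = y
      · subst n2
        rw [k1, ee_self, ee_ne hyy, zero_add]
      · rw [ee_ne n1, ee_ne n2, add_zero]
        by_cases n3 : η = y''
        · rw [n3]; exact k2
        · exact g0 η hη n2 n1 n3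
  · refine ⟨w3, q, z3, y', y'', hq, hz3, hy', hy'', m3q.symm, ny2.symm, f1, f2, f3,
      fun θ η hθ hη => ?_⟩
    rw [V3 θ η hθ hη]
    congr 1
    by_cases n1 : η = y'
    · subst n1
      rw [g1, ee_self, ee_ne ny2.symm, add_zero]
    · by_cases n2 : η = y''
      · subst n2
        rw [k2, ee_self, ee_ne ny2, zero_add]
      · rw [ee_ne n1, ee_ne n2, add_zero]
        by_cases n3 : η = y
        · rw [n3]; exact k1
        · exact g0 η hη n3 n1 n2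

include h2 in
/-- **All the single minors in two blocks.** -/
theorem pureB_of (hco : IsCoprime P Q) (hP1 : ∀ θ : Ω, aeval θ P1 = 0 → aeval θ P = 0)
    (hQ1 : ∀ θ : Ω, aeval θ Q1 = 0 → aeval θ Q = 0) (hco1 : IsCoprime P1 Q1)
    (hP : CycF Ω P Q P1) (hQ : CycF Ω Q P Q1)
    (h5 : Five Ω P1) (h5' : Five Ω Q1) (hm : MinF Ω P1 Q1) : PureB Ω P Q P1 Q1 := by
  obtain ⟨w1, p, q, y, y', hp, hq, hy, hy', hpq, hyy, b1, b2, b3, val⟩ :=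
    single h2 hco hP1 hQ1 hco1 hP hQ h5 h5' hm
  intro β β' e e' r1 r2 d1 d2 hbb hee
  obtain ⟨u, u1, u2, u3⟩ := hP.mv hP1 h5 r1 r2 hp hq hbb hpq
  obtain ⟨v, v1, v2, v3⟩ := hQ.mv hQ1 h5' d1 d2 hy hy' hee hyy
  obtain ⟨g, hg⟩ : ∃ g, g = u * v := ⟨_, rfl⟩
  have gP : ∀ θ : Ω, aeval θ P = 0 → g θ = u θ := by
    intro θ hθ
    rw [hg]
    show u (v θ) = u θ
    rw [v3 θ hθ]
  have gQ : ∀ θ : Ω, aeval θ Q = 0 → g θ = v θ := by
    intro θ hθ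
    rw [hg]
    show u (v θ) = v θ
    exact u3 _ (root_map v hθ)
  have hne : ∀ θ η : Ω, aeval θ P = 0 → aeval η Q = 0 → θ - η ≠ 0 := by
    intro θ η hθ hη e
    rw [sub_eq_zero] at e
    subst e
    exact cop_ne hco hθ hη
  have hfix : ∀ x : Ω, w1 (g x) = g x → (g⁻¹ * w1 * g) x = x := by
    intro x hx
    show g⁻¹ (w1 (g x)) = x
    rw [hx]
    exact g.symm_apply_apply x
  refine ⟨g⁻¹ * w1 * g, fun θ hθ => hfix θ (b1 _ (root_map g hθ)),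
    fun θ hθ => hfix θ (b2 _ (root_map g hθ)), fun c hc => ?_, fun θ η hθ hη => ?_⟩
  · rw [sg_conj h2 ((_root_.map_ne_zero _).2 hc) (by rw [g.commutes, w1.commutes]), g.commutes,
      b3 c hc]
  · rw [sg_conj h2 (hne θ η hθ hη) (by
      rw [map_sub, map_sub, b1 _ (root_map g hθ), b2 _ (root_map g hη)]), map_sub,
      val _ _ (root_map g hθ) (root_map g hη), gP θ hθ, gQ η hη]
    have key : ∀ (m : Ω ≃ₐ[k] Ω) (x z w : Ω), m x = z → ee z (m w) = ee x w := by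
      intro m x z w h
      by_cases hw : w = x
      · rw [hw, h, ee_self, ee_self]
      · rw [ee_ne hw, ee_ne (by rw [← h]; exact fun h' => hw (m.injective h'))]
    rw [key u β p θ u1, key u β' q θ u2, key v e y η v1, key v e' y' η v2]

end pur

end Pool.Agent.K9h16.BT
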