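import Pool.Agent.K9h16.BT.Enn

/-!
The two curves, and the pullback of the isogeny.
-/

set_option autoImplicit false
set_option linter.all false

open Polynomial IsDedekindDomain WeierstrassCurve WeierstrassCurve.Affine
open scoped Classical Pointwise

namespace Pool.Agent.K9h16.BT

open Pool.Agent.TH115.GD Pool.Agent.K9h16.PT Pool.Agent.K9h16.QT Pool.Agent.R939.EI
open Pool.Agent.X243.Gen (pb pb_sum pb_mul pb_C pb_one pb_pow pb_lin pb_map pb_frac pb_ne exists_psi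
  root_of_prime form_cop natDegree_pb_le pb_prod FF gen0I)
open Pool.Agent.N181.P3 (hb hb_map hb_sum hb_psi natDegree_hb_le)

section bc

variable {k : Type} [Field k] {n : ℕ} {q r a b : k[X]} (hB : BC n q r a b)

include hB

theorem BC.sid : Sid n q r a b (hb q r 2 a) (hb q r 4 b) :=
  ⟨hB.h2, hB.da, hB.db, hB.sd.ne_zero, hB.sb, hB.tb, hB.cop, hB.dq, hB.dr, hB.odd, rfl, rfl,
    fun ξ h => ⟨(hB.ff ξ (Or.inl h)).2.1, (hB.ff ξ (Or.inl h)).1.2⟩, hB.Sd⟩

theorem BC.hb_neg : -2 * hb q r 2 a = hb q r 2 (-2 * a) := by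
  have e : (-2 * a : k[X]) = C (-2) * a := by rw [C_neg, C_ofNat]
  have h2 : (-2 : k) ≠ 0 := neg_ne_zero.2 hB.h2
  rw [e, hb, hb, natDegree_C_mul h2, pb_mul, pb_C, C_neg, C_ofNat]
  ring

theorem BC.sid' : Sid n q r (-2 * a) (a ^ 2 - 4 * b) (-2 * hb q r 2 a)
    (hb q r 2 a ^ 2 - 4 * hb q r 4 b) := by
  have h16 : ((-2 * a) ^ 2 - 4 * (a ^ 2 - 4 * b) : k[X]) = C 16 * b := by
    have : (C 16 : k[X]) = 16 := map_ofNat C 16
    rw [this]
    ring
  have h16' : (16 : k) ≠ 0 := by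
    have : (16 : k) = 2 ^ 4 := by norm_num
    rw [this]
    exact pow_ne_zero 4 hB.h2
  refine ⟨hB.h2, ?_, hB.dd, ?_, hB.sd, hB.td, hB.cop, hB.dq, hB.dr, hB.odd, hB.hb_neg, ?_,
    fun ξ h => ⟨(hB.ff ξ (Or.inr h)).2.1, (hB.ff ξ (Or.inr h)).1.2⟩, hB.Sd.dual⟩
  · have e : (-2 * a : k[X]) = C (-2) * a := by rw [C_neg, C_ofNat]
    rw [e]
    exact (natDegree_C_mul_le _ _).trans hB.da
  · rw [h16]
    exact mul_ne_zero (C_ne_zero.2 h16') hB.sb.ne_zero
  · rw [hB.disc, hB.hbd]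

theorem BC.exb : ∃ ξ, b.IsRoot ξ := by
  obtain ⟨x, hx⟩ := hB.tb.exists_eval_eq_zero (by
    intro h
    have h5 : b.natDegree = 0 := natDegree_eq_of_degree_eq_some h
    rw [hB.db] at h5
    omega)
  exact ⟨x, hx⟩

theorem BC.exd : ∃ ξ, (a ^ 2 - 4 * b).IsRoot ξ := by
  obtain ⟨x, hx⟩ := hB.td.exists_eval_eq_zero (by
    intro h
    have h5 : (a ^ 2 - 4 * b).natDegree = 0 := natDegree_eq_of_degree_eq_some h
    rw [hB.dd] at h5
    omega)
  exact ⟨x, hx⟩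

variable {k' K F : Type} [Field k'] [Algebra k k'] [Field K] [Algebra k[X] K]
    [Field F] [Algebra k'[X] F] [IsFractionRing k'[X] F] [Algebra K F]
    (hT : IsTower k k' K F)
  (hN : Preserves K F (Sep F)) {H : Subgroup (Sep F ≃ₐ[K] Sep F)} (hH : H.Normal)
  (hfin : H.FiniteIndex)

include hT hN hH hfin in
theorem BC.blk (c : Cc (Wc K (hb q r 2 a) (hb q r 4 b)) F) (hc : PC k' (Wc K _ _) H c)
    (f : k' → ZMod 2) (hf : PF (Wc K _ _) (c 1) f) (ξ : k) (hξ : b.IsRoot ξ) (x y : k')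
    (hx : aeval x (fm q r ξ) = 0) (hy : aeval y (fm q r ξ) = 0) : f x = f y := by
  haveI := hT.sep
  haveI : IsSepClosed k' := IsSepClosure.sep_closed k
  obtain ⟨η, hη⟩ := hB.exd
  exact kthB hT hB.Sd hN hH hfin (P1 := fm q r ξ) (Q1 := fm q r η)
    (fun θ hθ => hB.root_b.2 ⟨ξ, hξ, hθ⟩) (fun θ hθ => hB.root_d.2 ⟨η, hη, hθ⟩)
    (hB.cycB k' hξ).cyc (hB.pure k' hξ hη) (hB.five k' (Or.inl hξ)) (hB.five k' (Or.inr hη))
    hc hf hx hy

include hT hN hH hfin in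
theorem BC.blk' (c : Cc (Wc K (-2 * hb q r 2 a) (hb q r 2 a ^ 2 - 4 * hb q r 4 b)) F)
    (hc : PC k' (Wc K _ _) H c)
    (f : k' → ZMod 2) (hf : PF (Wc K _ _) (c 1) f) (ξ : k) (hξ : (a ^ 2 - 4 * b).IsRoot ξ) (x y : k')
    (hx : aeval x (fm q r ξ) = 0) (hy : aeval y (fm q r ξ) = 0) : f x = f y := by
  haveI := hT.sep
  haveI : IsSepClosed k' := IsSepClosure.sep_closed k
  have h2' : (2 : k') ≠ 0 := two_k' hB.h2
  obtain ⟨η, hη⟩ := hB.exb
  refine kthB hT hB.Sd.dual hN hH hfin (P1 := fm q r ξ) (Q1 := fm q r η)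
    (fun θ hθ => hB.root_d.2 ⟨ξ, hξ, hθ⟩) (fun θ hθ => (root_dual hB.h2).2
      (hB.root_b.2 ⟨η, hη, hθ⟩))
    (hB.cycD k' hξ).cyc ?_ (hB.five k' (Or.inr hξ)) (hB.five k' (Or.inl hη))
    hc hf hx hy
  exact ((hB.pure k' hη hξ).symm h2' hB.Sd.cop).congr (fun θ => Iff.rfl)
    (fun θ => root_dual hB.h2) (fun θ => Iff.rfl) (fun θ => Iff.rfl)

end bc

section iso

variable {K K' F : Type} [Field K] [Field K'] [Field F] [Algebra K F] [Algebra K' F]
  [NeZero (2 : K)] [NeZero (2 : K')]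
  {α β α₁ β₁ u : K} {α' β' α₁' β₁' u' : K'} {ρ : F} (h : IsTrT α β α' β' ρ)
  (h₁ : IsTrT α₁ β₁ α₁' β₁' ρ) (D : Dat α β α₁ β₁ u) (D' : Dat α' β' α₁' β₁' u')
  (hu : algebraMap K' F u' = algebraMap K F u)
  (E : Type) [Field E] [Algebra F E] [Algebra K E] [IsScalarTower K F E] [Algebra K' E]
  [IsScalarTower K' F E]

include hu in
/-- The isogeny commutes with the isomorphism. -/
theorem iso_PhiT (P : Pt (crvT α β) E) : isoH E D' (PhiT h E P) = PhiT h₁ E (isoH E D P) := by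
  rcases P with _ | ⟨x, y, hn⟩
  · have e1 : (PhiT h E) (Point.zero : Pt (crvT α β) E) = 0 := map_zero _
    have e2 : isoH E D (Point.zero : Pt (crvT α β) E) = 0 := map_zero _
    rw [e1, e2, map_zero, map_zero]
  · obtain ⟨hn1, e1⟩ := PhiT_some h E hn
    rw [e1]
    have hρ : algebraMap F E ρ ≠ 0 := (_root_.map_ne_zero _).2 h.ne
    by_cases hx : x = 0
    · rw [isoH_zero E D hn hx, isoH_zero E D' hn1 (by rw [hx, mul_zero]), map_zero]
    · have hx' : algebraMap F E ρ ^ 2 * x ≠ 0 := mul_ne_zero (pow_ne_zero 2 hρ) hx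
      obtain ⟨hn2, e2⟩ := isoH_some E D hn hx
      obtain ⟨hn3, e3⟩ := isoH_some E D' hn1 hx'
      rw [e2, e3]
      obtain ⟨hn4, e4⟩ := PhiT_some h₁ E hn2
      rw [e4]
      have hu0 : algebraMap K E u ≠ 0 := (_root_.map_ne_zero _).2 D.hu
      have hu' : algebraMap K' E u' = algebraMap K E u := by
        rw [IsScalarTower.algebraMap_apply K' F E, hu, ← IsScalarTower.algebraMap_apply]
      have hβ : algebraMap K' E β' = algebraMap F E ρ ^ 4 * algebraMap K E β := by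
        rw [IsScalarTower.algebraMap_apply K' F E, h.hb, map_mul, map_pow,
          ← IsScalarTower.algebraMap_apply]
      apply Pool.Agent.K9h16.PT.some_congr
      · rw [hu']
        field_simp
      · rw [hu', hβ]
        field_simp

end iso

end Pool.Agent.K9h16.BT
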